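import Mathlib

/-!
# Generic query programs: a block of non-adaptive reads, then adaptive group operations

The group elements are the elements of a prime field `K` (the residues modulo `p`), known to the
algorithm only through a labelling `σ : K ≃ L`.
-/

namespace Pool.Agent.GGA

/-- the value at `z` of the affine form `r = (c, g)` -/
def fv {K : Type*} [Mul K] [Add K] (r : K × K) (z : K) : K := r.1 * z + r.2

/-- An adaptive generic program.
* `answer b`: stop with the answer `b`;
* `lin c₀ c₁ c₂ u v k`: obtain the label `l` of `c₀ + c₁ x + c₂ y`, where `x`, `y` are the numbers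
  with labels `u`, `v`, and continue with `k l`. -/
inductive Prog (K L : Type) : Type
  | answer (b : Bool) : Prog K L
  | lin (c₀ c₁ c₂ : K) (u v : L) (k : L → Prog K L) : Prog K L

/-- The answer of a program when the numbers are labelled by `σ`. -/
def Prog.run {K L : Type} [Field K] (σ : K ≃ L) : Prog K L → Bool
  | .answer b => b
  | .lin c₀ c₁ c₂ u v k => (k (σ (c₀ + c₁ * σ.symm u + c₂ * σ.symm v))).run σ

/-- every branch of the program has at most `t` operations -/
inductive Prog.Cost {K L : Type} : ℕ → Prog K L → Prop
  | answer (t : ℕ) (b : Bool) : Prog.Cost t (.answer b)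
  | lin (t : ℕ) (c₀ c₁ c₂ : K) (u v : L) (k : L → Prog K L) (h : ∀ l, Prog.Cost t (k l)) :
      Prog.Cost (t + 1) (.lin c₀ c₁ c₂ u v k)

end Pool.Agent.GGA
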