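import Mathlib
import Pool.Agent.GGA.Defs

/-!
# Generic data structures: a free non-adaptive block, then adaptive group operations
-/

namespace Pool.Agent.GGA

/-- A generic data structure for two fixed arrays (on which everything may depend).
* `prep` turns the labelling into the memory content;
* `first`: the non-adaptive reads; with the seed `ω` and the memory content `a` the query for the
  number `z` reads first the labels of `z` and of `c z + g` for the `q` pairs
  `(c, g) = first ω a j`;
* `query` turns the seed, the memory content, the label of `z` and these `q` labels into an
  adaptive program. -/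
structure DataStructure (K L Adv Ω : Type) (q : ℕ) where
  /-- the preprocessing -/
  prep : (K ≃ L) → Adv
  /-- the non-adaptive reads -/
  first : Ω → Adv → Fin q → K × K
  /-- the adaptive part -/
  query : Ω → Adv → L → (Fin q → L) → Prog K L

/-- the answer to the query `z` with the seed `ω` when the numbers are labelled by `σ` -/
def DataStructure.answer {K L Adv Ω : Type} {q : ℕ} [Field K] (D : DataStructure K L Adv Ω q)
    (ω : Ω) (σ : K ≃ L) (z : K) : Bool :=
  (D.query ω (D.prep σ) (σ z) fun j => σ (fv (D.first ω (D.prep σ) j) z)).run σ

/-- every query makes at most `t` adaptive operations -/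
def DataStructure.Time {K L Adv Ω : Type} {q : ℕ} (D : DataStructure K L Adv Ω q) (t : ℕ) : Prop :=
  ∀ (ω : Ω) (a : Adv) (l : L) (β : Fin q → L), (D.query ω a l β).Cost t

end Pool.Agent.GGA
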