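import Mathlib
import Pool.Agent.GGA.Model

/-!
# The error of a generic data structure for 3SUM-Indexing
-/

namespace Pool.Agent.GGA

open Finset

/-- the set of the sums of an entry of the first and an entry of the second array -/
def Sums {K : Type} [Field K] [DecidableEq K] {n : ℕ} (a b : Fin n → K) : Finset K :=
  univ.image fun u : Fin n × Fin n => a u.1 + b u.2

/-- The mean over the seeds of the average of the two error fractions: sums which are rejected,
elements which are not sums and are accepted. -/
noncomputable def DataStructure.error {K L Adv Ω : Type} {q : ℕ} [Field K] [Fintype K]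
    [DecidableEq K] [Fintype Ω] (D : DataStructure K L Adv Ω q) {n : ℕ} (a b : Fin n → K)
    (σ : K ≃ L) : ℝ :=
  (∑ ω : Ω, ((#{x ∈ Sums a b | D.answer ω σ x = false} : ℝ) / #(Sums a b) +
    (#{z ∈ (Sums a b)ᶜ | D.answer ω σ z = true} : ℝ) / #(Sums a b)ᶜ)) / (2 * Fintype.card Ω)

end Pool.Agent.GGA
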