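import Mathlib
import Pool.Agent.GGA.Defs
import Pool.Agent.GGA.Count

/-!
A large set `𝓕` of labellings, conditioned on a suitable set of few units (single pairs and
labelled blocks), looks to every query almost like all labellings extending this set.
-/

namespace Pool.Agent.GGA

open Finset

variable {F L : Type} [Fintype F] [DecidableEq F] [Fintype L] [DecidableEq L]

/-- indicator of a set of bijections -/
def indS (𝓕 : Finset (F ≃ L)) (σ : F ≃ L) : ℝ := if σ ∈ 𝓕 then 1 else 0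

/-- indicator of an answer -/
def indB (r : (F ≃ L) → Bool) (b : Bool) (σ : F ≃ L) : ℝ := if r σ = b then 1 else 0

theorem indS_nonneg (𝓕 : Finset (F ≃ L)) (σ : F ≃ L) : 0 ≤ indS 𝓕 σ := by
  unfold indS; split_ifs <;> norm_num

theorem indS_le (𝓕 : Finset (F ≃ L)) (σ : F ≃ L) : indS 𝓕 σ ≤ 1 := by
  unfold indS; split_ifs <;> norm_num

omit [Fintype L] [Fintype F] [DecidableEq F] [DecidableEq L] in
theorem indB_nonneg (r : (F ≃ L) → Bool) (b : Bool) (σ : F ≃ L) : 0 ≤ indB r b σ := by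
  unfold indB; split_ifs <;> norm_num

variable {ι : Type} [Fintype ι] [DecidableEq ι]

/-- labelled block: positions `ps j`, labels `β j` -/
def blk (ps : ι → F) (β : ι → L) : Finset (F × L) := univ.image fun j => (ps j, β j)

omit [Fintype F] [Fintype L] [DecidableEq ι] in
theorem mem_blk {ps : ι → F} {β : ι → L} {p : F × L} :
    p ∈ blk ps β ↔ ∃ j, ps j = p.1 ∧ β j = p.2 := by
  unfold blk
  simp [Prod.ext_iff]

omit [DecidableEq ι] in
theorem mem_ext_blk {π : Finset (F × L)} {ps : ι → F} {β : ι → L} {σ : F ≃ L} :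
    σ ∈ ext (π ∪ blk ps β) ↔ σ ∈ ext π ∧ ∀ j, σ (ps j) = β j := by
  simp only [mem_ext, mem_union, mem_blk]
  constructor
  · intro h
    exact ⟨fun p hp => h p (Or.inl hp), fun j => h (ps j, β j) (Or.inr ⟨j, rfl, rfl⟩)⟩
  · rintro ⟨h1, h2⟩ p (hp | ⟨j, hj1, hj2⟩)
    · exact h1 p hp
    · rw [← hj1, ← hj2]; exact h2 j

/-- split according to the labels of a block -/
theorem wt_block (h : (F ≃ L) → ℝ) (π : Finset (F × L)) (ps : ι → F) :
    wt h π = ∑ β : ι → L, wt h (π ∪ blk ps β) := by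
  classical
  unfold wt
  rw [← sum_fiberwise (ext π) (fun σ : F ≃ L => fun j => σ (ps j)) h]
  refine sum_congr rfl fun β _ => ?_
  refine sum_congr ?_ fun _ _ => rfl
  ext σ
  simp only [mem_filter, mem_ext_blk, funext_iff]

/-- `π` arises from `πc` by adding `s` units: single pairs, or labelled blocks of elements of `W` -/
inductive Reach (W : Finset F) (ps : F → ι → F) (πc : Finset (F × L)) :
    ℕ → Finset (F × L) → Prop
  | base : Reach W ps πc 0 πc
  | single (s : ℕ) (π : Finset (F × L)) (p : F × L) :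
      Reach W ps πc s π → Reach W ps πc (s + 1) (insert p π)
  | block (s : ℕ) (π : Finset (F × L)) (w : F) (hw : w ∈ W) (β : ι → L) :
      Reach W ps πc s π → Reach W ps πc (s + 1) (π ∪ blk (ps w) β)

omit [DecidableEq ι] in
theorem exists_dense (W : Finset F) (ps : F → ι → F) (πc : Finset (F × L))
    (𝓕 : Finset (F ≃ L)) (M : ℝ) (hM : 0 < M)
    (hF : wt (fun _ => (1 : ℝ)) πc ≤ M * wt (indS 𝓕) πc) (hne : 0 < wt (indS 𝓕) πc)
    (γ : ℝ) (hγ : 0 < γ) (hγ1 : γ < 1) :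
    ∃ (k : ℕ) (π₀ : Finset (F × L)), Reach W ps πc k π₀ ∧ 0 < wt (indS 𝓕) π₀ ∧
      (∀ s π', Reach W ps πc s π' → γ ^ s * wt (indS 𝓕) π' * wt (fun _ => (1 : ℝ)) π₀ ≤
        γ ^ k * wt (indS 𝓕) π₀ * wt (fun _ => (1 : ℝ)) π') ∧ 1 ≤ M * γ ^ k := by
  classical
  have hle : ∀ π : Finset (F × L), wt (indS 𝓕) π ≤ wt (fun _ => 1) π := by
    intro π
    exact sum_le_sum fun σ _ => indS_le 𝓕 σ
  have hnn : ∀ π : Finset (F × L), 0 ≤ wt (indS 𝓕) π := fun π => wt_nonneg (indS_nonneg 𝓕) π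
  have hec : 0 < wt (fun _ => (1 : ℝ)) πc := lt_of_lt_of_le hne (hle πc)
  obtain ⟨B, hB⟩ := exists_pow_lt_of_lt_one (inv_pos.2 hM) hγ1
  have hB0 : 0 < B := by
    rcases Nat.eq_zero_or_pos B with h | h
    · subst h
      rw [pow_zero] at hB
      exfalso
      have h2 : M < 1 := by
        rwa [lt_inv_comm₀ one_pos hM, inv_one] at hB
      have h3 : M * wt (indS 𝓕) πc < 1 * wt (indS 𝓕) πc := mul_lt_mul_of_pos_right h2 hne
      have := hle πc
      linarith
    · exact h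
  set C : Finset (ℕ × Finset (F × L)) := ((range B) ×ˢ (univ : Finset (Finset (F × L)))).filter
    fun x => Reach W ps πc x.1 x.2 ∧ 0 < wt (indS 𝓕) x.2 with hC
  have hCne : ((0 : ℕ), πc) ∈ C := by
    rw [hC, mem_filter, mem_product, mem_range]
    exact ⟨⟨hB0, mem_univ _⟩, Reach.base, hne⟩
  obtain ⟨⟨k, π₀⟩, hπ₀, hmax⟩ := exists_max_image C
    (fun x => wt (indS 𝓕) x.2 * γ ^ x.1 / wt (fun _ => 1) x.2) ⟨_, hCne⟩
  rw [hC, mem_filter] at hπ₀
  obtain ⟨-, hR, hf0⟩ := hπ₀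
  simp only at hR hf0
  have he0 : 0 < wt (fun _ => (1 : ℝ)) π₀ := lt_of_lt_of_le hf0 (hle π₀)
  have hbase : M⁻¹ ≤ wt (indS 𝓕) π₀ * γ ^ k / wt (fun _ => (1 : ℝ)) π₀ := by
    refine le_trans ?_ (hmax _ hCne)
    simp only [pow_zero, mul_one]
    rw [inv_eq_one_div, div_le_div_iff₀ hM hec]
    linarith
  refine ⟨k, π₀, hR, hf0, ?_, ?_⟩
  · intro s π' hR'
    rcases (hnn π').eq_or_lt with h | h
    · rw [← h]
      simp only [mul_zero, zero_mul]
      exact mul_nonneg (mul_nonneg (pow_nonneg hγ.le _) hf0.le) ((hnn π').trans (hle π'))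
    · have he' : 0 < wt (fun _ => (1 : ℝ)) π' := lt_of_lt_of_le h (hle π')
      have hval : wt (indS 𝓕) π' * γ ^ s / wt (fun _ => (1 : ℝ)) π' ≤
          wt (indS 𝓕) π₀ * γ ^ k / wt (fun _ => (1 : ℝ)) π₀ := by
        by_cases hs : s < B
        · exact hmax (s, π') (by
            rw [hC, mem_filter, mem_product, mem_range]
            exact ⟨⟨hs, mem_univ _⟩, hR', h⟩)
        · push Not at hs
          refine le_trans ?_ hbase
          refine le_trans ?_ hB.le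
          rw [div_le_iff₀ he']
          have h4 : γ ^ s ≤ γ ^ B := pow_le_pow_of_le_one hγ.le hγ1.le hs
          have h5 : 0 ≤ γ ^ s := pow_nonneg hγ.le _
          calc wt (indS 𝓕) π' * γ ^ s ≤ wt (fun _ => (1 : ℝ)) π' * γ ^ B :=
                mul_le_mul (hle π') h4 h5 he'.le
            _ = γ ^ B * wt (fun _ => (1 : ℝ)) π' := mul_comm _ _
      rw [div_le_div_iff₀ he' he0] at hval
      linarith
  · have h1 : wt (indS 𝓕) π₀ * γ ^ k / wt (fun _ => (1 : ℝ)) π₀ ≤ γ ^ k := by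
      rw [div_le_iff₀ he0, mul_comm]
      exact mul_le_mul_of_nonneg_left (hle π₀) (pow_nonneg hγ.le _)
    have h2 := hbase.trans h1
    rw [inv_le_iff_one_le_mul₀ hM] at h2
    linarith

section TP

variable (W : Finset F) (ps : F → ι → F) (πc : Finset (F × L)) (𝓕 : Finset (F ≃ L)) (γ : ℝ)
  (k : ℕ) (π₀ : Finset (F × L))

/-- the transfer property with exponent `t` -/
def TP (t : ℕ) (r : (F ≃ L) → Bool) : Prop :=
  ∀ b s π', Reach W ps πc s π' →
    γ ^ (s + t) * wt (fun σ => indS 𝓕 σ * indB r b σ) π' * wt (fun _ => (1 : ℝ)) π₀ ≤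
      γ ^ k * wt (indS 𝓕) π₀ * wt (indB r b) π'

variable {W ps πc 𝓕 γ k π₀}

omit [DecidableEq ι] in
theorem TP.mono {t t' : ℕ} {r : (F ≃ L) → Bool} (hγ : 0 ≤ γ) (hγ1 : γ ≤ 1)
    (h : TP W ps πc 𝓕 γ k π₀ t r) (htt : t ≤ t') : TP W ps πc 𝓕 γ k π₀ t' r := by
  intro b s π' hR
  refine le_trans ?_ (h b s π' hR)
  refine mul_le_mul_of_nonneg_right (mul_le_mul_of_nonneg_right ?_ ?_) ?_
  · exact pow_le_pow_of_le_one hγ hγ1 (by omega)
  · exact wt_nonneg (fun σ => mul_nonneg (indS_nonneg _ _) (indB_nonneg _ _ _)) _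
  · exact wt_nonneg (fun _ => zero_le_one) _

omit [DecidableEq ι] in
/-- one exposed label: if the answers are `r x` when the number with label `u` is `x` -/
theorem TP.label {t : ℕ} (u : L) (r : F → (F ≃ L) → Bool)
    (h : ∀ x, TP W ps πc 𝓕 γ k π₀ t (r x)) :
    TP W ps πc 𝓕 γ k π₀ (t + 1) (fun σ => r (σ.symm u) σ) := by
  intro b s π' hR
  rw [wt_label _ π' u, wt_label (indB _ b) π' u, mul_sum, mul_sum, sum_mul]
  refine sum_le_sum fun x _ => ?_
  have e1 : wt (fun σ => indS 𝓕 σ * indB (fun σ => r (σ.symm u) σ) b σ) (insert (x, u) π') =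
      wt (fun σ => indS 𝓕 σ * indB (r x) b σ) (insert (x, u) π') := by
    refine wt_congr fun σ hσ => ?_
    rw [mem_ext_insert] at hσ
    have : σ.symm u = x := (Equiv.symm_apply_eq σ).2 hσ.1.symm
    simp only [indB, this]
  have e2 : wt (indB (fun σ => r (σ.symm u) σ) b) (insert (x, u) π') =
      wt (indB (r x) b) (insert (x, u) π') := by
    refine wt_congr fun σ hσ => ?_
    rw [mem_ext_insert] at hσ
    have : σ.symm u = x := (Equiv.symm_apply_eq σ).2 hσ.1.symm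
    simp only [indB, this]
  rw [e1, e2]
  have := h x b (s + 1) _ (Reach.single s π' (x, u) hR)
  rwa [show s + 1 + t = s + (t + 1) by omega] at this

omit [DecidableEq ι] in
/-- one exposed number: if the answers are `r l` when the label of `x` is `l` -/
theorem TP.elem {t : ℕ} (x : F) (r : L → (F ≃ L) → Bool)
    (h : ∀ l, TP W ps πc 𝓕 γ k π₀ t (r l)) :
    TP W ps πc 𝓕 γ k π₀ (t + 1) (fun σ => r (σ x) σ) := by
  intro b s π' hR
  rw [wt_elem _ π' x, wt_elem (indB _ b) π' x, mul_sum, mul_sum, sum_mul]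
  refine sum_le_sum fun l _ => ?_
  have e1 : wt (fun σ => indS 𝓕 σ * indB (fun σ => r (σ x) σ) b σ) (insert (x, l) π') =
      wt (fun σ => indS 𝓕 σ * indB (r l) b σ) (insert (x, l) π') := by
    refine wt_congr fun σ hσ => ?_
    rw [mem_ext_insert] at hσ
    have : σ x = l := hσ.1
    simp only [indB, this]
  have e2 : wt (indB (fun σ => r (σ x) σ) b) (insert (x, l) π') =
      wt (indB (r l) b) (insert (x, l) π') := by
    refine wt_congr fun σ hσ => ?_
    rw [mem_ext_insert] at hσ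
    have : σ x = l := hσ.1
    simp only [indB, this]
  rw [e1, e2]
  have := h l b (s + 1) _ (Reach.single s π' (x, l) hR)
  rwa [show s + 1 + t = s + (t + 1) by omega] at this

/-- one exposed block -/
theorem TP.block {t : ℕ} (w : F) (hw : w ∈ W) (r : (ι → L) → (F ≃ L) → Bool)
    (h : ∀ β, TP W ps πc 𝓕 γ k π₀ t (r β)) :
    TP W ps πc 𝓕 γ k π₀ (t + 1) (fun σ => r (fun j => σ (ps w j)) σ) := by
  intro b s π' hR
  rw [wt_block _ π' (ps w), wt_block (indB _ b) π' (ps w), mul_sum, mul_sum, sum_mul]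
  refine sum_le_sum fun β _ => ?_
  have e0 : ∀ σ ∈ ext (π' ∪ blk (ps w) β), (fun j => σ (ps w j)) = β := by
    intro σ hσ
    rw [mem_ext_blk] at hσ
    exact funext hσ.2
  have e1 : wt (fun σ => indS 𝓕 σ * indB (fun σ => r (fun j => σ (ps w j)) σ) b σ)
      (π' ∪ blk (ps w) β) =
      wt (fun σ => indS 𝓕 σ * indB (r β) b σ) (π' ∪ blk (ps w) β) := by
    refine wt_congr fun σ hσ => ?_
    simp only [indB, e0 σ hσ]
  have e2 : wt (indB (fun σ => r (fun j => σ (ps w j)) σ) b) (π' ∪ blk (ps w) β) =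
      wt (indB (r β) b) (π' ∪ blk (ps w) β) := by
    refine wt_congr fun σ hσ => ?_
    simp only [indB, e0 σ hσ]
  rw [e1, e2]
  have := h β b (s + 1) _ (Reach.block s π' w hw β hR)
  rwa [show s + 1 + t = s + (t + 1) by omega] at this

omit [DecidableEq ι] in
/-- constant answers -/
theorem TP.const
    (h : ∀ s π', Reach W ps πc s π' → γ ^ s * wt (indS 𝓕) π' * wt (fun _ => (1 : ℝ)) π₀ ≤
        γ ^ k * wt (indS 𝓕) π₀ * wt (fun _ => (1 : ℝ)) π') (c : Bool) :
    TP W ps πc 𝓕 γ k π₀ 0 (fun _ => c) := by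
  intro b s π' hR
  by_cases hcb : c = b
  · have e1 : (fun σ : F ≃ L => indS 𝓕 σ * indB (fun _ => c) b σ) = indS 𝓕 := by
      funext σ; simp [indB, hcb]
    have e2 : (indB (fun _ : F ≃ L => c) b) = fun _ => (1 : ℝ) := by
      funext σ; simp [indB, hcb]
    rw [e1, e2]
    simpa using h s π' hR
  · have e1 : (fun σ : F ≃ L => indS 𝓕 σ * indB (fun _ => c) b σ) = fun _ => (0 : ℝ) := by
      funext σ; simp [indB, hcb]
    have e2 : (indB (fun _ : F ≃ L => c) b) = fun _ => (0 : ℝ) := by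
      funext σ; simp [indB, hcb]
    rw [e1, e2]
    simp [wt]

omit [DecidableEq ι] in
theorem TP.prog [Field F] (hγ : 0 ≤ γ) (hγ1 : γ ≤ 1)
    (h : ∀ s π', Reach W ps πc s π' → γ ^ s * wt (indS 𝓕) π' * wt (fun _ => (1 : ℝ)) π₀ ≤
        γ ^ k * wt (indS 𝓕) π₀ * wt (fun _ => (1 : ℝ)) π') {t : ℕ} {p : Prog F L}
    (hp : p.Cost t) : TP W ps πc 𝓕 γ k π₀ (3 * t) (fun σ => p.run σ) := by
  induction hp with
  | answer t b => exact (TP.const h b).mono hγ hγ1 (Nat.zero_le _)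
  | lin t c₀ c₁ c₂ u v q _ ih =>
    have h1 : ∀ x y : F, TP W ps πc 𝓕 γ k π₀ (3 * t + 1)
        (fun σ => (q (σ (c₀ + c₁ * x + c₂ * y))).run σ) := fun x y =>
      TP.elem (c₀ + c₁ * x + c₂ * y) (fun l σ => (q l).run σ) ih
    have h2 : ∀ x : F, TP W ps πc 𝓕 γ k π₀ (3 * t + 1 + 1)
        (fun σ => (q (σ (c₀ + c₁ * x + c₂ * σ.symm v))).run σ) := fun x =>
      TP.label v (fun y σ => (q (σ (c₀ + c₁ * x + c₂ * y))).run σ) (h1 x)
    exact TP.label u (fun x σ => (q (σ (c₀ + c₁ * x + c₂ * σ.symm v))).run σ) h2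

/-- the whole query: a block, then a program -/
theorem TP.query [Field F] (hγ : 0 < γ) (hγ1 : γ ≤ 1) (hR : Reach W ps πc k π₀)
    (h : ∀ s π', Reach W ps πc s π' → γ ^ s * wt (indS 𝓕) π' * wt (fun _ => (1 : ℝ)) π₀ ≤
        γ ^ k * wt (indS 𝓕) π₀ * wt (fun _ => (1 : ℝ)) π') {t : ℕ} (Q : (ι → L) → Prog F L)
    (hp : ∀ β, (Q β).Cost t) (w : F) (hw : w ∈ W) (b : Bool) :
    γ ^ (3 * t + 1) *
      wt (fun σ => indS 𝓕 σ * indB (fun σ => (Q (fun j => σ (ps w j))).run σ) b σ) π₀ *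
      wt (fun _ => (1 : ℝ)) π₀ ≤
      wt (indS 𝓕) π₀ * wt (indB (fun σ => (Q (fun j => σ (ps w j))).run σ) b) π₀ := by
  have := TP.block w hw (fun β σ => (Q β).run σ) (fun β => TP.prog hγ.le hγ1 h (hp β)) b k π₀ hR
  rw [pow_add] at this
  have hk : 0 < γ ^ k := pow_pos hγ k
  have h2 : γ ^ k * (γ ^ (3 * t + 1) *
      wt (fun σ => indS 𝓕 σ * indB (fun σ => (Q (fun j => σ (ps w j))).run σ) b σ) π₀ *
      wt (fun _ => (1 : ℝ)) π₀) ≤
      γ ^ k * (wt (indS 𝓕) π₀ *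
        wt (indB (fun σ => (Q (fun j => σ (ps w j))).run σ) b) π₀) := by
    linarith
  exact le_of_mul_le_mul_left h2 hk

end TP

end Pool.Agent.GGA
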