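import Mathlib
import Pool.Agent.GGA.Pre

/-!
Running a query on the indeterminate `X`: for a random labelling extending `π₀` the answer hardly
depends on the number asked about.
-/

namespace Pool.Agent.GGA

open Finset Polynomial

open scoped Classical in
/-- the concrete pairs of a formal state at the number `x` -/
noncomputable def ev {F L : Type} [Field F] (Γ : Finset (F[X] × L)) (x : F) : Finset (F × L) :=
  Γ.image fun p => (p.1.eval x, p.2)

variable {F L : Type} [Field F] [Fintype F] [DecidableEq F] [Fintype L] [DecidableEq L]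

omit [Fintype F] [DecidableEq F] [Fintype L] [DecidableEq L] in
theorem mem_ev {Γ : Finset (F[X] × L)} {x : F} {p : F × L} :
    p ∈ ev Γ x ↔ ∃ q ∈ Γ, q.1.eval x = p.1 ∧ q.2 = p.2 := by
  classical
  unfold ev
  rw [mem_image]
  constructor
  · rintro ⟨q, hq, rfl⟩
    exact ⟨q, hq, rfl, rfl⟩
  · rintro ⟨q, hq, h1, h2⟩
    exact ⟨q, hq, Prod.ext h1 h2⟩

/-- at `x` the pairs of the formal state `Γ` form a partial bijection of full size -/
def Good (Γ : Finset (F[X] × L)) (x : F) : Prop :=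
  ∀ p ∈ Γ, ∀ q ∈ Γ, p ≠ q → p.1.eval x ≠ q.1.eval x ∧ p.2 ≠ q.2

omit [Fintype F] [DecidableEq F] [Fintype L] [DecidableEq L] in
theorem Good.isPB {Γ : Finset (F[X] × L)} {x : F} (h : Good Γ x) : IsPB (ev Γ x) := by
  intro p hp q hq hpq
  rw [mem_ev] at hp hq
  obtain ⟨p', hp', h1, h2⟩ := hp
  obtain ⟨q', hq', h3, h4⟩ := hq
  have hne : p' ≠ q' := by
    rintro rfl
    exact hpq (Prod.ext (h1.symm.trans h3) (h2.symm.trans h4))
  have := h p' hp' q' hq' hne
  rw [h1, h2, h3, h4] at this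
  exact this

omit [Fintype F] [DecidableEq F] [Fintype L] [DecidableEq L] in
theorem Good.card {Γ : Finset (F[X] × L)} {x : F} (h : Good Γ x) : (ev Γ x).card = Γ.card := by
  classical
  unfold ev
  refine card_image_of_injOn ?_
  intro p hp q hq he
  by_contra hne
  have := (h p hp q hq hne).2
  simp only [Prod.mk.injEq] at he
  exact this he.2

omit [Fintype F] in
theorem ev_insert (Γ : Finset (F[X] × L)) (x : F) (r : F[X]) (l : L) [DecidableEq (F[X] × L)] :
    ev (insert (r, l) Γ) x = insert (r.eval x, l) (ev Γ x) := by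
  ext p
  rw [mem_ev, mem_insert, mem_ev]
  constructor
  · rintro ⟨q, hq, h1, h2⟩
    rw [mem_insert] at hq
    rcases hq with rfl | hq
    · left
      exact Prod.ext h1.symm h2.symm
    · right
      exact ⟨q, hq, h1, h2⟩
  · rintro (rfl | ⟨q, hq, h1, h2⟩)
    · exact ⟨(r, l), mem_insert_self _ _, rfl, rfl⟩
    · exact ⟨q, mem_insert_of_mem hq, h1, h2⟩

/-- value of `h` at the state `Γ` and the number `x` -/
noncomputable def val (h : F → Bool → (F ≃ L) → ℝ) (Γ : Finset (F[X] × L)) (x : F) (b : Bool) : ℝ :=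
  wt (h x b) (ev Γ x) / ((Fintype.card L - Γ.card).factorial : ℝ)

theorem Good.subset {Γ Γ' : Finset (F[X] × L)} {x : F} (h : Good Γ' x) (hs : Γ ⊆ Γ') :
    Good Γ x := fun p hp q hq => h p (hs hp) q (hs hq)

omit [Fintype F] [DecidableEq F] [Fintype L] [DecidableEq L] in
theorem good_insert {Γ : Finset (F[X] × L)} {x : F} {r : F[X]} {l : L}
    [DecidableEq (F[X] × L)] (h : Good Γ x)
    (hr : ∀ p ∈ Γ, p.1.eval x ≠ r.eval x) (hl : ∀ p ∈ Γ, p.2 ≠ l) : Good (insert (r, l) Γ) x := by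
  intro p hp q hq hpq
  rw [mem_insert] at hp hq
  rcases hp with rfl | hp <;> rcases hq with rfl | hq
  · exact absurd rfl hpq
  · exact ⟨(hr q hq).symm, (hl q hq).symm⟩
  · exact ⟨hr p hp, hl p hp⟩
  · exact h p hp q hq hpq

/-- comparison of one continuation with the current state -/
theorem val_div_le {h h' : F → Bool → (F ≃ L) → ℝ} {Γ : Finset (F[X] × L)} {x : F} {b : Bool}
    {r : F[X]} {l : L} [DecidableEq (F[X] × L)]
    (hh' : ∀ x b σ, 0 ≤ h' x b σ) (hn : (r, l) ∉ Γ) (hg : Good (insert (r, l) Γ) x)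
    (he : ∀ σ ∈ ext (insert (r.eval x, l) (ev Γ x)), h x b σ = h' x b σ) :
    val h' (insert (r, l) Γ) x b / Fintype.card L ≤
      wt (h x b) (insert (r.eval x, l) (ev Γ x)) /
        ((Fintype.card L - Γ.card).factorial : ℝ) := by
  have hcard : (insert (r, l) Γ).card = Γ.card + 1 := card_insert_of_notMem hn
  have hle : Γ.card + 1 ≤ Fintype.card L := by
    rw [← hcard, ← hg.card]
    exact hg.isPB.card_le
  have hw : wt (h x b) (insert (r.eval x, l) (ev Γ x)) =
      wt (h' x b) (insert (r.eval x, l) (ev Γ x)) := wt_congr he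
  rw [hw]
  unfold val
  rw [ev_insert, hcard]
  obtain ⟨d, hd⟩ : ∃ d, Fintype.card L - Γ.card = d + 1 := ⟨Fintype.card L - Γ.card - 1, by omega⟩
  have hd' : Fintype.card L - (Γ.card + 1) = d := by omega
  rw [hd, hd', Nat.factorial_succ, div_div]
  have hw0 : 0 ≤ wt (h' x b) (insert (r.eval x, l) (ev Γ x)) := wt_nonneg (hh' x b) _
  have hfac : (0 : ℝ) < (d.factorial : ℝ) := by exact_mod_cast Nat.factorial_pos d
  refine div_le_div_of_nonneg_left hw0 ?_ ?_
  · push_cast
    positivity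
  · push_cast
    rw [mul_comm ((d : ℝ) + 1)]
    refine mul_le_mul_of_nonneg_left ?_ hfac.le
    have : d + 1 ≤ Fintype.card L := by omega
    exact_mod_cast this

/-- entries with different forms and different labels -/
def LGood (Γ : Finset (F[X] × L)) : Prop := ∀ p ∈ Γ, ∀ q ∈ Γ, p ≠ q → p.1 ≠ q.1 ∧ p.2 ≠ q.2

open scoped Classical in
/-- at most `B` elements of `Y` are lost in any extension of `Γ` by at most `R` forms -/
def LossB (Y : Finset F) (B R : ℕ) (Γ : Finset (F[X] × L)) : Prop :=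
  ∀ Λ : Finset (F[X] × L), #Λ ≤ R → (∀ p ∈ Λ, p.1.natDegree ≤ 1) → LGood (Γ ∪ Λ) →
    #Y ≤ #{x ∈ Y | Good (Γ ∪ Λ) x} + B

theorem LossB.mono {Y : Finset F} {B R R' : ℕ} {Γ : Finset (F[X] × L)} (h : LossB Y B R' Γ)
    (hR : R ≤ R') : LossB Y B R Γ := fun Λ h1 h2 h3 => h Λ (h1.trans hR) h2 h3

open scoped Classical in
theorem LossB.ins {Y : Finset F} {B R : ℕ} {Γ : Finset (F[X] × L)} (h : LossB Y B (R + 1) Γ)
    (p : F[X] × L) (hp : p.1.natDegree ≤ 1) : LossB Y B R (insert p Γ) := by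
  intro Λ h1 h2 h3
  have e : insert p Γ ∪ Λ = Γ ∪ insert p Λ := by
    rw [insert_union, union_insert]
  rw [e] at h3 ⊢
  refine h (insert p Λ) ((card_insert_le _ _).trans (by omega)) ?_ h3
  intro q hq
  rcases mem_insert.1 hq with rfl | hq
  · exact hp
  · exact h2 q hq

open scoped Classical in
/-- the values at the state `Γ` are nearly independent of the number -/
def Claim (R : ℕ) (h : F → Bool → (F ≃ L) → ℝ) (Γ : Finset (F[X] × L)) (β : ℝ) : Prop :=
  ∃ q : Bool → ℝ, (∀ b, 0 ≤ q b) ∧ 1 - β ≤ q true + q false ∧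
    ∀ b, ∀ (Y : Finset F) (B : ℕ), LossB Y B R Γ →
      ((#Y : ℝ) - B) * q b ≤ ∑ x ∈ Y with Good Γ x, val h Γ x b

theorem Claim.mono {R R' : ℕ} {h : F → Bool → (F ≃ L) → ℝ} {Γ : Finset (F[X] × L)} {β β' : ℝ}
    (H : Claim R h Γ β) (h0 : R ≤ R') (h2 : β ≤ β') : Claim R' h Γ β' := by
  obtain ⟨q, hq0, hq1, hq⟩ := H
  exact ⟨q, hq0, by linarith, fun b Y B hL => hq b Y B (hL.mono h0)⟩

theorem Claim.congr {R : ℕ} {h h' : F → Bool → (F ≃ L) → ℝ}
    {Γ : Finset (F[X] × L)} {β : ℝ}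
    (H : Claim R h Γ β) (e : ∀ x b, ∀ σ ∈ ext (ev Γ x), h x b σ = h' x b σ) :
    Claim R h' Γ β := by
  obtain ⟨q, hq0, hq1, hq⟩ := H
  refine ⟨q, hq0, hq1, fun b Y B hL => ?_⟩
  refine (hq b Y B hL).trans (le_of_eq ?_)
  refine sum_congr rfl fun x _ => ?_
  unfold val
  rw [wt_congr (e x b)]

open scoped Classical in
/-- averaging over the possible continuations -/
theorem avg_core {ι : Type} [Fintype ι] (hι : 0 < Fintype.card ι) (A : Finset ι)
    {h : F → Bool → (F ≃ L) → ℝ} {Γ : Finset (F[X] × L)}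
    (Γi : ι → Finset (F[X] × L)) (hi : ι → F → Bool → (F ≃ L) → ℝ) (q : ι → Bool → ℝ)
    (Y : Finset F) (B : ℕ) (b : Bool)
    (hq : ∀ i ∈ A, ((#Y : ℝ) - B) * q i b ≤ ∑ x ∈ Y with Good (Γi i) x, val (hi i) (Γi i) x b)
    (hsub : ∀ i ∈ A, ∀ x, Good (Γi i) x → Good Γ x)
    (h1 : ∀ x ∈ Y, Good Γ x → ∀ s : Finset ι, s ⊆ A → (∀ i ∈ s, Good (Γi i) x) →
      (∑ i ∈ s, val (hi i) (Γi i) x b) / Fintype.card ι ≤ val h Γ x b) :
    ((#Y : ℝ) - B) * ((∑ i ∈ A, q i b) / Fintype.card ι) ≤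
      ∑ x ∈ Y with Good Γ x, val h Γ x b := by
  set N : ℝ := (Fintype.card ι : ℝ) with hN
  have hNpos : 0 < N := by rw [hN]; exact_mod_cast hι
  have s1 : (∑ x ∈ Y with Good Γ x, ∑ i ∈ A with Good (Γi i) x, val (hi i) (Γi i) x b) / N ≤
      ∑ x ∈ Y with Good Γ x, val h Γ x b := by
    rw [sum_div]
    refine sum_le_sum fun x hx => ?_
    rw [mem_filter] at hx
    refine h1 x hx.1 hx.2 _ (filter_subset _ _) ?_
    intro i hi'
    rw [mem_filter] at hi'
    exact hi'.2
  have s2 : ∑ x ∈ Y with Good Γ x, ∑ i ∈ A with Good (Γi i) x, val (hi i) (Γi i) x b =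
      ∑ i ∈ A, ∑ x ∈ Y with Good (Γi i) x, val (hi i) (Γi i) x b := by
    simp only [sum_filter]
    rw [sum_comm]
    have : ∀ x ∈ Y, (if Good Γ x then
        ∑ i ∈ A, (if Good (Γi i) x then val (hi i) (Γi i) x b else 0) else 0) =
        ∑ i ∈ A, (if Good (Γi i) x then val (hi i) (Γi i) x b else 0) := by
      intro x _
      split_ifs with hg
      · rfl
      · symm
        refine sum_eq_zero fun i hi' => ?_
        rw [if_neg fun hgi => hg (hsub i hi' x hgi)]
    rw [sum_congr rfl this, sum_comm]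
  have s3 : ((#Y : ℝ) - B) * ∑ i ∈ A, q i b ≤
      ∑ i ∈ A, ∑ x ∈ Y with Good (Γi i) x, val (hi i) (Γi i) x b := by
    rw [mul_sum]
    exact sum_le_sum hq
  rw [s2] at s1
  refine le_trans ?_ s1
  rw [← mul_div_assoc]
  exact div_le_div_of_nonneg_right s3 hNpos.le

theorem Claim.avg {R R' : ℕ} {ι : Type} [Fintype ι] (hι : 0 < Fintype.card ι) (A : Finset ι)
    {h : F → Bool → (F ≃ L) → ℝ} {Γ : Finset (F[X] × L)} {β β' : ℝ} (hβ : 0 ≤ β)
    (Γi : ι → Finset (F[X] × L)) (hi : ι → F → Bool → (F ≃ L) → ℝ)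
    (H : ∀ i ∈ A, Claim R (hi i) (Γi i) β)
    (hloss : ∀ i ∈ A, ∀ (Y : Finset F) (B : ℕ), LossB Y B R' Γ → LossB Y B R (Γi i))
    (hsub : ∀ i ∈ A, ∀ x, Good (Γi i) x → Good Γ x)
    (hA : (Fintype.card ι : ℝ) * (1 - β') ≤ #A)
    (h1 : ∀ x, Good Γ x → ∀ b, ∀ s : Finset ι, s ⊆ A → (∀ i ∈ s, Good (Γi i) x) →
      (∑ i ∈ s, val (hi i) (Γi i) x b) / Fintype.card ι ≤ val h Γ x b) :
    Claim R' h Γ (β + β') := by
  classical
  have H' : ∀ i : ι, ∃ q : Bool → ℝ, i ∈ A → (∀ b, 0 ≤ q b) ∧ 1 - β ≤ q true + q false ∧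
      ∀ b, ∀ (Y : Finset F) (B : ℕ), LossB Y B R (Γi i) →
        ((#Y : ℝ) - B) * q b ≤ ∑ x ∈ Y with Good (Γi i) x, val (hi i) (Γi i) x b := by
    intro i
    by_cases hiA : i ∈ A
    · obtain ⟨q, hq⟩ := H i hiA
      refine ⟨q, fun _ => ⟨hq.1, hq.2.1, fun b Y B hL => ?_⟩⟩
      convert hq.2.2 b Y B hL
    · exact ⟨fun _ => 0, fun h => absurd h hiA⟩
  choose q hq using H'
  set N : ℝ := (Fintype.card ι : ℝ) with hN
  have hNpos : 0 < N := by rw [hN]; exact_mod_cast hι
  have hAle : (#A : ℝ) ≤ N := by rw [hN]; exact_mod_cast card_le_univ A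
  refine ⟨fun b => (∑ i ∈ A, q i b) / N, fun b => ?_, ?_, ?_⟩
  · exact div_nonneg (sum_nonneg fun i hi' => (hq i hi').1 b) hNpos.le
  · rw [← add_div, ← sum_add_distrib, le_div_iff₀ hNpos]
    have h3 : ∑ _i ∈ A, (1 - β) ≤ ∑ i ∈ A, (q i true + q i false) :=
      sum_le_sum fun i hi' => (hq i hi').2.1
    rw [sum_const, nsmul_eq_mul] at h3
    nlinarith
  · intro b Y B hL
    have := avg_core hι A (h := h) (Γ := Γ) Γi hi q Y B b
      (fun i hi' => (hq i hi').2.2 b Y B (hloss i hi' Y B hL)) hsub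
      (fun x _ hx s hs hg => h1 x hx b s hs hg)
    exact this

open scoped Classical in
/-- reveal the number with the label `u` -/
theorem Claim.label {R : ℕ} (hFL : Fintype.card F = Fintype.card L)
    {h : F → Bool → (F ≃ L) → ℝ} {Γ : Finset (F[X] × L)} {β : ℝ} (hβ : 0 ≤ β)
    (hh : ∀ x b σ, 0 ≤ h x b σ) (u : L) (hu : ∀ p ∈ Γ, p.2 ≠ u)
    (H : ∀ g : F, (∀ p ∈ Γ, p.1 ≠ C g) → Claim R h (insert (C g, u) Γ) β) :
    Claim (R + 1) h Γ (β + Γ.card / Fintype.card L) := by
  have hpos : 0 < Fintype.card F := Fintype.card_pos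
  have hposR : (0 : ℝ) < Fintype.card L := by rw [← hFL]; exact_mod_cast hpos
  refine Claim.avg (R := R) (ι := F) hpos (univ.filter fun g => ∀ p ∈ Γ, p.1 ≠ C g) (h := h) (Γ := Γ) hβ
    (fun g => insert (C g, u) Γ) (fun _ => h) ?_ ?_ ?_ ?_ ?_
  · intro g hg
    rw [mem_filter] at hg
    exact H g hg.2
  · intro g _ Y B hL
    exact hL.ins _ (by simp)
  · intro g _ x hx
    exact hx.subset (subset_insert _ _)
  · have h1 : #(univ.filter fun g : F => ¬ ∀ p ∈ Γ, p.1 ≠ C g) ≤ #Γ := by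
      refine (card_le_card_of_injOn (fun g : F => (C g : F[X])) (t := Γ.image Prod.fst)
        ?_ ?_).trans card_image_le
      · intro g hg
        simp only [coe_filter, mem_univ, true_and, Set.mem_ofPred_eq] at hg
        push Not at hg
        obtain ⟨p, hp, he⟩ := hg
        exact mem_coe.2 (mem_image.2 ⟨p, hp, he⟩)
      · intro g _ g' _ he
        exact C_inj.1 he
    have h2 := card_filter_add_card_filter_not (s := (univ : Finset F))
      (fun g : F => ∀ p ∈ Γ, p.1 ≠ C g)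
    rw [card_univ] at h2
    have h3 : (Fintype.card F : ℝ) ≤ #(univ.filter fun g : F => ∀ p ∈ Γ, p.1 ≠ C g) + #Γ := by
      exact_mod_cast (by omega : Fintype.card F ≤
        #(univ.filter fun g : F => ∀ p ∈ Γ, p.1 ≠ C g) + #Γ)
    rw [mul_sub, mul_one, hFL, mul_div_cancel₀ _ hposR.ne', ← hFL]
    linarith
  · intro x hx b s _ hs
    rw [sum_div]
    have e1 : val h Γ x b = (∑ g : F, wt (h x b) (insert (g, u) (ev Γ x))) /
        ((Fintype.card L - Γ.card).factorial : ℝ) := by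
      unfold val
      rw [wt_label _ _ u]
    rw [e1, sum_div]
    refine (sum_le_sum fun g hg => ?_).trans (sum_le_sum_of_subset_of_nonneg (subset_univ s)
      fun g _ _ => div_nonneg (wt_nonneg (hh x b) _) (Nat.cast_nonneg _))
    have hn : (C g, u) ∉ Γ := fun hmem => hu _ hmem rfl
    have := val_div_le (h := h) (b := b) hh hn (hs g hg) (fun σ _ => rfl)
    rw [eval_C] at this
    rw [hFL]
    exact this

open scoped Classical in
/-- reveal the label of the number `r` -/
theorem Claim.elem {R : ℕ} (hFL : Fintype.card F = Fintype.card L)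
    {h : F → Bool → (F ≃ L) → ℝ} {Γ : Finset (F[X] × L)} {β : ℝ} (hβ : 0 ≤ β)
    (hh : ∀ x b σ, 0 ≤ h x b σ) (r : F[X]) (hr : ∀ p ∈ Γ, p.1 ≠ r)
    (hD : r.natDegree ≤ 1)
    (h' : L → F → Bool → (F ≃ L) → ℝ) (hh' : ∀ l x b σ, 0 ≤ h' l x b σ)
    (he : ∀ x b l, ∀ σ ∈ ext (insert (r.eval x, l) (ev Γ x)), h x b σ = h' l x b σ)
    (H : ∀ l : L, (∀ p ∈ Γ, p.2 ≠ l) → Claim R (h' l) (insert (r, l) Γ) β) :
    Claim (R + 1) h Γ (β + Γ.card / Fintype.card L) := by
  have hpos : 0 < Fintype.card L := by rw [← hFL]; exact Fintype.card_pos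
  have hposR : (0 : ℝ) < Fintype.card L := by exact_mod_cast hpos
  refine Claim.avg (R := R) (ι := L) hpos (univ.filter fun l => ∀ p ∈ Γ, p.2 ≠ l) (h := h) (Γ := Γ) hβ
    (fun l => insert (r, l) Γ) h' ?_ ?_ ?_ ?_ ?_
  · intro l hl
    rw [mem_filter] at hl
    exact H l hl.2
  · intro l _ Y B hL
    exact hL.ins _ hD
  · intro l _ x hx
    exact hx.subset (subset_insert _ _)
  · have h1 : #(univ.filter fun l : L => ¬ ∀ p ∈ Γ, p.2 ≠ l) ≤ #Γ := by
      refine (card_le_card (t := Γ.image Prod.snd) ?_).trans card_image_le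
      intro l hl
      rw [mem_filter] at hl
      have := hl.2
      push Not at this
      obtain ⟨p, hp, he⟩ := this
      exact mem_image.2 ⟨p, hp, he⟩
    have h2 := card_filter_add_card_filter_not (s := (univ : Finset L))
      (fun l : L => ∀ p ∈ Γ, p.2 ≠ l)
    rw [card_univ] at h2
    have h3 : (Fintype.card L : ℝ) ≤ #(univ.filter fun l : L => ∀ p ∈ Γ, p.2 ≠ l) + #Γ := by
      exact_mod_cast (by omega : Fintype.card L ≤
        #(univ.filter fun l : L => ∀ p ∈ Γ, p.2 ≠ l) + #Γ)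
    rw [mul_sub, mul_one, mul_div_cancel₀ _ hposR.ne']
    linarith
  · intro x hx b s _ hs
    rw [sum_div]
    have e1 : val h Γ x b = (∑ l : L, wt (h x b) (insert (r.eval x, l) (ev Γ x))) /
        ((Fintype.card L - Γ.card).factorial : ℝ) := by
      unfold val
      rw [wt_elem _ _ (r.eval x)]
    rw [e1, sum_div]
    refine (sum_le_sum fun l hl => ?_).trans (sum_le_sum_of_subset_of_nonneg (subset_univ s)
      fun g _ _ => div_nonneg (wt_nonneg (hh x b) _) (Nat.cast_nonneg _))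
    have hn : (r, l) ∉ Γ := fun hmem => hr _ hmem rfl
    exact val_div_le (h := h) (hh' l) hn (hs l hl) (he x b l)

/-- the function of a program-like object with answers `r` -/
def hOf (r : (F ≃ L) → Bool) : F → Bool → (F ≃ L) → ℝ := fun _ b σ => indB r b σ

theorem Claim.const (hFL : Fintype.card F = Fintype.card L)
    (Γ : Finset (F[X] × L)) (hΓ : LGood Γ) (c : Bool) :
    Claim 0 (hOf (F := F) (L := L) fun _ => c) Γ 0 := by
  classical
  refine ⟨fun b => if c = b then 1 else 0, fun b => by dsimp only; split_ifs <;> norm_num, ?_, ?_⟩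
  · cases c <;> simp
  · intro b Y B hL
    have hval : ∀ x ∈ Y.filter (Good Γ),
        val (hOf (F := F) (L := L) fun _ => c) Γ x b = if c = b then 1 else 0 := by
      intro x hx
      have hg : Good Γ x := (mem_filter.1 hx).2
      unfold val hOf indB
      split_ifs with hcb
      · have := card_ext hg.isPB hFL
        simp only [wt, sum_const, nsmul_eq_mul, mul_one]
        rw [this, hg.card]
        exact div_self (by exact_mod_cast (Nat.factorial_pos _).ne')
      · simp [wt]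
    have h1 := hL ∅ (by simp) (by simp) (by rw [union_empty]; exact hΓ)
    rw [union_empty] at h1
    have h2 : (#Y : ℝ) ≤ #(Y.filter (Good Γ)) + B := by
      have : #Y ≤ #(Y.filter (Good Γ)) + B := by convert h1
      exact_mod_cast this
    have h3 : ∑ x ∈ Y.filter (Good Γ), val (hOf (F := F) (L := L) fun _ => c) Γ x b =
        (#(Y.filter (Good Γ)) : ℝ) * if c = b then 1 else 0 := by
      rw [sum_congr rfl hval, sum_const, nsmul_eq_mul]
    have h4 : ((#Y : ℝ) - B) * (if c = b then 1 else 0) ≤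
        ∑ x ∈ Y.filter (Good Γ), val (hOf (F := F) (L := L) fun _ => c) Γ x b := by
      rw [h3]
      split_ifs
      · linarith
      · simp
    convert h4

omit [Fintype F] [DecidableEq F] [Fintype L] [DecidableEq L] in
theorem LGood.ins {Γ : Finset (F[X] × L)} {r : F[X]} {l : L}
    [DecidableEq (F[X] × L)] (h : LGood Γ)
    (hr : ∀ p ∈ Γ, p.1 ≠ r) (hl : ∀ p ∈ Γ, p.2 ≠ l) : LGood (insert (r, l) Γ) := by
  intro p hp q hq hpq
  rw [mem_insert] at hp hq
  rcases hp with rfl | hp <;> rcases hq with rfl | hq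
  · exact absurd rfl hpq
  · exact ⟨(hr q hq).symm, (hl q hq).symm⟩
  · exact ⟨hr p hp, hl p hp⟩
  · exact h p hp q hq hpq

open scoped Classical in
/-- an operation on two labels whose numbers are known -/
theorem Claim.op_known {R : ℕ} (hFL : Fintype.card F = Fintype.card L)
    {Γ : Finset (F[X] × L)} {β : ℝ} (hβ : 0 ≤ β) (hΓ : LGood Γ)
    (c₀ c₁ c₂ : F) (u v : L) (K : L → (F ≃ L) → Bool) {fu fv : F[X]}
    (hu : (fu, u) ∈ Γ) (hv : (fv, v) ∈ Γ) (hD' : ∀ p ∈ Γ, p.1.natDegree ≤ 1)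
    (H : ∀ (l : L) (Γ' : Finset (F[X] × L)), Γ'.card ≤ Γ.card + 1 → LGood Γ' →
      (∀ p ∈ Γ', p.1.natDegree ≤ 1) → Claim R (hOf (K l)) Γ' β) :
    Claim (R + 1) (hOf fun σ => K (σ (c₀ + c₁ * σ.symm u + c₂ * σ.symm v)) σ) Γ
      (β + Γ.card / Fintype.card L) := by
  set r : F[X] := C c₀ + C c₁ * fu + C c₂ * fv with hrdef
  have hr : ∀ x, r.eval x = c₀ + c₁ * fu.eval x + c₂ * fv.eval x := by
    intro x; simp [hrdef]
  have hD : r.natDegree ≤ 1 := by
    have h1 := hD' _ hu
    have h2 := hD' _ hv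
    refine (natDegree_add_le _ _).trans (max_le ((natDegree_add_le _ _).trans (max_le ?_ ?_)) ?_)
    · simp
    · exact (natDegree_C_mul_le _ _).trans h1
    · exact (natDegree_C_mul_le _ _).trans h2
  have hsymm : ∀ x : F, ∀ σ ∈ ext (ev Γ x), c₀ + c₁ * σ.symm u + c₂ * σ.symm v = r.eval x := by
    intro x σ hσ
    rw [mem_ext] at hσ
    have h1 := hσ (fu.eval x, u) (mem_ev.2 ⟨_, hu, rfl, rfl⟩)
    have h2 := hσ (fv.eval x, v) (mem_ev.2 ⟨_, hv, rfl, rfl⟩)
    simp only at h1 h2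
    rw [hr, (Equiv.symm_apply_eq σ).2 h1.symm, (Equiv.symm_apply_eq σ).2 h2.symm]
  by_cases hrd : ∃ p ∈ Γ, p.1 = r
  · obtain ⟨p, hp, hpr⟩ := hrd
    have H' := H p.2 Γ (by omega) hΓ hD'
    have h4 : (0 : ℝ) ≤ (Γ.card : ℝ) / Fintype.card L := by positivity
    refine (H'.congr ?_).mono (Nat.le_succ _) (by linarith)
    intro x b σ hσ
    have h5 := hsymm x σ hσ
    rw [mem_ext] at hσ
    have h6 := hσ (p.1.eval x, p.2) (mem_ev.2 ⟨_, hp, rfl, rfl⟩)
    simp only at h6
    rw [hpr] at h6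
    simp only [hOf, indB, h5, h6]
  · push Not at hrd
    refine Claim.elem hFL hβ (fun x b σ => indB_nonneg _ _ _) r hrd hD
      (fun l => hOf (K l)) (fun l x b σ => indB_nonneg _ _ _) ?_ ?_
    · intro x b l σ hσ
      rw [mem_ext_insert] at hσ
      have h5 := hsymm x σ hσ.2
      have h6 := hσ.1
      simp only at h6
      simp only [hOf, indB, h5, h6]
    · intro l hl
      refine H l _ (card_insert_le _ _) (hΓ.ins hrd hl) ?_
      intro p hp
      rcases mem_insert.1 hp with rfl | hp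
      · exact hD
      · exact hD' p hp

open scoped Classical in
/-- one operation -/
theorem Claim.op {R : ℕ} (hFL : Fintype.card F = Fintype.card L)
    {Γ : Finset (F[X] × L)} {β : ℝ} (hβ : 0 ≤ β) (hΓ : LGood Γ) (c₀ c₁ c₂ : F)
    (hD : ∀ p ∈ Γ, p.1.natDegree ≤ 1) (u v : L) (K : L → (F ≃ L) → Bool)
    (H : ∀ l : L, ∀ Γ' : Finset (F[X] × L), Γ'.card ≤ Γ.card + 3 → LGood Γ' →
      (∀ p ∈ Γ', p.1.natDegree ≤ 1) → Claim R (hOf (K l)) Γ' β) :
    Claim (R + 3) (hOf fun σ => K (σ (c₀ + c₁ * σ.symm u + c₂ * σ.symm v)) σ) Γ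
      (β + (3 * Γ.card + 3) / Fintype.card L) := by
  have hpos : (0 : ℝ) < Fintype.card L := by rw [← hFL]; exact_mod_cast Fintype.card_pos
  set op : (F ≃ L) → Bool := fun σ => K (σ (c₀ + c₁ * σ.symm u + c₂ * σ.symm v)) σ with hop
  -- both known
  have c1 : ∀ Γ₁ : Finset (F[X] × L), Γ₁.card ≤ Γ.card + 2 → LGood Γ₁ →
      (∀ p ∈ Γ₁, p.1.natDegree ≤ 1) →
      (∃ p ∈ Γ₁, p.2 = u) → (∃ p ∈ Γ₁, p.2 = v) →
      Claim (R + 1) (hOf op) Γ₁ (β + (Γ.card + 2) / Fintype.card L) := by
    rintro Γ₁ hc hg hd ⟨⟨fu, u'⟩, hfu, rfl⟩ ⟨⟨fv, v'⟩, hfv, rfl⟩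
    have h1 := Claim.op_known (R := R) hFL hβ hg c₀ c₁ c₂ u' v' K hfu hfv hd
      (fun l Γ' h2 h3 h4 => H l Γ' (by omega) h3 h4)
    have h2 : (Γ₁.card : ℝ) ≤ Γ.card + 2 := by exact_mod_cast hc
    refine h1.mono le_rfl ?_
    have : (Γ₁.card : ℝ) / Fintype.card L ≤ (Γ.card + 2) / Fintype.card L :=
      div_le_div_of_nonneg_right h2 hpos.le
    linarith
  -- u known
  have c2 : ∀ Γ₁ : Finset (F[X] × L), Γ₁.card ≤ Γ.card + 1 → LGood Γ₁ →
      (∀ p ∈ Γ₁, p.1.natDegree ≤ 1) → (∃ p ∈ Γ₁, p.2 = u) →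
      Claim (R + 2) (hOf op) Γ₁ (β + (2 * Γ.card + 3) / Fintype.card L) := by
    intro Γ₁ hc hg hd hku
    have h2 : (Γ₁.card : ℝ) ≤ Γ.card + 1 := by exact_mod_cast hc
    by_cases hkv : ∃ p ∈ Γ₁, p.2 = v
    · refine (c1 Γ₁ (by omega) hg hd hku hkv).mono (by omega) ?_
      have : ((Γ.card : ℝ) + 2) / Fintype.card L ≤ (2 * Γ.card + 3) / Fintype.card L :=
        div_le_div_of_nonneg_right (by have : (0 : ℝ) ≤ Γ.card := Nat.cast_nonneg _; linarith)
          hpos.le
      linarith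
    · push Not at hkv
      have h3 := Claim.label (R := R + 1) hFL (Γ := Γ₁)
        (by positivity : (0 : ℝ) ≤ β + (Γ.card + 2) / Fintype.card L)
        (h := hOf op) (fun x b σ => indB_nonneg _ _ _) v hkv (fun g hgC => c1 _ ?_ ?_ ?_ ?_ ?_)
      · refine h3.mono le_rfl ?_
        have : (Γ₁.card : ℝ) / Fintype.card L ≤ (Γ.card + 1) / Fintype.card L :=
          div_le_div_of_nonneg_right h2 hpos.le
        have h5 : ((Γ.card : ℝ) + 2) / Fintype.card L + (Γ.card + 1) / Fintype.card L =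
            (2 * Γ.card + 3) / Fintype.card L := by
          rw [← add_div]; congr 1; ring
        linarith
      · exact (card_insert_le _ _).trans (by omega)
      · exact hg.ins hgC hkv
      · intro p hp
        rw [mem_insert] at hp
        rcases hp with rfl | hp
        · simp
        · exact hd p hp
      · obtain ⟨p, hp, he⟩ := hku
        exact ⟨p, mem_insert_of_mem hp, he⟩
      · exact ⟨_, mem_insert_self _ _, rfl⟩
  by_cases hku : ∃ p ∈ Γ, p.2 = u
  · refine (c2 Γ (by omega) hΓ hD hku).mono (by omega) ?_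
    have : (2 * (Γ.card : ℝ) + 3) / Fintype.card L ≤ (3 * Γ.card + 3) / Fintype.card L :=
      div_le_div_of_nonneg_right (by have : (0 : ℝ) ≤ Γ.card := Nat.cast_nonneg _; linarith)
        hpos.le
    linarith
  · push Not at hku
    have h3 := Claim.label (R := R + 2) hFL (Γ := Γ)
      (by positivity : (0 : ℝ) ≤ β + (2 * Γ.card + 3) / Fintype.card L)
      (h := hOf op) (fun x b σ => indB_nonneg _ _ _) u hku (fun g hgC => c2 _ ?_ ?_ ?_ ?_)
    · refine h3.mono le_rfl ?_
      have h5 : (2 * (Γ.card : ℝ) + 3) / Fintype.card L + Γ.card / Fintype.card L =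
          (3 * Γ.card + 3) / Fintype.card L := by
        rw [← add_div]; congr 1; ring
      linarith
    · exact card_insert_le _ _
    · exact hΓ.ins hgC hku
    · intro p hp
      rw [mem_insert] at hp
      rcases hp with rfl | hp
      · simp
      · exact hD p hp
    · exact ⟨_, mem_insert_self _ _, rfl⟩

theorem Claim.prog (hFL : Fintype.card F = Fintype.card L) {t : ℕ}
    {p : Prog F L} (hp : p.Cost t) : ∀ (Γ : Finset (F[X] × L)), LGood Γ →
    (∀ q ∈ Γ, q.1.natDegree ≤ 1) →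
    Claim (3 * t) (hOf fun σ => p.run σ) Γ (3 * t * (Γ.card + 3 * t) / Fintype.card L) := by
  classical
  have hpos : (0 : ℝ) < Fintype.card L := by rw [← hFL]; exact_mod_cast Fintype.card_pos
  induction hp with
  | answer t b =>
    intro Γ hΓ _
    exact (Claim.const hFL Γ hΓ b).mono (Nat.zero_le _) (by positivity)
  | lin t c₀ c₁ c₂ u v k _ ih =>
    intro Γ hΓ hD
    have hc : (0 : ℝ) ≤ Γ.card := Nat.cast_nonneg _
    have hT : (0 : ℝ) ≤ t := Nat.cast_nonneg _
    have key := Claim.op (R := 3 * t) hFL (Γ := Γ)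
      (β := 3 * t * (Γ.card + 3 + 3 * t) / Fintype.card L) (by positivity) hΓ
      c₀ c₁ c₂ hD u v (fun l σ => (k l).run σ) ?_
    · refine key.mono (by omega) ?_
      rw [← add_div]
      refine div_le_div_of_nonneg_right ?_ hpos.le
      push_cast
      nlinarith
    · intro l Γ' hc' hg' hd'
      have h2 : (Γ'.card : ℝ) ≤ Γ.card + 3 := by exact_mod_cast hc'
      refine (ih l Γ' hg' hd').mono le_rfl ?_
      refine div_le_div_of_nonneg_right ?_ hpos.le
      exact mul_le_mul_of_nonneg_left (by linarith) (by positivity)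

section Block

variable {ι : Type} [Fintype ι] [DecidableEq ι]

omit [DecidableEq L] in
theorem card_fresh (E : Finset (ι → L)) (x : ι)
    (hE : ∀ f ∈ E, ∀ f' ∈ E, (∀ y, y ≠ x → f y = f' y) → f = f') :
    #E * Fintype.card L ≤ Fintype.card L ^ Fintype.card ι := by
  classical
  have h1 : #(E ×ˢ (Finset.univ : Finset L)) ≤ #(Finset.univ : Finset (ι → L)) := by
    refine Finset.card_le_card_of_injOn (fun p => Function.update p.1 x p.2) ?_ ?_
    · intro p _; exact Finset.mem_univ _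
    · intro p hp p' hp' heq
      rw [Finset.mem_coe, Finset.mem_product] at hp hp'
      have hf : p.1 = p'.1 := by
        refine hE _ hp.1 _ hp'.1 fun y hy => ?_
        have := congrFun heq y
        simpa [Function.update_of_ne hy] using this
      have hx := congrFun heq x
      simp only [Function.update_self] at hx
      exact Prod.ext hf hx
  rw [Finset.card_product, Finset.card_univ, Finset.card_univ, Fintype.card_fun] at h1
  exact h1

open scoped Classical in
theorem card_bad_labels (A : Finset L) :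
    #{β : ι → L | ¬ (Function.Injective β ∧ ∀ j, β j ∉ A)} * Fintype.card L ≤
      (Fintype.card ι * #A + Fintype.card ι ^ 2) * Fintype.card L ^ Fintype.card ι := by
  set E1 : ι × L → Finset (ι → L) := fun q => univ.filter fun β => β q.1 = q.2 with hE1
  set E2 : ι × ι → Finset (ι → L) := fun q => univ.filter fun β => q.1 ≠ q.2 ∧ β q.1 = β q.2
    with hE2
  have h1 : ∀ q, #(E1 q) * Fintype.card L ≤ Fintype.card L ^ Fintype.card ι := by
    intro q
    refine card_fresh _ q.1 fun f hf f' hf' h => ?_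
    simp only [hE1, mem_filter, mem_univ, true_and] at hf hf'
    funext y
    by_cases hy : y = q.1
    · rw [hy, hf, hf']
    · exact h y hy
  have h2 : ∀ q, #(E2 q) * Fintype.card L ≤ Fintype.card L ^ Fintype.card ι := by
    intro q
    refine card_fresh _ q.1 fun f hf f' hf' h => ?_
    simp only [hE2, mem_filter, mem_univ, true_and] at hf hf'
    funext y
    by_cases hy : y = q.1
    · rw [hy, hf.2, hf'.2, h q.2 (Ne.symm hf.1)]
    · exact h y hy
  have hsub : (univ.filter fun β : ι → L => ¬ (Function.Injective β ∧ ∀ j, β j ∉ A)) ⊆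
      ((univ : Finset ι) ×ˢ A).biUnion E1 ∪ (univ : Finset (ι × ι)).biUnion E2 := by
    intro β hβ
    rw [mem_filter] at hβ
    rw [mem_union, mem_biUnion, mem_biUnion]
    by_contra hcon
    rw [not_or] at hcon
    obtain ⟨c1, c2⟩ := hcon
    refine hβ.2 ⟨?_, ?_⟩
    · intro i j hij
      by_contra hne
      exact c2 ⟨(i, j), mem_univ _, by simp only [hE2, mem_filter, mem_univ, true_and]; exact ⟨hne, hij⟩⟩
    · intro j hj
      exact c1 ⟨(j, β j), mem_product.2 ⟨mem_univ _, hj⟩, by simp [hE1]⟩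
  calc _ ≤ #(((univ : Finset ι) ×ˢ A).biUnion E1 ∪ (univ : Finset (ι × ι)).biUnion E2) *
        Fintype.card L := Nat.mul_le_mul_right _ (card_le_card hsub)
    _ ≤ (∑ q ∈ (univ : Finset ι) ×ˢ A, #(E1 q) + ∑ q : ι × ι, #(E2 q)) * Fintype.card L :=
        Nat.mul_le_mul_right _ ((card_union_le _ _).trans (add_le_add card_biUnion_le
          card_biUnion_le))
    _ = ∑ q ∈ (univ : Finset ι) ×ˢ A, #(E1 q) * Fintype.card L +
        ∑ q : ι × ι, #(E2 q) * Fintype.card L := by rw [add_mul, sum_mul, sum_mul]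
    _ ≤ ∑ _q ∈ (univ : Finset ι) ×ˢ A, Fintype.card L ^ Fintype.card ι +
        ∑ _q : ι × ι, Fintype.card L ^ Fintype.card ι :=
        add_le_add (sum_le_sum fun q _ => h1 q) (sum_le_sum fun q _ => h2 q)
    _ = _ := by
        rw [sum_const, sum_const, card_product, card_univ, card_univ, Fintype.card_prod]
        simp only [smul_eq_mul]
        ring

open scoped Classical in
/-- the state after the block -/
noncomputable def stB (π₀ : Finset (F × L)) (fp : ι → F[X]) (β : ι → L) : Finset (F[X] × L) :=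
  (π₀.image fun p => (C p.1, p.2)) ∪ univ.image fun j => (fp j, β j)

open scoped Classical in
theorem ev_stB (π₀ : Finset (F × L)) (fp : ι → F[X]) (β : ι → L) (x : F) :
    ev (stB π₀ fp β) x = π₀ ∪ blk (fun j => (fp j).eval x) β := by
  ext p
  rw [mem_ev, mem_union, mem_blk]
  unfold stB
  constructor
  · rintro ⟨q, hq, h1, h2⟩
    rw [mem_union, mem_image, mem_image] at hq
    rcases hq with ⟨p', hp', rfl⟩ | ⟨j, -, rfl⟩
    · left
      simp only [eval_C] at h1 h2
      have : p' = p := Prod.ext h1 h2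
      rwa [← this]
    · right
      exact ⟨j, h1, h2⟩
  · rintro (hp | ⟨j, h1, h2⟩)
    · exact ⟨(C p.1, p.2), mem_union_left _ (mem_image.2 ⟨p, hp, rfl⟩), by simp, rfl⟩
    · exact ⟨(fp j, β j), mem_union_right _ (mem_image.2 ⟨j, mem_univ _, rfl⟩), h1, h2⟩

theorem card_stB (π₀ : Finset (F × L)) (fp : ι → F[X]) (hnc : ∀ j y, fp j ≠ C y)
    (hinj : Function.Injective fp) (β : ι → L) :
    (stB π₀ fp β).card = π₀.card + Fintype.card ι := by
  classical
  unfold stB
  rw [card_union_of_disjoint]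
  · congr 1
    · refine card_image_of_injective _ ?_
      intro p q h
      simp only [Prod.mk.injEq, C_inj] at h
      exact Prod.ext h.1 h.2
    · rw [card_image_of_injective, card_univ]
      intro i j h
      simp only [Prod.mk.injEq] at h
      exact hinj h.1
  · rw [disjoint_left]
    intro p hp hp'
    rw [mem_image] at hp hp'
    obtain ⟨q, _, rfl⟩ := hp
    obtain ⟨j, _, h⟩ := hp'
    simp only [Prod.mk.injEq] at h
    exact hnc j _ h.1

theorem good_stB {π₀ : Finset (F × L)} (hπ : IsPB π₀) (fp : ι → F[X]) (β : ι → L) (x : F)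
    (h1 : ∀ j, (fp j).eval x ∉ π₀.image Prod.fst)
    (h2 : Function.Injective fun j => (fp j).eval x)
    (h3 : Function.Injective β) (h4 : ∀ j, β j ∉ π₀.image Prod.snd) :
    Good (stB π₀ fp β) x := by
  classical
  have key : ∀ p ∈ stB π₀ fp β, (∃ q ∈ π₀, p = (C q.1, q.2)) ∨ ∃ j, p = (fp j, β j) := by
    intro p hp
    unfold stB at hp
    rw [mem_union, mem_image, mem_image] at hp
    rcases hp with ⟨q, hq, rfl⟩ | ⟨j, -, rfl⟩
    · exact Or.inl ⟨q, hq, rfl⟩
    · exact Or.inr ⟨j, rfl⟩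
  intro p hp q hq hpq
  rcases key p hp with ⟨p', hp', rfl⟩ | ⟨i, rfl⟩ <;> rcases key q hq with ⟨q', hq', rfl⟩ | ⟨j, rfl⟩
  · simp only [eval_C]
    refine hπ p' hp' q' hq' ?_
    rintro rfl
    exact hpq rfl
  · simp only [eval_C]
    refine ⟨fun h => h1 j (mem_image.2 ⟨p', hp', h⟩), fun h => h4 j (mem_image.2 ⟨p', hp', h⟩)⟩
  · simp only [eval_C]
    refine ⟨fun h => h1 i (mem_image.2 ⟨q', hq', h.symm⟩),
      fun h => h4 i (mem_image.2 ⟨q', hq', h.symm⟩)⟩
  · have hij : i ≠ j := by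
      rintro rfl
      exact hpq rfl
    exact ⟨fun h => hij (h2 h), fun h => hij (h3 h)⟩

theorem lgood_stB {π₀ : Finset (F × L)} (hπ : IsPB π₀) (fp : ι → F[X])
    (hnc : ∀ j y, fp j ≠ C y) (hinj : Function.Injective fp) (β : ι → L)
    (h3 : Function.Injective β) (h4 : ∀ j, β j ∉ π₀.image Prod.snd) :
    LGood (stB π₀ fp β) := by
  classical
  have key : ∀ p ∈ stB π₀ fp β, (∃ q ∈ π₀, p = (C q.1, q.2)) ∨ ∃ j, p = (fp j, β j) := by
    intro p hp
    unfold stB at hp
    rw [mem_union, mem_image, mem_image] at hp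
    rcases hp with ⟨q, hq, rfl⟩ | ⟨j, -, rfl⟩
    · exact Or.inl ⟨q, hq, rfl⟩
    · exact Or.inr ⟨j, rfl⟩
  intro p hp q hq hpq
  rcases key p hp with ⟨p', hp', rfl⟩ | ⟨i, rfl⟩ <;> rcases key q hq with ⟨q', hq', rfl⟩ | ⟨j, rfl⟩
  · have h5 := hπ p' hp' q' hq' (by rintro rfl; exact hpq rfl)
    exact ⟨fun h => h5.1 (C_inj.1 h), h5.2⟩
  · refine ⟨fun h => hnc j _ h.symm, fun h => h4 j (mem_image.2 ⟨p', hp', h⟩)⟩
  · refine ⟨fun h => hnc i _ h, fun h => h4 i (mem_image.2 ⟨q', hq', h.symm⟩)⟩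
  · have hij : i ≠ j := by
      rintro rfl
      exact hpq rfl
    exact ⟨fun h => hij (hinj h), fun h => hij (h3 h)⟩

/-- **The whole query.** -/
theorem query_formal (hFL : Fintype.card F = Fintype.card L) (π₀ : Finset (F × L))
    (hπ : IsPB π₀) (fp : ι → F[X]) (hdeg : ∀ j, (fp j).natDegree ≤ 1)
    (hnc : ∀ j y, fp j ≠ C y) (hinj : Function.Injective fp) (Q : (ι → L) → Prog F L) (t : ℕ)
    (hQ : ∀ β, (Q β).Cost t) :
    ∃ q : Bool → ℝ, (∀ b, 0 ≤ q b) ∧
      1 - ((3 * t * (π₀.card + Fintype.card ι + 3 * t) +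
          (Fintype.card ι * π₀.card + Fintype.card ι ^ 2)) / Fintype.card L : ℝ) ≤
        q true + q false ∧
      ∀ b, ∀ (Y : Finset F) (B : ℕ), (∀ β, LossB Y B (3 * t) (stB π₀ fp β)) →
      ((#Y : ℝ) - B) * q b ≤
      ∑ x ∈ Y, wt (indB (fun σ => (Q (fun j => σ ((fp j).eval x))).run σ) b) π₀ /
        ((Fintype.card L - π₀.card).factorial : ℝ) := by
  classical
  have hpos : (0 : ℝ) < Fintype.card L := by rw [← hFL]; exact_mod_cast Fintype.card_pos
  have hposN : 0 < Fintype.card L := by rw [← hFL]; exact Fintype.card_pos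
  have hLne : Nonempty L := Fintype.card_pos_iff.1 hposN
  have hι : 0 < Fintype.card (ι → L) := Fintype.card_pos
  set A : Finset (ι → L) := univ.filter fun β : ι → L =>
    Function.Injective β ∧ ∀ j, β j ∉ π₀.image Prod.snd with hA
  have hAmem : ∀ β, β ∈ A ↔ Function.Injective β ∧ ∀ j, β j ∉ π₀.image Prod.snd := by
    intro β; rw [hA, mem_filter]; simp
  set β₁ : ℝ := 3 * t * (π₀.card + Fintype.card ι + 3 * t) / Fintype.card L with hβ₁
  set β₂ : ℝ := (Fintype.card ι * π₀.card + Fintype.card ι ^ 2) / Fintype.card L with hβ₂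
  have hβ₁0 : 0 ≤ β₁ := by positivity
  have H : ∀ β ∈ A, Claim (3 * t) (hOf fun σ => (Q β).run σ) (stB π₀ fp β) β₁ := by
    intro β hβ
    rw [hAmem] at hβ
    have := Claim.prog hFL (hQ β) (stB π₀ fp β) (lgood_stB hπ fp hnc hinj β hβ.1 hβ.2) ?_
    · rw [card_stB π₀ fp hnc hinj β] at this
      refine this.mono le_rfl (le_of_eq ?_)
      rw [hβ₁]; push_cast; ring
    · intro p hp
      unfold stB at hp
      rw [mem_union, mem_image, mem_image] at hp
      rcases hp with ⟨q, _, rfl⟩ | ⟨j, -, rfl⟩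
      · simp
      · exact hdeg j
  have H' : ∀ β : ι → L, ∃ q : Bool → ℝ, β ∈ A → (∀ b, 0 ≤ q b) ∧
      1 - β₁ ≤ q true + q false ∧ ∀ b, ∀ (Y : Finset F) (B : ℕ),
        LossB Y B (3 * t) (stB π₀ fp β) → ((#Y : ℝ) - B) * q b ≤
          ∑ x ∈ Y with Good (stB π₀ fp β) x, val (hOf fun σ => (Q β).run σ) (stB π₀ fp β) x b := by
    intro β
    by_cases hβA : β ∈ A
    · obtain ⟨q, hq⟩ := H β hβA
      refine ⟨q, fun _ => ⟨hq.1, hq.2.1, fun b Y B hL => ?_⟩⟩
      convert hq.2.2 b Y B hL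
    · exact ⟨fun _ => 0, fun h => absurd h hβA⟩
  choose q hq using H'
  set N : ℝ := (Fintype.card (ι → L) : ℝ) with hN
  have hNpos : (0 : ℝ) < N := by rw [hN]; exact_mod_cast hι
  have hAle : (#A : ℝ) ≤ N := by rw [hN]; exact_mod_cast card_le_univ A
  have hAge : N * (1 - β₂) ≤ #A := by
    have h1 := card_bad_labels (ι := ι) (π₀.image Prod.snd)
    have h2 := card_filter_add_card_filter_not (s := (univ : Finset (ι → L)))
      (fun β : ι → L => Function.Injective β ∧ ∀ j, β j ∉ π₀.image Prod.snd)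
    rw [card_univ, ← hA] at h2
    have h3 : #(π₀.image Prod.snd) ≤ π₀.card := card_image_le
    have h4 : #{β : ι → L | ¬ (Function.Injective β ∧ ∀ j, β j ∉ π₀.image Prod.snd)} *
        Fintype.card L ≤
        (Fintype.card ι * π₀.card + Fintype.card ι ^ 2) * Fintype.card L ^ Fintype.card ι :=
      h1.trans (Nat.mul_le_mul_right _ (Nat.add_le_add_right (Nat.mul_le_mul_left _ h3) _))
    have h5 : ((#{β : ι → L | ¬ (Function.Injective β ∧ ∀ j, β j ∉ π₀.image Prod.snd)} : ℕ) :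
        ℝ) ≤ N * β₂ := by
      rw [hβ₂, hN, Fintype.card_fun, ← mul_div_assoc, le_div_iff₀ hpos]
      have : ((#{β : ι → L | ¬ (Function.Injective β ∧ ∀ j, β j ∉ π₀.image Prod.snd)} : ℕ) : ℝ) *
          Fintype.card L ≤ ((Fintype.card ι * π₀.card + Fintype.card ι ^ 2) *
            Fintype.card L ^ Fintype.card ι : ℕ) := by exact_mod_cast h4
      push_cast at this ⊢
      linarith
    have h6 : (#A : ℝ) +
        ((#{β : ι → L | ¬ (Function.Injective β ∧ ∀ j, β j ∉ π₀.image Prod.snd)} : ℕ) : ℝ) = N := by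
      rw [hN]; exact_mod_cast h2
    linarith
  refine ⟨fun b => (∑ β ∈ A, q β b) / N, fun b => ?_, ?_, ?_⟩
  · exact div_nonneg (sum_nonneg fun i hi' => (hq i hi').1 b) hNpos.le
  · rw [← add_div, ← sum_add_distrib, le_div_iff₀ hNpos]
    have h3 : ∑ _β ∈ A, (1 - β₁) ≤ ∑ β ∈ A, (q β true + q β false) :=
      sum_le_sum fun i hi' => (hq i hi').2.1
    rw [sum_const, nsmul_eq_mul] at h3
    have h4 : ((3 * t * (π₀.card + Fintype.card ι + 3 * t) +
          (Fintype.card ι * π₀.card + Fintype.card ι ^ 2)) / Fintype.card L : ℝ) = β₁ + β₂ := by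
      rw [hβ₁, hβ₂, add_div]
    rw [h4]
    nlinarith
  · intro b Y B hL
    have hlift : ∀ x, Good (π₀.image fun p => ((C p.1 : F[X]), p.2)) x := by
      intro x p hp q' hq' hpq
      rw [mem_image] at hp hq'
      obtain ⟨p', hp', rfl⟩ := hp
      obtain ⟨q'', hq'', rfl⟩ := hq'
      simp only [eval_C]
      refine hπ p' hp' q'' hq'' ?_
      rintro rfl
      exact hpq rfl
    have hvalr : ∀ x, wt (indB (fun σ => (Q (fun j => σ ((fp j).eval x))).run σ) b) π₀ /
        ((Fintype.card L - π₀.card).factorial : ℝ) =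
        val (fun x b σ => indB (fun σ => (Q (fun j => σ ((fp j).eval x))).run σ) b σ)
          (π₀.image fun p => (C p.1, p.2)) x b := by
      intro x
      unfold val
      have e1 : ev (π₀.image fun p => (C p.1, p.2)) x = π₀ := by
        ext p
        rw [mem_ev]
        constructor
        · rintro ⟨q, hq, h1, h2⟩
          rw [mem_image] at hq
          obtain ⟨p', hp', rfl⟩ := hq
          simp only [eval_C] at h1 h2
          have : p' = p := Prod.ext h1 h2
          rwa [← this]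
        · intro hp
          exact ⟨(C p.1, p.2), mem_image.2 ⟨p, hp, rfl⟩, by simp, rfl⟩
      have e2 : (π₀.image fun p => ((C p.1 : F[X]), p.2)).card = π₀.card := by
        refine card_image_of_injective _ ?_
        intro p q h
        simp only [Prod.mk.injEq, C_inj] at h
        exact Prod.ext h.1 h.2
      rw [e1, e2]
    have key := avg_core hι A
      (h := fun x b σ => indB (fun σ => (Q (fun j => σ ((fp j).eval x))).run σ) b σ)
      (Γ := π₀.image fun p => (C p.1, p.2)) (fun β => stB π₀ fp β)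
      (fun β => hOf fun σ => (Q β).run σ) q Y B b
      (fun β hβ => (hq β hβ).2.2 b Y B (hL β)) (fun β _ x _ => hlift x) ?_
    · simp only [hvalr]
      refine key.trans (le_of_eq ?_)
      rw [filter_true_of_mem fun x _ => hlift x]
    · intro x _ _ s _ hs
      rw [← hvalr, sum_div, wt_block _ π₀ (fun j => (fp j).eval x), sum_div]
      refine (sum_le_sum fun β hβ => ?_).trans (sum_le_sum_of_subset_of_nonneg (subset_univ s)
        fun β _ _ => div_nonneg (wt_nonneg (fun σ => indB_nonneg _ _ _) _) (Nat.cast_nonneg _))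
      have hg := hs β hβ
      have hle : π₀.card + Fintype.card ι ≤ Fintype.card L := by
        rw [← card_stB π₀ fp hnc hinj β, ← hg.card]
        exact hg.isPB.card_le
      have hw : wt (indB (fun σ => (Q (fun j => σ ((fp j).eval x))).run σ) b)
          (π₀ ∪ blk (fun j => (fp j).eval x) β) =
          wt (hOf (fun σ => (Q β).run σ) x b) (π₀ ∪ blk (fun j => (fp j).eval x) β) := by
        refine wt_congr fun σ hσ => ?_
        rw [mem_ext_blk] at hσ
        have : (fun j => σ ((fp j).eval x)) = β := funext hσ.2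
        simp only [hOf, indB, this]
      rw [hw]
      unfold val
      rw [ev_stB, card_stB π₀ fp hnc hinj β, Fintype.card_fun, div_div]
      refine div_le_div_of_nonneg_left (wt_nonneg (fun σ => indB_nonneg _ _ _) _) ?_ ?_
      · exact_mod_cast Nat.factorial_pos _
      · have e3 : (Fintype.card L - π₀.card).factorial ≤
            (Fintype.card L - (π₀.card + Fintype.card ι)).factorial *
              Fintype.card L ^ Fintype.card ι := by
          have h6 := Nat.factorial_mul_descFactorial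
            (show Fintype.card ι ≤ Fintype.card L - π₀.card by omega)
          have h7 : Fintype.card L - π₀.card - Fintype.card ι =
              Fintype.card L - (π₀.card + Fintype.card ι) := by omega
          rw [h7] at h6
          rw [← h6]
          refine Nat.mul_le_mul_left _ ((Nat.descFactorial_le_pow _ _).trans ?_)
          exact Nat.pow_le_pow_left (Nat.sub_le _ _) _
        exact_mod_cast e3

end Block

end Pool.Agent.GGA
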