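import Mathlib
import Pool.Agent.GGX.Sel
import Pool.Agent.GGA.Form

/-!
The number of elements lost in the formal run.
-/

namespace Pool.Agent.GGA

open Finset Polynomial Pool.Agent.GGX

section Str

variable {F L : Type} [Fintype F] [DecidableEq F] [Fintype L] [DecidableEq L]
variable {ι : Type} [Fintype ι] [DecidableEq ι]

/-- structure of the positions of a reachable set -/
theorem Reach.str {W : Finset F} {ps : F → ι → F} {πc : Finset (F × L)} {k : ℕ}
    {π : Finset (F × L)} (h : Reach W ps πc k π) :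
    (∃ D W₀ : Finset F, W₀ ⊆ W ∧ #D + #W₀ ≤ k ∧
      (∀ y ∈ π.image Prod.fst, y ∈ πc.image Prod.fst ∨ y ∈ D ∨ ∃ w ∈ W₀, ∃ j, y = ps w j) ∧
      (∀ w ∈ W₀, ∀ j, ps w j ∈ π.image Prod.fst)) ∧
    #π ≤ #πc + k * (Fintype.card ι + 1) ∧ πc ⊆ π := by
  induction h with
  | base => exact ⟨⟨∅, ∅, by simp, by simp, fun y hy => Or.inl hy, by simp⟩, by simp, subset_rfl⟩
  | single s π p _ ih =>
    obtain ⟨⟨D, W₀, h1, h2, h3, h4⟩, h5, h6⟩ := ih
    refine ⟨⟨insert p.1 D, W₀, h1, ?_, ?_, ?_⟩, ?_, h6.trans (subset_insert _ _)⟩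
    · have := card_insert_le p.1 D
      omega
    · intro y hy
      rw [image_insert, mem_insert] at hy
      rcases hy with rfl | hy
      · exact Or.inr (Or.inl (mem_insert_self _ _))
      · rcases h3 y hy with h | h | h
        · exact Or.inl h
        · exact Or.inr (Or.inl (mem_insert_of_mem h))
        · exact Or.inr (Or.inr h)
    · intro w hw j
      rw [image_insert]
      exact mem_insert_of_mem (h4 w hw j)
    · refine (card_insert_le _ _).trans ?_
      rw [add_mul]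
      omega
  | block s π w hw β _ ih =>
    obtain ⟨⟨D, W₀, h1, h2, h3, h4⟩, h5, h6⟩ := ih
    refine ⟨⟨D, insert w W₀, ?_, ?_, ?_, ?_⟩, ?_, h6.trans subset_union_left⟩
    · intro x hx
      rcases mem_insert.1 hx with rfl | hx
      · exact hw
      · exact h1 hx
    · have := card_insert_le w W₀
      omega
    · intro y hy
      rw [image_union, mem_union] at hy
      rcases hy with hy | hy
      · rcases h3 y hy with h | h | ⟨w', hw', j, h⟩
        · exact Or.inl h
        · exact Or.inr (Or.inl h)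
        · exact Or.inr (Or.inr ⟨w', mem_insert_of_mem hw', j, h⟩)
      · obtain ⟨p, hp, rfl⟩ := mem_image.1 hy
        obtain ⟨j, hj, -⟩ := mem_blk.1 hp
        exact Or.inr (Or.inr ⟨w, mem_insert_self _ _, j, hj.symm⟩)
    · intro w' hw' j
      rw [image_union, mem_union]
      rcases mem_insert.1 hw' with rfl | hw'
      · right
        exact mem_image.2 ⟨(ps w' j, β j), mem_blk.2 ⟨j, rfl, rfl⟩, rfl⟩
      · left
        exact h4 w' hw' j
    · refine (card_union_le _ _).trans ?_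
      have : #(blk (ps w) β) ≤ Fintype.card ι := by
        unfold blk
        refine card_image_le.trans ?_
        rw [card_univ]
      rw [add_mul]
      omega

end Str

section Forms

variable {F L : Type} [Field F] [Fintype F] [DecidableEq F] [Fintype L] [DecidableEq L]
variable {ι : Type} [Fintype ι] [DecidableEq ι]

/-- the pair of coefficients of a form -/
noncomputable def cf (p : F[X]) : F × F := (p.coeff 1, p.coeff 0)

omit [Fintype F] [DecidableEq F] in
theorem eval_cf {p : F[X]} (hp : p.natDegree ≤ 1) (x : F) : p.eval x = fv (cf p) x := by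
  conv_lhs => rw [eq_X_add_C_of_natDegree_le_one hp]
  simp [cf, fv]

omit [Fintype F] [DecidableEq F] in
theorem cf_inj {p q : F[X]} (hp : p.natDegree ≤ 1) (hq : q.natDegree ≤ 1) (h : cf p = cf q) :
    p = q := by
  rw [eq_X_add_C_of_natDegree_le_one hp, eq_X_add_C_of_natDegree_le_one hq]
  simp only [cf, Prod.mk.injEq] at h
  rw [h.1, h.2]

/-- the polynomial of a form -/
noncomputable def fpol (r : F × F) : F[X] := C r.1 * X + C r.2

omit [Fintype F] [DecidableEq F] in
theorem fpol_deg (r : F × F) : (fpol r).natDegree ≤ 1 := by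
  unfold fpol
  refine (natDegree_add_le _ _).trans (max_le ?_ ?_)
  · exact (natDegree_C_mul_le _ _).trans natDegree_X_le
  · simp

omit [Fintype F] [DecidableEq F] in
theorem cf_fpol (r : F × F) : cf (fpol r) = r := by
  unfold cf fpol
  simp

omit [Fintype F] [DecidableEq F] in
theorem cf_C (y : F) : cf (C y) = (0, y) := by
  unfold cf
  simp [coeff_C]

omit [Fintype F] [DecidableEq F] in
theorem eval_fpol (r : F × F) (x : F) : (fpol r).eval x = fv r x := by
  unfold fpol fv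
  simp

omit [Fintype F] [DecidableEq F] in
theorem fv_inj {c : F × F} (hc : c.1 ≠ 0) {x x' : F} (h : fv c x = fv c x') : x = x' := by
  unfold fv at h
  exact mul_left_cancel₀ hc (add_right_cancel h)

open scoped Classical in
/-- what can go wrong at `x` -/
theorem bad_cases {π₀ : Finset (F × L)} {r : ι → F × F} {β : ι → L} {Λ : Finset (F[X] × L)}
    (hD : ∀ p ∈ Λ, p.1.natDegree ≤ 1)
    (hg : LGood (stB π₀ (fun j => fpol (r j)) β ∪ Λ)) (x : F)
    (hx : ¬ Good (stB π₀ (fun j => fpol (r j)) β ∪ Λ) x) :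
    ∃ c c' : F × F, c ≠ c' ∧ fv c x = fv c' x ∧
      ((c.1 = 0 ∧ c.2 ∈ π₀.image Prod.fst) ∨ (∃ j, c = r j) ∨ c ∈ Λ.image fun p => cf p.1) ∧
      ((c'.1 = 0 ∧ c'.2 ∈ π₀.image Prod.fst) ∨ (∃ j, c' = r j) ∨
        c' ∈ Λ.image fun p => cf p.1) := by
  unfold Good at hx
  push Not at hx
  obtain ⟨p, hp, q, hq, hpq, h⟩ := hx
  have hl := hg p hp q hq hpq
  have he : p.1.eval x = q.1.eval x := by
    by_contra hne
    exact hl.2 (h hne)
  have key : ∀ p ∈ stB π₀ (fun j => fpol (r j)) β ∪ Λ, p.1.natDegree ≤ 1 ∧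
      (((cf p.1).1 = 0 ∧ (cf p.1).2 ∈ π₀.image Prod.fst) ∨ (∃ j, cf p.1 = r j) ∨
        cf p.1 ∈ Λ.image fun p => cf p.1) := by
    intro p hp
    rw [mem_union] at hp
    rcases hp with hp | hp
    · unfold stB at hp
      rw [mem_union, mem_image, mem_image] at hp
      rcases hp with ⟨q, hq, rfl⟩ | ⟨j, -, rfl⟩
      · refine ⟨by simp, Or.inl ?_⟩
        rw [cf_C]
        exact ⟨rfl, mem_image.2 ⟨q, hq, rfl⟩⟩
      · exact ⟨fpol_deg _, Or.inr (Or.inl ⟨j, cf_fpol _⟩)⟩
    · exact ⟨hD p hp, Or.inr (Or.inr (mem_image.2 ⟨p, hp, rfl⟩))⟩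
  obtain ⟨dp, kp⟩ := key p hp
  obtain ⟨dq, kq⟩ := key q hq
  refine ⟨cf p.1, cf q.1, fun hc => hl.1 (cf_inj dp dq hc), ?_, kp, kq⟩
  rw [← eval_cf dp, ← eval_cf dq, he]

/-- the set of `x` with a given coincidence of a non-constant form -/
theorem card_coinc (c c' : F × F) (hne : c ≠ c') (Y : Finset F) :
    #{x ∈ Y | fv c x = fv c' x} ≤ 1 := by
  rw [card_le_one]
  intro x hx x' hx'
  rw [mem_filter] at hx hx'
  have h1 := hx.2
  have h2 := hx'.2
  unfold fv at h1 h2
  have h3 : (c.1 - c'.1) * (x - x') = 0 := by linear_combination h1 - h2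
  rcases mul_eq_zero.1 h3 with h | h
  · exfalso
    have h4 : c.1 = c'.1 := sub_eq_zero.1 h
    rw [h4] at h1
    exact hne (Prod.ext h4 (add_left_cancel h1))
  · exact sub_eq_zero.1 h


open scoped Classical in
/-- loss on the sums -/
theorem loss_X {r : ι → F × F} (hr : ∀ j, (r j).1 ≠ 0)
    {X' Xs Z : Finset F} (hX' : X' ⊆ Xs) (hXZ : Disjoint Xs Z) {π₀ : Finset (F × L)}
    (hW1 : ∀ w ∈ Xs ∪ Z, ∀ w' ∈ Xs ∪ Z, w ≠ w' → ∀ i j, fv (r i) w ≠ fv (r j) w')
    (hfresh : ∀ x ∈ X', ∀ j, fv (r j) x ∉ π₀.image Prod.fst)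
    (t h₁ m : ℕ) (Pc D W₀ : Finset F) (hW₀ : W₀ ⊆ Xs ∪ Z) (hm : #Pc + #D ≤ m)
    (hstr : ∀ y ∈ π₀.image Prod.fst, y ∈ Pc ∨ y ∈ D ∨ ∃ w ∈ W₀, ∃ j, y = fv (r j) w)
    (hX : ∀ Q' : Finset (F × F), #Q' ≤ Fintype.card ι + 3 * t →
      ∀ Y ⊆ Xs, (∀ x ∈ Y, ∃ x' ∈ Xs, x' ≠ x ∧ Conf Q' x x') → #Y ≤ h₁)
    (hZ : ∀ c : F × F, c.1 ≠ 0 →
      ∀ Y ⊆ Z, (∀ z ∈ Y, ∃ x ∈ Xs, ∃ j, fv c x = fv (r j) z) → #Y ≤ 2) (β : ι → L) :
    LossB X' (h₁ + (m + 3 * t) + 6 * t * Fintype.card ι + (Fintype.card ι + 3 * t) ^ 2)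
      (3 * t) (stB π₀ (fun j => fpol (r j)) β) := by
  intro Λ hΛ hD hg
  set Φ : Finset (F × F) := Λ.image fun p => cf p.1 with hΦ
  have hΦc : #Φ ≤ 3 * t := card_image_le.trans hΛ
  set Q' : Finset (F × F) := univ.image r ∪ Φ.filter (fun c => c.1 ≠ 0) with hQ'
  have hQ'c : #Q' ≤ Fintype.card ι + 3 * t := by
    refine (card_union_le _ _).trans (add_le_add ?_ ((card_filter_le _ _).trans hΦc))
    refine card_image_le.trans ?_
    rw [card_univ]
  have hQ'0 : ∀ c ∈ Q', c.1 ≠ 0 := by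
    intro c hc
    rcases mem_union.1 hc with hc | hc
    · obtain ⟨j, -, rfl⟩ := mem_image.1 hc
      exact hr j
    · exact (mem_filter.1 hc).2
  set C0 : Finset F := (Φ.filter (fun c => c.1 = 0)).image Prod.snd with hC0
  have hC0c : #C0 ≤ 3 * t := card_image_le.trans ((card_filter_le _ _).trans hΦc)
  set K : Finset F := Xs.filter (fun x => ∃ x' ∈ Xs, x' ≠ x ∧ Conf Q' x x') with hK
  have hKc : #K ≤ h₁ := hX Q' hQ'c K (filter_subset _ _) fun x hx => (mem_filter.1 hx).2
  set Y₀ : Finset F := (Pc ∪ D) ∪ C0 with hY₀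
  have hY₀c : #Y₀ ≤ m + 3 * t := by
    refine (card_union_le _ _).trans (add_le_add ((card_union_le _ _).trans hm) hC0c)
  set T1 : Finset F := (X' \ K).filter (fun x => ∃ c ∈ Q', fv c x ∈ Y₀) with hT1
  have hT1c : #T1 ≤ m + 3 * t := by
    refine le_trans ?_ hY₀c
    let g : F → F := fun x => if h : ∃ c ∈ Q', fv c x ∈ Y₀ then fv (Classical.choose h) x else x
    have hgspec : ∀ x, (∃ c ∈ Q', fv c x ∈ Y₀) → ∃ c ∈ Q', g x = fv c x ∧ g x ∈ Y₀ := by
      intro x h
      have h1 := Classical.choose_spec h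
      refine ⟨Classical.choose h, h1.1, dif_pos h, ?_⟩
      rw [show g x = fv (Classical.choose h) x from dif_pos h]
      exact h1.2
    refine card_le_card_of_injOn g ?_ ?_
    · intro x hx
      rw [mem_coe, hT1, mem_filter] at hx
      obtain ⟨c, -, -, h⟩ := hgspec x hx.2
      exact h
    · intro x hx x' hx' he
      rw [mem_coe, hT1, mem_filter, mem_sdiff] at hx hx'
      by_contra hne
      obtain ⟨c, hc, h1, -⟩ := hgspec x hx.2
      obtain ⟨c', hc', h2, -⟩ := hgspec x' hx'.2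
      refine hx.1.2 (mem_filter.2 ⟨hX' hx.1.1, x', hX' hx'.1.1, fun h => hne h.symm, c, hc, c', hc',
        hQ'0 c hc, hQ'0 c' hc', ?_⟩)
      have : fv c x = fv c' x' := by rw [← h1, ← h2, he]
      exact this
  set T2 : Finset F := (Φ.filter (fun c => c.1 ≠ 0)).biUnion fun c =>
    Xs.filter (fun x => ∃ z ∈ Z, ∃ j, fv c x = fv (r j) z) with hT2
  have hT2c : #T2 ≤ 6 * t * Fintype.card ι := by
    refine card_biUnion_le.trans ?_
    have h1 : ∀ c ∈ Φ.filter (fun c => c.1 ≠ 0),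
        #(Xs.filter (fun x => ∃ z ∈ Z, ∃ j, fv c x = fv (r j) z)) ≤ 2 * Fintype.card ι := by
      intro c hc
      have hc0 := (mem_filter.1 hc).2
      set Zc : Finset F := Z.filter (fun z => ∃ x ∈ Xs, ∃ j, fv c x = fv (r j) z) with hZc
      have hZcc : #Zc ≤ 2 := hZ c hc0 Zc (filter_subset _ _) fun z hz => (mem_filter.1 hz).2
      have h2 : Xs.filter (fun x => ∃ z ∈ Z, ∃ j, fv c x = fv (r j) z) ⊆
          (Zc ×ˢ (univ : Finset ι)).biUnion fun q => Xs.filter fun x => fv c x = fv (r q.2) q.1 := by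
        intro x hx
        obtain ⟨hx1, z, hz, j, h⟩ := mem_filter.1 hx
        refine mem_biUnion.2 ⟨(z, j), mem_product.2 ⟨mem_filter.2 ⟨hz, x, hx1, j, h⟩,
          mem_univ _⟩, mem_filter.2 ⟨hx1, h⟩⟩
      refine (card_le_card h2).trans (card_biUnion_le.trans ?_)
      have h3 : ∀ q ∈ Zc ×ˢ (univ : Finset ι), #(Xs.filter fun x => fv c x = fv (r q.2) q.1) ≤ 1 := by
        intro q _
        rw [card_le_one]
        intro x hx x' hx'
        exact fv_inj hc0 ((mem_filter.1 hx).2.trans (mem_filter.1 hx').2.symm)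
      refine (sum_le_sum h3).trans ?_
      rw [sum_const, smul_eq_mul, mul_one, card_product, card_univ]
      exact Nat.mul_le_mul_right _ hZcc
    refine (sum_le_sum h1).trans ?_
    rw [sum_const, smul_eq_mul]
    calc #(Φ.filter (fun c => c.1 ≠ 0)) * (2 * Fintype.card ι) ≤ 3 * t * (2 * Fintype.card ι) :=
        Nat.mul_le_mul_right _ ((card_filter_le _ _).trans hΦc)
      _ = 6 * t * Fintype.card ι := by ring
  set T3 : Finset F := univ.filter (Self Q') with hT3
  have hT3c : #T3 ≤ (Fintype.card ι + 3 * t) ^ 2 :=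
    (self_card Q').trans (Nat.pow_le_pow_left hQ'c 2)
  have hbad : X'.filter (fun x => ¬ Good (stB π₀ (fun j => fpol (r j)) β ∪ Λ) x) ⊆
      K ∪ T1 ∪ T2 ∪ T3 := by
    intro x hx
    obtain ⟨hx1, hx2⟩ := mem_filter.1 hx
    obtain ⟨c, c', hne, he, kc, kc'⟩ := bad_cases hD hg x hx2
    -- membership in Q'
    have hQmem : ∀ c : F × F, c.1 ≠ 0 → ((c.1 = 0 ∧ c.2 ∈ π₀.image Prod.fst) ∨
        (∃ j, c = r j) ∨ c ∈ Φ) → c ∈ Q' ∧ ((∃ j, c = r j) ∨ c ∈ Φ.filter (fun c => c.1 ≠ 0)) := by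
      intro c hc0 h
      rcases h with h | ⟨j, rfl⟩ | h
      · exact absurd h.1 hc0
      · exact ⟨mem_union_left _ (mem_image.2 ⟨j, mem_univ _, rfl⟩), Or.inl ⟨j, rfl⟩⟩
      · have : c ∈ Φ.filter (fun c => c.1 ≠ 0) := mem_filter.2 ⟨h, hc0⟩
        exact ⟨mem_union_right _ this, Or.inr this⟩
    -- one constant, one not
    have hmix : ∀ c c' : F × F, c.1 ≠ 0 → c'.1 = 0 → fv c x = fv c' x →
        ((c.1 = 0 ∧ c.2 ∈ π₀.image Prod.fst) ∨ (∃ j, c = r j) ∨ c ∈ Φ) →
        ((c'.1 = 0 ∧ c'.2 ∈ π₀.image Prod.fst) ∨ (∃ j, c' = r j) ∨ c' ∈ Φ) →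
        x ∈ K ∪ T1 ∪ T2 ∪ T3 := by
      intro c c' hc0 hc0' he kc kc'
      obtain ⟨hcQ, hcT⟩ := hQmem c hc0 kc
      have hy : fv c x = c'.2 := by rw [he]; unfold fv; rw [hc0']; ring
      have hsmall : fv c x ∈ Y₀ → x ∈ K ∪ T1 ∪ T2 ∪ T3 := by
        intro h
        by_cases hxK : x ∈ K
        · exact mem_union_left _ (mem_union_left _ (mem_union_left _ hxK))
        · exact mem_union_left _ (mem_union_left _ (mem_union_right _
            (mem_filter.2 ⟨mem_sdiff.2 ⟨hx1, hxK⟩, c, hcQ, h⟩)))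
      rcases kc' with h | ⟨j, rfl⟩ | h
      · rcases hstr _ h.2 with h' | h' | ⟨w, hw, i, h'⟩
        · exact hsmall (by rw [hy]; exact mem_union_left _ (mem_union_left _ h'))
        · exact hsmall (by rw [hy]; exact mem_union_left _ (mem_union_right _ h'))
        · have hwx : w ≠ x := by
            rintro rfl
            exact hfresh w hx1 i (by rw [← h']; exact h.2)
          rcases mem_union.1 (hW₀ hw) with hwX | hwZ
          · refine mem_union_left _ (mem_union_left _ (mem_union_left _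
              (mem_filter.2 ⟨hX' hx1, w, hwX, hwx, c, hcQ, r i,
                mem_union_left _ (mem_image.2 ⟨i, mem_univ _, rfl⟩), hc0, hr i, ?_⟩)))
            have : fv c x = fv (r i) w := by rw [hy, h']
            exact this
          · rcases hcT with ⟨j, rfl⟩ | hcT
            · exact absurd (hy.trans h') (hW1 x (mem_union_left _ (hX' hx1)) w
                (mem_union_right _ hwZ) hwx.symm j i)
            · exact mem_union_left _ (mem_union_right _ (mem_biUnion.2 ⟨c, hcT,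
                mem_filter.2 ⟨hX' hx1, w, hwZ, i, hy.trans h'⟩⟩))
      · exact absurd hc0' (hr j)
      · refine hsmall ?_
        rw [hy]
        exact mem_union_right _ (mem_image.2 ⟨c', mem_filter.2 ⟨h, hc0'⟩, rfl⟩)
    by_cases hc0 : c.1 = 0
    · by_cases hc0' : c'.1 = 0
      · exfalso
        unfold fv at he
        rw [hc0, hc0'] at he
        refine hne (Prod.ext (hc0.trans hc0'.symm) ?_)
        linear_combination he
      · exact hmix c' c hc0' hc0 he.symm kc' kc
    · by_cases hc0' : c'.1 = 0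
      · exact hmix c c' hc0 hc0' he kc kc'
      · refine mem_union_right _ (mem_filter.2 ⟨mem_univ _, c, (hQmem c hc0 kc).1, c',
          (hQmem c' hc0' kc').1, ?_, he⟩)
        intro h
        refine hne (Prod.ext h ?_)
        unfold fv at he
        rw [h] at he
        exact add_left_cancel he
  have h1 := card_filter_add_card_filter_not (s := X')
    (fun x => Good (stB π₀ (fun j => fpol (r j)) β ∪ Λ) x)
  have h2 := card_le_card hbad
  have h3 := card_union_le (K ∪ T1 ∪ T2) T3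
  have h4 := card_union_le (K ∪ T1) T2
  have h5 := card_union_le K T1
  omega

open scoped Classical in
/-- loss on the non-sums (trivial counting) -/
theorem loss_Z {r : ι → F × F} (hr : ∀ j, (r j).1 ≠ 0) {Z' : Finset F} {π₀ : Finset (F × L)}
    (hself : ∀ z ∈ Z', ∀ i j, i ≠ j → fv (r i) z ≠ fv (r j) z)
    (hfresh : ∀ z ∈ Z', ∀ j, fv (r j) z ∉ π₀.image Prod.fst) (t : ℕ) (β : ι → L) :
    LossB Z' (3 * t * (#π₀ + 2 * Fintype.card ι + 3 * t))
      (3 * t) (stB π₀ (fun j => fpol (r j)) β) := by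
  intro Λ hΛ hD hg
  set Φ : Finset (F × F) := Λ.image fun p => cf p.1 with hΦ
  have hΦc : #Φ ≤ 3 * t := card_image_le.trans hΛ
  -- all forms
  set A : Finset (F × F) := ((π₀.image Prod.fst).image fun y => ((0 : F), y)) ∪
    (univ.image r ∪ Φ) with hA
  have hAc : #A ≤ #π₀ + Fintype.card ι + 3 * t := by
    have h1 : #A ≤ #((π₀.image Prod.fst).image fun y => ((0 : F), y)) + #(univ.image r ∪ Φ) :=
      card_union_le _ _
    have h2 := card_union_le (univ.image r) Φ
    have h3 : #((π₀.image Prod.fst).image fun y => ((0 : F), y)) ≤ #π₀ :=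
      card_image_le.trans card_image_le
    have h4 : #(univ.image r) ≤ Fintype.card ι := card_image_le.trans (by rw [card_univ])
    omega
  have hbad : Z'.filter (fun x => ¬ Good (stB π₀ (fun j => fpol (r j)) β ∪ Λ) x) ⊆
      ((Φ ×ˢ A).filter fun q => q.1 ≠ q.2).biUnion
        fun q => Z'.filter fun z => fv q.1 z = fv q.2 z := by
    intro z hz
    obtain ⟨hz1, hz2⟩ := mem_filter.1 hz
    obtain ⟨c, c', hne, he, kc, kc'⟩ := bad_cases hD hg z hz2
    have hAmem : ∀ c : F × F, ((c.1 = 0 ∧ c.2 ∈ π₀.image Prod.fst) ∨ (∃ j, c = r j) ∨ c ∈ Φ) →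
        c ∈ A := by
      intro c h
      rcases h with h | ⟨j, rfl⟩ | h
      · exact mem_union_left _ (mem_image.2 ⟨c.2, h.2, Prod.ext h.1.symm rfl⟩)
      · exact mem_union_right _ (mem_union_left _ (mem_image.2 ⟨j, mem_univ _, rfl⟩))
      · exact mem_union_right _ (mem_union_right _ h)
    by_cases h1 : c ∈ Φ
    · exact mem_biUnion.2 ⟨(c, c'), mem_filter.2 ⟨mem_product.2 ⟨h1, hAmem c' kc'⟩, hne⟩,
        mem_filter.2 ⟨hz1, he⟩⟩
    by_cases h2 : c' ∈ Φ
    · exact mem_biUnion.2 ⟨(c', c), mem_filter.2 ⟨mem_product.2 ⟨h2, hAmem c kc⟩, hne.symm⟩,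
        mem_filter.2 ⟨hz1, he.symm⟩⟩
    exfalso
    rcases kc with kc | ⟨i, rfl⟩ | kc
    · rcases kc' with kc' | ⟨j, rfl⟩ | kc'
      · refine hne (Prod.ext (kc.1.trans kc'.1.symm) ?_)
        unfold fv at he
        rw [kc.1, kc'.1] at he
        linear_combination he
      · refine hfresh z hz1 j ?_
        rw [← he]
        have : fv c z = c.2 := by unfold fv; rw [kc.1]; ring
        rw [this]
        exact kc.2
      · exact h2 kc'
    · rcases kc' with kc' | ⟨j, rfl⟩ | kc'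
      · refine hfresh z hz1 i ?_
        rw [he]
        have : fv c' z = c'.2 := by unfold fv; rw [kc'.1]; ring
        rw [this]
        exact kc'.2
      · exact hself z hz1 i j (fun h => hne (by rw [h])) he
      · exact h2 kc'
    · exact h1 kc
  have h0 : #(((Φ ×ˢ A).filter fun q => q.1 ≠ q.2).biUnion
        fun q => Z'.filter fun z => fv q.1 z = fv q.2 z) ≤
      3 * t * (#π₀ + 2 * Fintype.card ι + 3 * t) := by
    refine card_biUnion_le.trans ?_
    have h3 : ∀ q ∈ (Φ ×ˢ A).filter fun q => q.1 ≠ q.2,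
        #(Z'.filter fun z => fv q.1 z = fv q.2 z) ≤ 1 := fun q hq =>
      card_coinc q.1 q.2 (mem_filter.1 hq).2 Z'
    refine (sum_le_sum h3).trans ?_
    rw [sum_const, smul_eq_mul, mul_one]
    refine (card_filter_le _ _).trans ?_
    rw [card_product]
    exact Nat.mul_le_mul hΦc (hAc.trans (by omega))
  have h1 := card_filter_add_card_filter_not (s := Z')
    (fun x => Good (stB π₀ (fun j => fpol (r j)) β ∪ Λ) x)
  have h2 := card_le_card hbad
  omega

end Forms

end Pool.Agent.GGA
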