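import Mathlib
import Pool.Agent.GGX.Sel
import Pool.Agent.GGA.Loss

/-!
The main lemma: a fixed query algorithm (block of non-constant forms, then an adaptive program).
-/

namespace Pool.Agent.GGA

open Finset Pool.Agent.GGX

theorem gamma_pow_le (K : ℕ) (hK : 1 ≤ K) : (1 - 1 / (K : ℝ)) ^ K ≤ 1 / 2 := by
  have hK0 : (0 : ℝ) < K := by exact_mod_cast hK
  have hK1 : (1 : ℝ) ≤ K := by exact_mod_cast hK
  have h1 : (1 - 1 / (K : ℝ)) * (1 + 1 / K) ≤ 1 := by
    have : (1 - 1 / (K : ℝ)) * (1 + 1 / K) = 1 - (1 / K) ^ 2 := by ring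
    rw [this]
    have := sq_nonneg (1 / (K : ℝ))
    linarith
  have h0 : 0 ≤ 1 - 1 / (K : ℝ) := by
    rw [sub_nonneg, div_le_one hK0]
    exact hK1
  have h2 : (2 : ℝ) ≤ (1 + 1 / K) ^ K := by
    have := one_add_mul_le_pow (a := 1 / (K : ℝ)) (by
      have : (0 : ℝ) ≤ 1 / K := by positivity
      linarith) K
    have e : (1 : ℝ) + K * (1 / K) = 2 := by field_simp; norm_num
    rw [e] at this
    exact this
  have h3 : (1 - 1 / (K : ℝ)) ^ K * (1 + 1 / K) ^ K ≤ 1 := by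
    rw [← mul_pow]
    exact pow_le_one₀ (mul_nonneg h0 (by positivity)) h1
  have h4 : 0 ≤ (1 - 1 / (K : ℝ)) ^ K := pow_nonneg h0 _
  nlinarith

theorem gamma_pow_ge (t : ℕ) :
    (9 : ℝ) / 10 ≤ (1 - 1 / ((10 * (t + 1) : ℕ) : ℝ)) ^ (t + 1) := by
  have h := one_add_mul_le_pow (a := -(1 / ((10 * (t + 1) : ℕ) : ℝ))) (by
    have h0 : (1 : ℝ) ≤ ((10 * (t + 1) : ℕ) : ℝ) := by exact_mod_cast (by omega)
    have h1 : 1 / ((10 * (t + 1) : ℕ) : ℝ) ≤ 1 := by
      rw [div_le_one (by linarith)]; exact h0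
    linarith) (t + 1)
  refine le_trans (le_of_eq ?_) h
  have : ((t : ℝ) + 1) ≠ 0 := by positivity
  push_cast
  field_simp
  norm_num

/-- one side of the comparison -/
theorem side {F L : Type} [Fintype F] [DecidableEq F] [Fintype L] [DecidableEq L]
    (𝓕 : Finset (F ≃ L)) (π₀ : Finset (F × L)) (hf0 : 0 < wt (indS 𝓕) π₀)
    (he0 : 0 < wt (fun _ => (1 : ℝ)) π₀)
    (ans : F → (F ≃ L) → Bool) (b : Bool) (ρ : ℝ) (hρ : 9 / 10 ≤ ρ) (Y : Finset F)
    (A E : ℝ) (hE : 0 ≤ E)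
    (htr : ∀ x ∈ Y, ρ * wt (fun σ => indS 𝓕 σ * indB (ans x) b σ) π₀ *
      wt (fun _ => (1 : ℝ)) π₀ ≤ wt (indS 𝓕) π₀ * wt (indB (ans x) b) π₀)
    (hlow : ∀ σ ∈ 𝓕, (#{x ∈ Y | ans x σ = !b} : ℝ) ≤ E)
    (hA : A ≤ ∑ x ∈ Y, wt (indB (ans x) (!b)) π₀ / wt (fun _ => (1 : ℝ)) π₀) :
    A ≤ #Y / 10 + E := by
  have hsum1 : ∀ x, wt (indB (ans x) b) π₀ / wt (fun _ => (1 : ℝ)) π₀ +
      wt (indB (ans x) (!b)) π₀ / wt (fun _ => (1 : ℝ)) π₀ = 1 := by
    intro x
    rw [← add_div, div_eq_one_iff_eq he0.ne']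
    unfold wt
    rw [← sum_add_distrib]
    refine sum_congr rfl fun σ _ => ?_
    simp only [indB]
    cases ans x σ <;> cases b <;> simp
  -- lower bound of the sum of the transferred weights
  have h1 : wt (indS 𝓕) π₀ * (#Y - E) ≤
      ∑ x ∈ Y, wt (fun σ => indS 𝓕 σ * indB (ans x) b σ) π₀ := by
    unfold wt
    rw [sum_comm, sum_mul]
    refine sum_le_sum fun σ _ => ?_
    rw [← mul_sum]
    by_cases hσ : σ ∈ 𝓕
    · simp only [indS, hσ, if_true, one_mul]
      have h2 : ∑ x ∈ Y, indB (ans x) b σ = (#Y : ℝ) - #{x ∈ Y | ans x σ = !b} := by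
        have h3 := card_filter_add_card_filter_not (s := Y) (fun x => ans x σ = !b)
        have h4 : ∑ x ∈ Y, indB (ans x) b σ = (#{x ∈ Y | ¬ ans x σ = !b} : ℝ) := by
          rw [card_filter]
          push_cast
          refine sum_congr rfl fun x _ => ?_
          simp only [indB]
          cases ans x σ <;> cases b <;> simp
        rw [h4, ← h3]
        push_cast
        ring
      rw [h2]
      have := hlow σ hσ
      linarith
    · simp [indS, hσ]
  have h2 : ρ * (∑ x ∈ Y, wt (fun σ => indS 𝓕 σ * indB (ans x) b σ) π₀) *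
      wt (fun _ => (1 : ℝ)) π₀ ≤ wt (indS 𝓕) π₀ * ∑ x ∈ Y, wt (indB (ans x) b) π₀ := by
    rw [mul_sum, sum_mul, mul_sum]
    exact sum_le_sum htr
  have hρ0 : 0 ≤ ρ := by linarith
  have h3 : wt (indS 𝓕) π₀ * (ρ * (#Y - E) * wt (fun _ => (1 : ℝ)) π₀) ≤
      wt (indS 𝓕) π₀ * ∑ x ∈ Y, wt (indB (ans x) b) π₀ := by
    refine le_trans ?_ h2
    have h5 := mul_le_mul_of_nonneg_right (mul_le_mul_of_nonneg_left h1 hρ0) he0.le
    refine le_trans (le_of_eq ?_) h5
    ring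
  have h4 : ρ * (#Y - E) * wt (fun _ => (1 : ℝ)) π₀ ≤ ∑ x ∈ Y, wt (indB (ans x) b) π₀ :=
    le_of_mul_le_mul_left h3 hf0
  have h5 : ρ * (#Y - E) ≤ ∑ x ∈ Y, wt (indB (ans x) b) π₀ / wt (fun _ => (1 : ℝ)) π₀ := by
    rw [← sum_div, le_div_iff₀ he0]
    exact h4
  have h6 : ∑ x ∈ Y, wt (indB (ans x) b) π₀ / wt (fun _ => (1 : ℝ)) π₀ =
      #Y - ∑ x ∈ Y, wt (indB (ans x) (!b)) π₀ / wt (fun _ => (1 : ℝ)) π₀ := by
    have : ∑ x ∈ Y, (wt (indB (ans x) b) π₀ / wt (fun _ => (1 : ℝ)) π₀ +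
        wt (indB (ans x) (!b)) π₀ / wt (fun _ => (1 : ℝ)) π₀) = #Y := by
      rw [sum_congr rfl fun x _ => hsum1 x]
      simp
    rw [sum_add_distrib] at this
    linarith
  rw [h6] at h5
  have hY0 : (0 : ℝ) ≤ #Y := Nat.cast_nonneg _
  by_cases hYE : (#Y : ℝ) ≤ E
  · have h7 : ∑ x ∈ Y, wt (indB (ans x) (!b)) π₀ / wt (fun _ => (1 : ℝ)) π₀ ≤ #Y := by
      have : 0 ≤ ∑ x ∈ Y, wt (indB (ans x) b) π₀ / wt (fun _ => (1 : ℝ)) π₀ :=
        sum_nonneg fun x _ => div_nonneg (wt_nonneg (fun σ => indB_nonneg _ _ _) _) he0.le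
      rw [h6] at this
      linarith
    linarith
  · push Not at hYE
    have h8 : 9 / 10 * ((#Y : ℝ) - E) ≤ ρ * (#Y - E) :=
      mul_le_mul_of_nonneg_right hρ (by linarith)
    linarith

theorem main_lemma {F L : Type} [Field F] [Fintype F] [DecidableEq F] [Fintype L] [DecidableEq L]
    (hFL : Fintype.card F = Fintype.card L) {ι : Type} [Fintype ι] [DecidableEq ι]
    (r : ι → F × F) (hr : ∀ j, (r j).1 ≠ 0) (hinj : Function.Injective r)
    (X Z : Finset F) (hXZ : Disjoint X Z) (πc : Finset (F × L))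
    (hW1 : ∀ w ∈ X ∪ Z, ∀ w' ∈ X ∪ Z, w ≠ w' → ∀ i j, fv (r i) w ≠ fv (r j) w')
    (hW2 : ∀ w ∈ X ∪ Z, ∀ i j, i ≠ j → fv (r i) w ≠ fv (r j) w)
    (hW3 : ∀ w ∈ X ∪ Z, ∀ j, fv (r j) w ∉ πc.image Prod.fst)
    (t h₁ : ℕ)
    (hX : ∀ Q' : Finset (F × F), #Q' ≤ Fintype.card ι + 3 * t →
      ∀ Y ⊆ X, (∀ x ∈ Y, ∃ x' ∈ X, x' ≠ x ∧ Conf Q' x x') → #Y ≤ h₁)
    (hZ : ∀ c : F × F, c.1 ≠ 0 →
      ∀ Y ⊆ Z, (∀ z ∈ Y, ∃ x ∈ X, ∃ j, fv c x = fv (r j) z) → #Y ≤ 2)
    (Q : (ι → L) → Prog F L) (hQ : ∀ β, (Q β).Cost t)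
    (𝓕 : Finset (F ≃ L)) (hne : 𝓕.Nonempty) (s : ℕ)
    (h𝓕 : ∀ σ ∈ 𝓕, σ ∈ ext πc) (hbig : #(ext πc) ≤ 2 ^ s * #𝓕)
    (hrej : ∀ σ ∈ 𝓕, 8 * #{x ∈ X | (Q fun j => σ (fv (r j) x)).run σ = false} ≤ #X)
    (hacc : ∀ σ ∈ 𝓕, 4 * #{z ∈ Z | (Q fun j => σ (fv (r j) z)).run σ = true} ≤ #Z)
    (hX0 : 1 ≤ #X) (hZ0 : 1 ≤ #Z) (kk : ℕ) (hkk : kk = 10 * (3 * t + 1) * s)
    (H1 : 20 * (kk + #πc + h₁ + 6 * t * Fintype.card ι + (Fintype.card ι + 3 * t) ^ 2 + 3 * t) ≤
      #X)
    (H2 : 200 * (kk + 3 * t * (#πc + kk * (Fintype.card ι + 1) + Fintype.card ι + 3 * t)) ≤ #Z)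
    (H3 : 200 * (3 * t * ((#πc + kk * (Fintype.card ι + 1)) + Fintype.card ι + 3 * t) +
      (Fintype.card ι * (#πc + kk * (Fintype.card ι + 1)) + Fintype.card ι ^ 2)) ≤
        Fintype.card L) : False := by
  classical
  set q₁ : ℕ := Fintype.card ι with hq₁
  set K : ℕ := 10 * (3 * t + 1) with hK
  have hK1 : 1 ≤ K := by omega
  have hK0 : (0 : ℝ) < K := by exact_mod_cast hK1
  set γ : ℝ := 1 - 1 / (K : ℝ) with hγ
  have hγ0 : 0 < γ := by
    rw [hγ, sub_pos, div_lt_one hK0]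
    have : 1 < K := by omega
    exact_mod_cast this
  have hγ1 : γ < 1 := by
    have : (0 : ℝ) < 1 / K := by positivity
    rw [hγ]; linarith
  set W : Finset F := X ∪ Z with hW
  set ps : F → ι → F := fun x j => fv (r j) x with hps
  -- weights at πc
  have hwc : wt (indS 𝓕) πc = (#𝓕 : ℝ) := by
    unfold wt indS
    rw [sum_ite_mem, sum_const, nsmul_eq_mul, mul_one,
      inter_eq_right.2 fun σ hσ => h𝓕 σ hσ]
  have hec : wt (fun _ => (1 : ℝ)) πc = (#(ext πc) : ℝ) := by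
    unfold wt
    simp
  have hFpos : (0 : ℝ) < #𝓕 := by exact_mod_cast hne.card_pos
  obtain ⟨k, π₀, hR, hf0, hmax, hsize⟩ := exists_dense W ps πc 𝓕 (2 ^ s) (by positivity)
    (by rw [hwc, hec]; exact_mod_cast hbig) (by rw [hwc]; exact hFpos) γ hγ0 hγ1
  -- number of units
  have hkle : k ≤ kk := by
    rw [hkk]
    by_contra hcon
    push Not at hcon
    have e1 : γ ^ k ≤ γ ^ (K * s + 1) := pow_le_pow_of_le_one hγ0.le hγ1.le hcon
    have e2 : γ ^ (K * s) ≤ (1 / 2) ^ s := by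
      rw [pow_mul]
      exact pow_le_pow_left₀ (pow_nonneg hγ0.le _) (gamma_pow_le K hK1) s
    have e3 : γ ^ (K * s + 1) < (1 / 2) ^ s := by
      rw [pow_succ]
      have h3 : 0 < γ ^ (K * s) := pow_pos hγ0 _
      nlinarith
    have e4 : (2 : ℝ) ^ s * γ ^ k < 2 ^ s * (1 / 2) ^ s :=
      mul_lt_mul_of_pos_left (lt_of_le_of_lt e1 e3) (by positivity)
    rw [← mul_pow] at e4
    norm_num at e4
    linarith
  set ρ : ℝ := γ ^ (3 * t + 1) with hρ
  have hρ9 : 9 / 10 ≤ ρ := gamma_pow_ge (3 * t)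
  -- structure
  obtain ⟨⟨D, W₀, hW₀, hDW, hstr, hblk⟩, hcard, -⟩ := hR.str
  have hcard' : #π₀ ≤ #πc + kk * (q₁ + 1) :=
    hcard.trans (Nat.add_le_add_left (Nat.mul_le_mul_right _ hkle) _)
  have hext : (ext π₀).Nonempty := by
    by_contra hcon
    rw [not_nonempty_iff_eq_empty] at hcon
    rw [wt, hcon, sum_empty] at hf0
    exact lt_irrefl _ hf0
  obtain ⟨σ₁, hσ₁⟩ := hext
  have hpb : IsPB π₀ := isPB_of_mem_ext hσ₁
  have he : wt (fun _ => (1 : ℝ)) π₀ = ((Fintype.card L - #π₀).factorial : ℝ) := by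
    rw [← card_ext hpb hFL]
    simp [wt]
  have he0 : 0 < wt (fun _ => (1 : ℝ)) π₀ := by
    rw [he]; exact_mod_cast Nat.factorial_pos _
  -- fresh elements
  set fresh : Finset F → Finset F := fun V => V.filter fun x => ∀ j, ps x j ∉ π₀.image Prod.fst
    with hfresh
  have hlost : ∀ V ⊆ W, #V ≤ #(fresh V) + k := by
    intro V hV
    have h1 := card_filter_add_card_filter_not (s := V)
      (fun x => ∀ j, ps x j ∉ π₀.image Prod.fst)
    have h2 : #(V.filter fun x => ¬ ∀ j, ps x j ∉ π₀.image Prod.fst) ≤ k := by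
      -- elements of W₀, or with a position in D
      set V₁ : Finset F := (V \ W₀).filter fun x => ∃ j, ps x j ∈ D with hV₁
      have hV₁c : #V₁ ≤ #D := by
        let g : F → F := fun x => if h : ∃ j, ps x j ∈ D then ps x (Classical.choose h) else x
        have hg : ∀ x, (∃ j, ps x j ∈ D) → ∃ j, g x = ps x j ∧ g x ∈ D := by
          intro x h
          have h1 := Classical.choose_spec h
          have h2 : g x = ps x (Classical.choose h) := dif_pos h
          exact ⟨_, h2, by rw [h2]; exact h1⟩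
        refine card_le_card_of_injOn g ?_ ?_
        · intro x hx
          rw [mem_coe, hV₁, mem_filter] at hx
          obtain ⟨j, -, h⟩ := hg x hx.2
          exact h
        · intro x hx x' hx' hxx
          rw [mem_coe, hV₁, mem_filter, mem_sdiff] at hx hx'
          by_contra hne'
          obtain ⟨i, h3, -⟩ := hg x hx.2
          obtain ⟨j, h4, -⟩ := hg x' hx'.2
          exact hW1 x (hV hx.1.1) x' (hV hx'.1.1) hne' i j (by
            have : ps x i = ps x' j := by rw [← h3, ← h4, hxx]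
            exact this)
      have hsub : (V.filter fun x => ¬ ∀ j, ps x j ∉ π₀.image Prod.fst) ⊆ W₀ ∪ V₁ := by
        intro x hx
        obtain ⟨hx1, hx2⟩ := mem_filter.1 hx
        push Not at hx2
        obtain ⟨j, hj⟩ := hx2
        by_cases hxW : x ∈ W₀
        · exact mem_union_left _ hxW
        rcases hstr _ hj with h | h | ⟨w, hw, i, h⟩
        · exact absurd h (hW3 x (hV hx1) j)
        · exact mem_union_right _ (mem_filter.2 ⟨mem_sdiff.2 ⟨hx1, hxW⟩, j, h⟩)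
        · exfalso
          have hxw : x ≠ w := by
            rintro rfl
            exact hxW hw
          exact hW1 x (hV hx1) w (hW₀ hw) hxw j i h
      have h3 := card_le_card hsub
      have h4 := card_union_le W₀ V₁
      omega
    have h3 : #(fresh V) = #(V.filter fun x => ∀ j, ps x j ∉ π₀.image Prod.fst) := rfl
    omega
  -- formal run
  obtain ⟨q, hq0, hq1, hqF⟩ := query_formal hFL π₀ hpb (fun j => fpol (r j))
    (fun j => fpol_deg _) (fun j y h => hr j (by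
      have := congrArg cf h
      rw [cf_fpol, cf_C] at this
      rw [this])) (fun i j h => hinj (by
      have := congrArg cf h
      rwa [cf_fpol, cf_fpol] at this)) Q t hQ
  set X' : Finset F := fresh X with hX'
  set Z' : Finset F := fresh Z with hZ'
  have hX'X : X' ⊆ X := filter_subset _ _
  have hZ'Z : Z' ⊆ Z := filter_subset _ _
  have hXle := hlost X subset_union_left
  have hZle := hlost Z subset_union_right
  set BX : ℕ := h₁ + ((#πc + k) + 3 * t) + 6 * t * q₁ + (q₁ + 3 * t) ^ 2 with hBX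
  set BZ : ℕ := 3 * t * (#π₀ + 2 * q₁ + 3 * t) with hBZ
  have hLX : ∀ β, LossB X' BX (3 * t) (stB π₀ (fun j => fpol (r j)) β) := by
    intro β
    refine loss_X hr hX'X hXZ hW1 (fun x hx => (mem_filter.1 hx).2) t h₁ (#πc + k)
      (πc.image Prod.fst) D W₀ hW₀ ?_ hstr hX hZ β
    have h1 : #(πc.image Prod.fst) ≤ #πc := card_image_le
    omega
  have hLZ : ∀ β, LossB Z' BZ (3 * t) (stB π₀ (fun j => fpol (r j)) β) := by
    intro β
    exact loss_Z hr (fun z hz => hW2 z (mem_union_right _ (hZ'Z hz)))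
      (fun z hz => (mem_filter.1 hz).2) t β
  set ans : F → (F ≃ L) → Bool := fun x σ => (Q fun j => σ (fv (r j) x)).run σ with hans
  have hanse : ∀ x σ, (Q (fun j => σ ((fpol (r j)).eval x))).run σ = ans x σ := by
    intro x σ
    simp only [hans, eval_fpol]
  have htr : ∀ b, ∀ x ∈ W, ρ * wt (fun σ => indS 𝓕 σ * indB (ans x) b σ) π₀ *
      wt (fun _ => (1 : ℝ)) π₀ ≤ wt (indS 𝓕) π₀ * wt (indB (ans x) b) π₀ := by
    intro b x hx
    exact TP.query hγ0 hγ1.le hR hmax Q hQ x hx b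
  -- the two sides
  have hXside : ((#X' : ℝ) - BX) * q false ≤ #X' / 10 + #X / 8 := by
    refine side 𝓕 π₀ hf0 he0 ans true ρ hρ9 X' _ (#X / 8) (by positivity)
      (fun x hx => htr true x (mem_union_left _ (hX'X hx))) ?_ ?_
    · intro σ hσ
      have h1 := hrej σ hσ
      have h2 : #{x ∈ X' | ans x σ = !true} ≤
          #{x ∈ X | (Q fun j => σ (fv (r j) x)).run σ = false} := by
        refine card_le_card ?_
        intro x hx
        obtain ⟨hx1, hx2⟩ := mem_filter.1 hx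
        exact mem_filter.2 ⟨hX'X hx1, hx2⟩
      rw [le_div_iff₀ (by norm_num)]
      exact_mod_cast (by omega : #{x ∈ X' | ans x σ = !true} * 8 ≤ #X)
    · have := hqF false X' BX hLX
      simp only [hanse] at this
      rw [he]
      exact this
  have hZside : ((#Z' : ℝ) - BZ) * q true ≤ #Z' / 10 + #Z / 4 := by
    refine side 𝓕 π₀ hf0 he0 ans false ρ hρ9 Z' _ (#Z / 4) (by positivity)
      (fun x hx => htr false x (mem_union_right _ (hZ'Z hx))) ?_ ?_
    · intro σ hσ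
      have h1 := hacc σ hσ
      have h2 : #{x ∈ Z' | ans x σ = !false} ≤
          #{z ∈ Z | (Q fun j => σ (fv (r j) z)).run σ = true} := by
        refine card_le_card ?_
        intro x hx
        obtain ⟨hx1, hx2⟩ := mem_filter.1 hx
        exact mem_filter.2 ⟨hZ'Z hx1, hx2⟩
      rw [le_div_iff₀ (by norm_num)]
      exact_mod_cast (by omega : #{x ∈ Z' | ans x σ = !false} * 4 ≤ #Z)
    · have := hqF true Z' BZ hLZ
      simp only [hanse] at this
      rw [he]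
      exact this
  -- numbers
  have hXpos : (0 : ℝ) < #X := by exact_mod_cast hX0
  have hZpos : (0 : ℝ) < #Z := by exact_mod_cast hZ0
  have n1 : (#X : ℝ) ≤ #X' + k := by exact_mod_cast hXle
  have n2 : (#Z : ℝ) ≤ #Z' + k := by exact_mod_cast hZle
  have n1' : (#X' : ℝ) ≤ #X := by exact_mod_cast card_le_card hX'X
  have n2' : (#Z' : ℝ) ≤ #Z := by exact_mod_cast card_le_card hZ'Z
  have n3 : 20 * ((k : ℝ)) ≤ #X := by
    have : 20 * k ≤ #X := by
      have : 20 * kk ≤ #X := le_trans (by gcongr; omega) H1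
      omega
    exact_mod_cast this
  have n4 : 20 * (BX : ℝ) ≤ #X := by
    have : 20 * BX ≤ #X := by
      refine le_trans ?_ H1
      rw [hBX]
      gcongr 20 * ?_
      omega
    exact_mod_cast this
  have n5 : 200 * (k : ℝ) ≤ #Z := by
    have : 200 * k ≤ #Z := by
      have : 200 * kk ≤ #Z := le_trans (by gcongr; omega) H2
      omega
    exact_mod_cast this
  have n6 : 100 * (BZ : ℝ) ≤ #Z := by
    have : 100 * BZ ≤ #Z := by
      refine le_trans ?_ H2
      rw [hBZ]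
      have h1 : #π₀ + 2 * q₁ + 3 * t ≤ 2 * (#πc + kk * (q₁ + 1) + q₁ + 3 * t) := by omega
      calc 100 * (3 * t * (#π₀ + 2 * q₁ + 3 * t))
          ≤ 100 * (3 * t * (2 * (#πc + kk * (q₁ + 1) + q₁ + 3 * t))) := by gcongr
        _ = 200 * (3 * t * (#πc + kk * (q₁ + 1) + q₁ + 3 * t)) := by ring
        _ ≤ _ := by gcongr; omega
    exact_mod_cast this
  have n7 : ((3 * t * (#π₀ + q₁ + 3 * t) + (q₁ * #π₀ + q₁ ^ 2)) / Fintype.card L : ℝ) ≤
      1 / 200 := by
    have hLpos : (0 : ℝ) < Fintype.card L := by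
      rw [← hFL]; exact_mod_cast Fintype.card_pos
    rw [div_le_div_iff₀ hLpos (by norm_num)]
    have : (3 * t * (#π₀ + q₁ + 3 * t) + (q₁ * #π₀ + q₁ ^ 2)) * 200 ≤ 1 * Fintype.card L := by
      rw [one_mul]
      refine le_trans ?_ H3
      rw [mul_comm]
      gcongr
    exact_mod_cast this
  have m1 : (1 : ℝ) - 1 / 200 ≤ q true + q false := by
    refine le_trans ?_ hq1
    have := n7
    push_cast
    linarith
  -- q false ≤ 0.26
  have m2 : q false ≤ 27 / 100 := by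
    have hq00 := hq0 false
    have h1 : (9 / 10 : ℝ) * #X ≤ (#X' : ℝ) - BX := by linarith
    have h2 : (9 / 10 : ℝ) * #X * q false ≤ #X' / 10 + #X / 8 :=
      (mul_le_mul_of_nonneg_right h1 hq00).trans hXside
    have h3 : (9 / 10 : ℝ) * #X * q false ≤ (9 / 10 * #X) * (27 / 100) := by
      refine h2.trans ?_
      linarith
    exact le_of_mul_le_mul_left h3 (by positivity)
  have m3 : q true ≤ 40 / 100 := by
    have hq00 := hq0 true
    have h1 : (98 / 100 : ℝ) * #Z ≤ (#Z' : ℝ) - BZ := by linarith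
    have h2 : (98 / 100 : ℝ) * #Z * q true ≤ #Z' / 10 + #Z / 4 :=
      (mul_le_mul_of_nonneg_right h1 hq00).trans hZside
    have h3 : (98 / 100 : ℝ) * #Z * q true ≤ (98 / 100 * #Z) * (40 / 100) := by
      refine h2.trans ?_
      linarith
    exact le_of_mul_le_mul_left h3 (by positivity)
  linarith

end Pool.Agent.GGA
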