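import Mathlib
import Pool.Agent.GGA.Defs

/-!
Many disjoint sets of non-sums with pairwise disjoint, generic query positions.
-/

namespace Pool.Agent.GGA

open Finset

variable {K : Type*} [Field K] [Fintype K] [DecidableEq K]

/-- `Z` is a set of `M` non-sums whose query positions (non-constant forms `Q`) are pairwise
different, different from those of the elements of `X`, outside `C₀`, and such that the values of
one non-constant form on `X` meet the query positions of at most two elements of `Z` -/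
structure NiceSet (X S C₀ : Finset K) (Q : Finset (K × K)) (M : ℕ) (Z : Finset K) : Prop where
  card : #Z = M
  disj : Disjoint Z S
  const : ∀ z ∈ Z, ∀ r ∈ Q, fv r z ∉ C₀
  self : ∀ z ∈ Z, ∀ r ∈ Q, ∀ r' ∈ Q, r ≠ r' → fv r z ≠ fv r' z
  conf : ∀ z ∈ Z, ∀ w ∈ X ∪ Z, z ≠ w → ∀ r ∈ Q, ∀ r' ∈ Q, fv r z ≠ fv r' w
  meet : ∀ r : K × K, r.1 ≠ 0 → #{z ∈ Z | ∃ x ∈ X, ∃ r' ∈ Q, fv r x = fv r' z} ≤ 2

/-- the conditions of `NiceSet` except for the size -/
structure NicePart (X S C₀ : Finset K) (Q : Finset (K × K)) (Z : Finset K) : Prop where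
  disj : Disjoint Z S
  const : ∀ z ∈ Z, ∀ r ∈ Q, fv r z ∉ C₀
  self : ∀ z ∈ Z, ∀ r ∈ Q, ∀ r' ∈ Q, r ≠ r' → fv r z ≠ fv r' z
  conf : ∀ z ∈ Z, ∀ w ∈ X ∪ Z, z ≠ w → ∀ r ∈ Q, ∀ r' ∈ Q, fv r z ≠ fv r' w
  meet : ∀ r : K × K, r.1 ≠ 0 → #{z ∈ Z | ∃ x ∈ X, ∃ r' ∈ Q, fv r x = fv r' z} ≤ 2

omit [Fintype K] in
/-- the elements excluded by the part `Z` already chosen -/
theorem bad_set (X S C₀ : Finset K) (hXS : X ⊆ S) (Q : Finset (K × K)) (M : ℕ)
    (Z : Finset K) (hc : #Z ≤ M) (Rest : Finset K)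
    (hbig : M + #Q * #C₀ + #Q ^ 2 + #S * #Q ^ 2 + M * #Q ^ 2 + M ^ 2 * #S ^ 3 * #Q ^ 3 < #Rest) :
    ∃ z ∈ Rest, z ∉ Z ∧ (∀ r ∈ Q, ∀ c ∈ C₀, z ≠ (c - r.2) / r.1) ∧
      (∀ r ∈ Q, ∀ r' ∈ Q, z ≠ (r'.2 - r.2) / (r.1 - r'.1)) ∧
      (∀ x ∈ X, ∀ r ∈ Q, ∀ r' ∈ Q, z ≠ (fv r' x - r.2) / r.1) ∧
      (∀ x ∈ Z, ∀ r ∈ Q, ∀ r' ∈ Q, z ≠ (fv r' x - r.2) / r.1) ∧
      (∀ z₁ ∈ Z, ∀ z₂ ∈ Z, ∀ x₁ ∈ X, ∀ x₂ ∈ X, ∀ x ∈ X, ∀ r₁ ∈ Q, ∀ r₂ ∈ Q, ∀ r' ∈ Q,
        z ≠ (fv ((fv r₁ z₁ - fv r₂ z₂) / (x₁ - x₂),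
          fv r₁ z₁ - (fv r₁ z₁ - fv r₂ z₂) / (x₁ - x₂) * x₁) x - r'.2) / r'.1) := by
  classical
  let B1 : Finset K := (Q ×ˢ C₀).image (fun s => (s.2 - s.1.2) / s.1.1)
  let B2 : Finset K := (Q ×ˢ Q).image (fun s => (s.2.2 - s.1.2) / (s.1.1 - s.2.1))
  let B3 : Finset K := (X ×ˢ (Q ×ˢ Q)).image (fun s => (fv s.2.2 s.1 - s.2.1.2) / s.2.1.1)
  let B4 : Finset K := (Z ×ˢ (Q ×ˢ Q)).image (fun s => (fv s.2.2 s.1 - s.2.1.2) / s.2.1.1)
  let B5 : Finset K := ((Z ×ˢ Z) ×ˢ ((X ×ˢ (X ×ˢ X)) ×ˢ (Q ×ˢ (Q ×ˢ Q)))).image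
    (fun s => (fv ((fv s.2.2.1 s.1.1 - fv s.2.2.2.1 s.1.2) / (s.2.1.1 - s.2.1.2.1),
      fv s.2.2.1 s.1.1 - (fv s.2.2.1 s.1.1 - fv s.2.2.2.1 s.1.2) / (s.2.1.1 - s.2.1.2.1) * s.2.1.1)
      s.2.1.2.2 - s.2.2.2.2.2) / s.2.2.2.2.1)
  have hXc : #X ≤ #S := card_le_card hXS
  have c1 : #B1 ≤ #Q * #C₀ := card_image_le.trans (by rw [card_product])
  have c2 : #B2 ≤ #Q ^ 2 := card_image_le.trans (by rw [card_product, pow_two])
  have c3 : #B3 ≤ #S * #Q ^ 2 := by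
    refine card_image_le.trans ?_
    rw [card_product, card_product, ← pow_two]
    exact Nat.mul_le_mul_right _ hXc
  have c4 : #B4 ≤ M * #Q ^ 2 := by
    refine card_image_le.trans ?_
    rw [card_product, card_product, ← pow_two]
    exact Nat.mul_le_mul_right _ hc
  have c5 : #B5 ≤ M ^ 2 * #S ^ 3 * #Q ^ 3 := by
    refine card_image_le.trans ?_
    simp only [card_product]
    calc #Z * #Z * (#X * (#X * #X) * (#Q * (#Q * #Q))) = #Z ^ 2 * #X ^ 3 * #Q ^ 3 := by ring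
      _ ≤ M ^ 2 * #S ^ 3 * #Q ^ 3 := by
        gcongr
  have hU : #(Z ∪ B1 ∪ B2 ∪ B3 ∪ B4 ∪ B5) < #Rest := by
    have h1 : #(Z ∪ B1 ∪ B2 ∪ B3 ∪ B4 ∪ B5) ≤ #Z + #B1 + #B2 + #B3 + #B4 + #B5 := by
      refine (card_union_le _ _).trans (Nat.add_le_add_right ?_ _)
      refine (card_union_le _ _).trans (Nat.add_le_add_right ?_ _)
      refine (card_union_le _ _).trans (Nat.add_le_add_right ?_ _)
      refine (card_union_le _ _).trans (Nat.add_le_add_right ?_ _)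
      exact card_union_le _ _
    omega
  obtain ⟨z, hzR, hz⟩ := exists_mem_notMem_of_card_lt_card hU
  simp only [mem_union, not_or] at hz
  obtain ⟨⟨⟨⟨⟨zZ, z1⟩, z2⟩, z3⟩, z4⟩, z5⟩ := hz
  refine ⟨z, hzR, zZ, ?_, ?_, ?_, ?_, ?_⟩
  · intro r hr c hc' he
    exact z1 (mem_image.mpr ⟨(r, c), mem_product.mpr ⟨hr, hc'⟩, he.symm⟩)
  · intro r hr r' hr' he
    exact z2 (mem_image.mpr ⟨(r, r'), mem_product.mpr ⟨hr, hr'⟩, he.symm⟩)
  · intro x hx r hr r' hr' he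
    exact z3 (mem_image.mpr ⟨(x, r, r'), mem_product.mpr ⟨hx, mem_product.mpr ⟨hr, hr'⟩⟩,
      he.symm⟩)
  · intro x hx r hr r' hr' he
    exact z4 (mem_image.mpr ⟨(x, r, r'), mem_product.mpr ⟨hx, mem_product.mpr ⟨hr, hr'⟩⟩,
      he.symm⟩)
  · intro z₁ hz₁ z₂ hz₂ x₁ hx₁ x₂ hx₂ x hx r₁ hr₁ r₂ hr₂ r' hr' he
    refine z5 (mem_image.mpr ⟨((z₁, z₂), ((x₁, (x₂, x)), (r₁, (r₂, r')))), ?_, he.symm⟩)
    simp only [mem_product]
    exact ⟨⟨hz₁, hz₂⟩, ⟨hx₁, hx₂, hx⟩, hr₁, hr₂, hr'⟩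

omit [Fintype K] in
/-- one more element -/
theorem nice_insert (X S C₀ : Finset K) (hXS : X ⊆ S) (Q : Finset (K × K))
    (hQ : ∀ r ∈ Q, r.1 ≠ 0) (M : ℕ) (Z : Finset K) (hZ : NicePart X S C₀ Q Z) (hc : #Z ≤ M)
    (Rest : Finset K) (hRS : Disjoint Rest S)
    (hbig : M + #Q * #C₀ + #Q ^ 2 + #S * #Q ^ 2 + M * #Q ^ 2 + M ^ 2 * #S ^ 3 * #Q ^ 3 < #Rest) :
    ∃ z ∈ Rest, z ∉ Z ∧ NicePart X S C₀ Q (insert z Z) := by
  classical
  obtain ⟨z, hzR, hzZ, h1, h2, h3, h4, h5⟩ := bad_set X S C₀ hXS Q M Z hc Rest hbig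
  have hzS : z ∉ S := disjoint_left.mp hRS hzR
  have key : ∀ r ∈ Q, ∀ v, fv r z = v → z = (v - r.2) / r.1 := by
    intro r hr v hv
    rw [eq_div_iff (hQ r hr), ← hv, fv]
    ring
  have hself : ∀ r ∈ Q, ∀ r' ∈ Q, r ≠ r' → fv r z ≠ fv r' z := by
    intro r hr r' hr' hne he
    by_cases hcc : r.1 = r'.1
    · apply hne
      refine Prod.ext hcc ?_
      rw [fv, fv, hcc] at he
      exact add_left_cancel he
    · apply h2 r hr r' hr'
      rw [eq_div_iff (sub_ne_zero.mpr hcc)]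
      rw [fv, fv] at he
      linear_combination he
  have hconf : ∀ w ∈ X ∪ Z, ∀ r ∈ Q, ∀ r' ∈ Q, fv r z ≠ fv r' w := by
    intro w hw r hr r' hr' he
    rcases mem_union.mp hw with hw | hw
    · exact h3 w hw r hr r' hr' (key r hr _ he)
    · exact h4 w hw r hr r' hr' (key r hr _ he)
  refine ⟨z, hzR, hzZ, ?_, ?_, ?_, ?_, ?_⟩
  · rw [disjoint_insert_left]
    exact ⟨hzS, hZ.disj⟩
  · intro w hw r hr hm
    rcases mem_insert.mp hw with hw' | hw'
    · rw [hw'] at hm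
      exact h1 r hr _ hm (key r hr _ rfl)
    · exact hZ.const w hw' r hr hm
  · intro w hw r hr r' hr' hne
    rcases mem_insert.mp hw with hw' | hw'
    · rw [hw']
      exact hself r hr r' hr' hne
    · exact hZ.self w hw' r hr r' hr' hne
  · intro y hy w hw hyw r hr r' hr' he
    have hw2 : w ∈ X ∪ Z ∨ w = z := by
      rcases mem_union.mp hw with h | h
      · exact Or.inl (mem_union_left _ h)
      · rcases mem_insert.mp h with h | h
        · exact Or.inr h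
        · exact Or.inl (mem_union_right _ h)
    rcases mem_insert.mp hy with hy' | hy' <;> rcases hw2 with hw' | hw'
    · rw [hy'] at he
      exact hconf w hw' r hr r' hr' he
    · exact hyw (hy'.trans hw'.symm)
    · exact hZ.conf y hy' w hw' hyw r hr r' hr' he
    · rw [hw'] at he
      exact hconf y (mem_union_right _ hy') r' hr' r hr he.symm
  · intro r hr0
    by_cases hP : ∃ x ∈ X, ∃ r' ∈ Q, fv r x = fv r' z
    · obtain ⟨x, hx, r', hr', he⟩ := hP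
      have hle : #{w ∈ Z | ∃ x ∈ X, ∃ r' ∈ Q, fv r x = fv r' w} ≤ 1 := by
        by_contra hcon
        push Not at hcon
        obtain ⟨z₁, hz₁, z₂, hz₂, hne⟩ := one_lt_card.mp hcon
        obtain ⟨hz₁, x₁, hx₁, r₁, hr₁, e₁⟩ := mem_filter.mp hz₁
        obtain ⟨hz₂, x₂, hx₂, r₂, hr₂, e₂⟩ := mem_filter.mp hz₂
        have hx12 : x₁ ≠ x₂ := by
          intro h
          rw [h, e₂] at e₁
          exact hZ.conf z₂ hz₂ z₁ (mem_union_right _ hz₁) hne.symm r₂ hr₂ r₁ hr₁ e₁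
        have hsub : x₁ - x₂ ≠ 0 := sub_ne_zero.mpr hx12
        have hc1 : (fv r₁ z₁ - fv r₂ z₂) / (x₁ - x₂) = r.1 := by
          rw [div_eq_iff hsub, ← e₁, ← e₂, fv, fv]
          ring
        have hc2 : fv r₁ z₁ - (fv r₁ z₁ - fv r₂ z₂) / (x₁ - x₂) * x₁ = r.2 := by
          rw [hc1, ← e₁, fv]
          ring
        apply h5 z₁ hz₁ z₂ hz₂ x₁ hx₁ x₂ hx₂ x hx r₁ hr₁ r₂ hr₂ r' hr'
        rw [hc2, hc1]
        exact key r' hr' _ he.symm
      refine (card_le_card (t := insert z ({w ∈ Z | ∃ x ∈ X, ∃ r' ∈ Q, fv r x = fv r' w})) ?_).trans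
        ((card_insert_le _ _).trans (by omega))
      intro w hw
      obtain ⟨hw1, hw2⟩ := mem_filter.mp hw
      rcases mem_insert.mp hw1 with h | h
      · exact mem_insert.mpr (Or.inl h)
      · exact mem_insert.mpr (Or.inr (mem_filter.mpr ⟨h, hw2⟩))
    · refine le_trans (card_le_card ?_) (hZ.meet r hr0)
      intro w hw
      obtain ⟨hw1, hw2⟩ := mem_filter.mp hw
      rcases mem_insert.mp hw1 with h | h
      · rw [h] at hw2
        exact absurd hw2 hP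
      · exact mem_filter.mpr ⟨h, hw2⟩

omit [Fintype K] in
/-- a nice set inside `Rest` -/
theorem exists_nice (X S C₀ : Finset K) (hXS : X ⊆ S) (Q : Finset (K × K))
    (hQ : ∀ r ∈ Q, r.1 ≠ 0) (M : ℕ) (Rest : Finset K) (hRS : Disjoint Rest S)
    (hbig : M + #Q * #C₀ + #Q ^ 2 + #S * #Q ^ 2 + M * #Q ^ 2 + M ^ 2 * #S ^ 3 * #Q ^ 3 < #Rest) :
    ∃ Z ⊆ Rest, NiceSet X S C₀ Q M Z := by
  classical
  have main : ∀ m ≤ M, ∃ Z ⊆ Rest, #Z = m ∧ NicePart X S C₀ Q Z := by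
    intro m
    induction m with
    | zero =>
      intro _
      refine ⟨∅, empty_subset _, rfl, ?_, ?_, ?_, ?_, ?_⟩
      · exact disjoint_empty_left _
      · intro z hz
        exact absurd hz (notMem_empty z)
      · intro z hz
        exact absurd hz (notMem_empty z)
      · intro z hz
        exact absurd hz (notMem_empty z)
      · intro r _
        simp
    | succ m ih =>
      intro hm
      obtain ⟨Z, hZR, hcard, hZ⟩ := ih (by omega)
      obtain ⟨z, hzR, hzZ, hnew⟩ := nice_insert X S C₀ hXS Q hQ M Z hZ (by omega) Rest hRS hbig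
      refine ⟨insert z Z, ?_, ?_, hnew⟩
      · intro w hw
        rcases mem_insert.mp hw with h | h
        · rw [h]
          exact hzR
        · exact hZR h
      · rw [card_insert_of_notMem hzZ, hcard]
  obtain ⟨Z, hZR, hcard, hZ⟩ := main M le_rfl
  exact ⟨Z, hZR, ⟨hcard, hZ.disj, hZ.const, hZ.self, hZ.conf, hZ.meet⟩⟩

/-- greedy choice in blocks: pairwise disjoint nice sets cover all but `R` of the non-sums.
(An element `z` is added to the part already chosen if it is not in `S`, not in conflict with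
`C₀`, itself, `X`, the chosen part, and for any two chosen `z₁ ≠ z₂`, `x₁ ≠ x₂ ∈ X`, `r₁, r₂ ∈ Q`
and the unique form `r` with `fv r x₁ = fv r₁ z₁`, `fv r x₂ = fv r₂ z₂`, no `fv r' z`, `r' ∈ Q`,
is in `fv r '' X`.) -/
theorem exists_family (X S C₀ : Finset K) (hXS : X ⊆ S) (Q : Finset (K × K))
    (hQ : ∀ r ∈ Q, r.1 ≠ 0) (M R : ℕ) (hM : 1 ≤ M)
    (hR : #S + M + #Q * #C₀ + #Q ^ 2 + #S * #Q ^ 2 + M * #Q ^ 2 + M ^ 2 * #S ^ 3 * #Q ^ 3 < R) :
    ∃ 𝒵 : Finset (Finset K), (∀ Z ∈ 𝒵, NiceSet X S C₀ Q M Z) ∧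
      (∀ Z ∈ 𝒵, ∀ Z' ∈ 𝒵, Z ≠ Z' → Disjoint Z Z') ∧ #Sᶜ ≤ R + M * #𝒵 := by
  classical
  have main : ∀ N : ℕ, ∀ Rest : Finset K, #Rest = N → Disjoint Rest S →
      ∃ 𝒵 : Finset (Finset K), (∀ Z ∈ 𝒵, NiceSet X S C₀ Q M Z) ∧ (∀ Z ∈ 𝒵, Z ⊆ Rest) ∧
        (∀ Z ∈ 𝒵, ∀ Z' ∈ 𝒵, Z ≠ Z' → Disjoint Z Z') ∧ #Rest ≤ R + M * #𝒵 := by
    intro N
    induction N using Nat.strong_induction_on with
    | _ N ih =>
      intro Rest hN hRS
      by_cases hle : #Rest ≤ R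
      · refine ⟨∅, ?_, ?_, ?_, ?_⟩
        · intro Z hZ
          exact absurd hZ (notMem_empty Z)
        · intro Z hZ
          exact absurd hZ (notMem_empty Z)
        · intro Z hZ
          exact absurd hZ (notMem_empty Z)
        · simpa using hle
      · push Not at hle
        obtain ⟨Z, hZR, hZ⟩ := exists_nice X S C₀ hXS Q hQ M Rest hRS (by omega)
        have hcardZ : #Z = M := hZ.card
        have hsd : #(Rest \ Z) + M = #Rest := by
          rw [← hcardZ]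
          exact card_sdiff_add_card_eq_card hZR
        obtain ⟨𝒵, h1, h2, h3, h4⟩ := ih (#(Rest \ Z)) (by omega) (Rest \ Z) rfl
          (disjoint_of_subset_left sdiff_subset hRS)
        have hdis : ∀ Z' ∈ 𝒵, Disjoint Z Z' := by
          intro Z' hZ'
          rw [disjoint_left]
          intro w hw hw'
          exact (mem_sdiff.mp (h2 Z' hZ' hw')).2 hw
        have hnot : Z ∉ 𝒵 := by
          intro hmem
          have h5 := hdis Z hmem
          rw [disjoint_self_iff_empty] at h5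
          rw [h5, card_empty] at hcardZ
          omega
        refine ⟨insert Z 𝒵, ?_, ?_, ?_, ?_⟩
        · intro Z' hZ'
          rcases mem_insert.mp hZ' with h | h
          · rw [h]
            exact hZ
          · exact h1 Z' h
        · intro Z' hZ'
          rcases mem_insert.mp hZ' with h | h
          · rw [h]
            exact hZR
          · exact (h2 Z' h).trans sdiff_subset
        · intro Y hY Y' hY' hne
          rcases mem_insert.mp hY with h | h <;> rcases mem_insert.mp hY' with h' | h'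
          · exact absurd (h.trans h'.symm) hne
          · rw [h]
            exact hdis Y' h'
          · rw [h']
            exact (hdis Y h).symm
          · exact h3 Y h Y' h' hne
        · rw [card_insert_of_notMem hnot]
          have : M * (#𝒵 + 1) = M * #𝒵 + M := by ring
          omega
  obtain ⟨𝒵, h1, _, h3, h4⟩ := main _ Sᶜ rfl disjoint_compl_left
  exact ⟨𝒵, h1, h3, h4⟩

end Pool.Agent.GGA
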