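import Mathlib

/-!
Averaging: seeds, memory contents, labels of constant positions, classes of non-sums.
-/

namespace Pool.Agent.GGA

open Finset

/-- double counting: if every `x ∈ G` is bad for at most half of the `z ∈ W`, some `z ∈ W` is good
for at least half of the `x ∈ G`. -/
theorem exists_good {α β : Type*} [DecidableEq α] [DecidableEq β] (G : Finset α) (W : Finset β)
    (hW : W.Nonempty) (P : α → β → Prop) [∀ a b, Decidable (P a b)]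
    (h : ∀ x ∈ G, #W ≤ 2 * #{z ∈ W | P x z}) :
    ∃ z ∈ W, #G ≤ 2 * #{x ∈ G | P x z} := by
  by_contra hcon
  push Not at hcon
  have h1 : ∑ z ∈ W, #{x ∈ G | P x z} = ∑ x ∈ G, #{z ∈ W | P x z} := by
    simp only [Finset.card_filter]
    rw [Finset.sum_comm]
  have h2 : ∑ z ∈ W, 2 * #{x ∈ G | P x z} < ∑ _z ∈ W, #G :=
    Finset.sum_lt_sum_of_nonempty hW hcon
  have h3 : ∑ _x ∈ G, #W ≤ ∑ x ∈ G, 2 * #{z ∈ W | P x z} := Finset.sum_le_sum h
  rw [← Finset.mul_sum, Finset.sum_const, smul_eq_mul] at h2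
  rw [← Finset.mul_sum, Finset.sum_const, smul_eq_mul] at h3
  rw [h1] at h2
  have : #W * #G = #G * #W := Nat.mul_comm _ _
  omega

/-- one class of non-sums is accepted only rarely for at least half of the labelings -/
theorem exists_class {α K : Type*} [DecidableEq K] [DecidableEq α] (G : Finset α)
    (acc : α → Finset K) (N : Finset K)
    (hacc : ∀ σ ∈ G, 16 * #(acc σ ∩ N) ≤ #N) (𝒵 : Finset (Finset K)) (M : ℕ) (hM : 1 ≤ M)
    (hZ : ∀ Z ∈ 𝒵, #Z = M ∧ Z ⊆ N) (hd : ∀ Z ∈ 𝒵, ∀ Z' ∈ 𝒵, Z ≠ Z' → Disjoint Z Z')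
    (hN : #N ≤ 2 * (M * #𝒵)) (hN1 : 1 ≤ #N) :
    ∃ Z ∈ 𝒵, #G ≤ 2 * #{σ ∈ G | 4 * #(acc σ ∩ Z) ≤ #Z} := by
  classical
  have hne : 𝒵.Nonempty := by
    rw [← Finset.card_pos]
    by_contra hc
    have : #𝒵 = 0 := by omega
    rw [this] at hN
    omega
  apply exists_good G 𝒵 hne (fun σ Z => 4 * #(acc σ ∩ Z) ≤ #Z)
  intro σ hσ
  -- the bad classes
  have hsum : ∑ Z ∈ 𝒵, #(acc σ ∩ Z) ≤ #(acc σ ∩ N) := by
    rw [← Finset.card_biUnion]
    · apply Finset.card_le_card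
      intro x hx
      rw [Finset.mem_biUnion] at hx
      obtain ⟨Z, hZm, hx⟩ := hx
      rw [Finset.mem_inter] at hx ⊢
      exact ⟨hx.1, (hZ Z hZm).2 hx.2⟩
    · intro Z hZm Z' hZm' hne'
      exact (hd Z hZm Z' hZm' hne').mono Finset.inter_subset_right Finset.inter_subset_right
  have hbad : #{Z ∈ 𝒵 | ¬ 4 * #(acc σ ∩ Z) ≤ #Z} * M ≤ 4 * ∑ Z ∈ 𝒵, #(acc σ ∩ Z) := by
    calc #{Z ∈ 𝒵 | ¬ 4 * #(acc σ ∩ Z) ≤ #Z} * M
        = ∑ Z ∈ 𝒵 with ¬ 4 * #(acc σ ∩ Z) ≤ #Z, M := by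
          rw [Finset.sum_const, smul_eq_mul]
      _ ≤ ∑ Z ∈ 𝒵 with ¬ 4 * #(acc σ ∩ Z) ≤ #Z, 4 * #(acc σ ∩ Z) := by
          apply Finset.sum_le_sum
          intro Z hZm
          rw [Finset.mem_filter] at hZm
          have := (hZ Z hZm.1).1
          omega
      _ ≤ ∑ Z ∈ 𝒵, 4 * #(acc σ ∩ Z) :=
          Finset.sum_le_sum_of_subset (Finset.filter_subset _ _)
      _ = _ := by rw [Finset.mul_sum]
  have hs := Finset.card_filter_add_card_filter_not (s := 𝒵)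
    (fun Z => 4 * #(acc σ ∩ Z) ≤ #Z)
  have h16 := hacc σ hσ
  have hkey : 2 * #{Z ∈ 𝒵 | ¬ 4 * #(acc σ ∩ Z) ≤ #Z} ≤ #𝒵 := by
    have h4 : 2 * #{Z ∈ 𝒵 | ¬ 4 * #(acc σ ∩ Z) ≤ #Z} * M ≤ #𝒵 * M := by
      have e1 : M * #𝒵 = #𝒵 * M := Nat.mul_comm _ _
      have e2 : 2 * #{Z ∈ 𝒵 | ¬ 4 * #(acc σ ∩ Z) ≤ #Z} * M
          = 2 * (#{Z ∈ 𝒵 | ¬ 4 * #(acc σ ∩ Z) ≤ #Z} * M) := Nat.mul_assoc _ _ _
      rw [e2]
      omega
    exact Nat.le_of_mul_le_mul_right h4 (by omega)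
  omega

/-- at most a quarter of the seeds is bad -/
theorem card_bad_seed {Ω K : Type*} [Fintype Ω] [DecidableEq K] (S : ℕ) (bad : Ω → Finset K)
    (h : 64 * ∑ ω : Ω, #(bad ω) ≤ Fintype.card Ω * S) :
    4 * #{ω : Ω | ¬ 16 * #(bad ω) ≤ S} ≤ Fintype.card Ω := by
  classical
  have h1 : #{ω : Ω | ¬ 16 * #(bad ω) ≤ S} * (S + 1) ≤ 16 * ∑ ω : Ω, #(bad ω) := by
    calc #{ω : Ω | ¬ 16 * #(bad ω) ≤ S} * (S + 1)
        = ∑ ω : Ω with ¬ 16 * #(bad ω) ≤ S, (S + 1) := by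
          rw [Finset.sum_const, smul_eq_mul]
      _ ≤ ∑ ω : Ω with ¬ 16 * #(bad ω) ≤ S, 16 * #(bad ω) := by
          apply Finset.sum_le_sum
          intro ω hω
          rw [Finset.mem_filter] at hω
          omega
      _ ≤ ∑ ω : Ω, 16 * #(bad ω) :=
          Finset.sum_le_sum_of_subset (Finset.filter_subset _ _)
      _ = _ := by rw [Finset.mul_sum]
  have h2 : (4 * #{ω : Ω | ¬ 16 * #(bad ω) ≤ S}) * (S + 1) ≤ Fintype.card Ω * (S + 1) := by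
    have e1 : (4 * #{ω : Ω | ¬ 16 * #(bad ω) ≤ S}) * (S + 1)
        = 4 * (#{ω : Ω | ¬ 16 * #(bad ω) ≤ S} * (S + 1)) := Nat.mul_assoc _ _ _
    have e2 : Fintype.card Ω * S ≤ Fintype.card Ω * (S + 1) :=
      Nat.mul_le_mul_left _ (Nat.le_succ S)
    rw [e1]
    omega
  exact Nat.le_of_mul_le_mul_right h2 (Nat.succ_pos S)

/-- fix the seed: `bad₁ ω σ` (`bad₂ ω σ`) is the set of the sums (non-sums) with a wrong answer -/
theorem exists_seed {Ω α K : Type*} [Fintype Ω] [Nonempty Ω] [DecidableEq α] [DecidableEq K]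
    (G : Finset α) (S N : Finset K) (bad₁ bad₂ : Ω → α → Finset K)
    (h1 : ∀ σ ∈ G, 64 * ∑ ω : Ω, #(bad₁ ω σ) ≤ Fintype.card Ω * #S)
    (h2 : ∀ σ ∈ G, 64 * ∑ ω : Ω, #(bad₂ ω σ) ≤ Fintype.card Ω * #N) :
    ∃ ω : Ω, #G ≤ 2 * #{σ ∈ G | 16 * #(bad₁ ω σ) ≤ #S ∧ 16 * #(bad₂ ω σ) ≤ #N} := by
  classical
  suffices hkey : ∀ σ ∈ G, #(Finset.univ : Finset Ω) ≤
      2 * #{ω ∈ (Finset.univ : Finset Ω) | 16 * #(bad₁ ω σ) ≤ #S ∧ 16 * #(bad₂ ω σ) ≤ #N} by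
    obtain ⟨ω, -, hω⟩ := exists_good G (Finset.univ : Finset Ω) Finset.univ_nonempty
      (fun σ ω => 16 * #(bad₁ ω σ) ≤ #S ∧ 16 * #(bad₂ ω σ) ≤ #N) hkey
    exact ⟨ω, hω⟩
  intro σ hσ
  have k1 := card_bad_seed #S (fun ω => bad₁ ω σ) (h1 σ hσ)
  have k2 := card_bad_seed #N (fun ω => bad₂ ω σ) (h2 σ hσ)
  have hs := Finset.card_filter_add_card_filter_not (s := (Finset.univ : Finset Ω))
    (fun ω => 16 * #(bad₁ ω σ) ≤ #S ∧ 16 * #(bad₂ ω σ) ≤ #N)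
  have hsub : #{ω : Ω | ¬ (16 * #(bad₁ ω σ) ≤ #S ∧ 16 * #(bad₂ ω σ) ≤ #N)} ≤
      #{ω : Ω | ¬ 16 * #(bad₁ ω σ) ≤ #S} + #{ω : Ω | ¬ 16 * #(bad₂ ω σ) ≤ #N} := by
    refine le_trans (Finset.card_le_card ?_) (Finset.card_union_le _ _)
    intro ω hω
    rw [Finset.mem_union, Finset.mem_filter, Finset.mem_filter]
    rw [Finset.mem_filter] at hω
    by_cases hb : 16 * #(bad₁ ω σ) ≤ #S
    · right
      exact ⟨Finset.mem_univ _, fun hc => hω.2 ⟨hb, hc⟩⟩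
    · left
      exact ⟨Finset.mem_univ _, hb⟩
  rw [Finset.card_univ] at hs ⊢
  omega

/-- fix the memory -/
theorem exists_memory {α A : Type*} [Fintype A] [DecidableEq A] [DecidableEq α] (G : Finset α)
    (prep : α → A) (hA : 1 ≤ Fintype.card A) :
    ∃ a : A, #G ≤ Fintype.card A * #{σ ∈ G | prep σ = a} := by
  classical
  have hne : (Finset.univ : Finset A).Nonempty := by
    rw [← Finset.card_pos, Finset.card_univ]
    omega
  by_contra hcon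
  push Not at hcon
  have h1 : #G = ∑ a : A, #{σ ∈ G | prep σ = a} :=
    Finset.card_eq_sum_card_fiberwise (fun _ _ => Finset.mem_coe.2 (Finset.mem_univ _))
  have h2 : ∑ a : A, Fintype.card A * #{σ ∈ G | prep σ = a} < ∑ _a : A, #G :=
    Finset.sum_lt_sum_of_nonempty hne (fun a _ => hcon a)
  rw [← Finset.mul_sum, ← h1, Finset.sum_const, smul_eq_mul, Finset.card_univ] at h2
  exact lt_irrefl _ h2

/-- fix the labels of the constant positions `C₀` -/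
theorem exists_const {K L : Type} [Fintype K] [DecidableEq K] [Fintype L] [DecidableEq L]
    (G : Finset (K ≃ L)) (hG : G.Nonempty) (C₀ : Finset K) :
    ∃ σ₀ ∈ G, #G * #{σ : K ≃ L | ∀ y ∈ C₀, σ y = σ₀ y} ≤
      Fintype.card (K ≃ L) * #{σ ∈ G | ∀ y ∈ C₀, σ y = σ₀ y} := by
  classical
  by_contra hcon
  push Not at hcon
  -- the restriction to `C₀`
  let r : (K ≃ L) → (C₀ → L) := fun σ y => σ y.1
  have hr : ∀ σ σ₀ : K ≃ L, (∀ y ∈ C₀, σ y = σ₀ y) ↔ r σ = r σ₀ := by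
    intro σ σ₀
    constructor
    · intro h
      funext y
      exact h y.1 y.2
    · intro h y hy
      exact congrFun h ⟨y, hy⟩
  have hne : (G.image r).Nonempty := hG.image r
  have h1 : ∑ c ∈ G.image r, Fintype.card (K ≃ L) * #{σ ∈ G | r σ = c} <
      ∑ c ∈ G.image r, #G * #{σ : K ≃ L | r σ = c} := by
    apply Finset.sum_lt_sum_of_nonempty hne
    intro c hc
    rw [Finset.mem_image] at hc
    obtain ⟨σ₀, hσ₀, rfl⟩ := hc
    have := hcon σ₀ hσ₀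
    simp only [hr] at this
    exact this
  rw [← Finset.mul_sum, ← Finset.mul_sum] at h1
  have h2 : ∑ c ∈ G.image r, #{σ ∈ G | r σ = c} = #G :=
    (Finset.card_eq_sum_card_fiberwise (fun σ hσ => Finset.mem_coe.2
      (Finset.mem_image_of_mem r (Finset.mem_coe.1 hσ)))).symm
  have h3 : ∑ c ∈ G.image r, #{σ : K ≃ L | r σ = c} ≤ Fintype.card (K ≃ L) := by
    rw [← Finset.card_univ, Finset.card_eq_sum_card_fiberwise (s := (Finset.univ : Finset (K ≃ L)))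
      (t := (Finset.univ : Finset (C₀ → L))) (f := r)
      (fun _ _ => Finset.mem_coe.2 (Finset.mem_univ _))]
    exact Finset.sum_le_sum_of_subset (Finset.subset_univ _)
  rw [h2] at h1
  have h4 := Nat.mul_le_mul_left #G h3
  have h5 : #G * Fintype.card (K ≃ L) = Fintype.card (K ≃ L) * #G := Nat.mul_comm _ _
  omega

end Pool.Agent.GGA
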