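import Mathlib
import Pool.Agent.GGX.Sel
import Pool.Agent.GGA.Model
import Pool.Agent.GGA.Main
import Pool.Agent.GGA.P3
import Pool.Agent.GGA.P4

/-!
The bound for a fixed set of sums.
-/

namespace Pool.Agent.GGA

open Finset Pool.Agent.GGX

/-- the numerical conditions -/
theorem fix_num (n q t s h₁ x c k : ℕ) (hh₁ : 200 * h₁ ≤ n ^ 2)
    (hqt : 200 * (q + 1 + 3 * t) ≤ n) (hcon : 20000 * (t + 1) * (s + 1) < n ^ 2)
    (hx : n ^ 2 ≤ x + h₁ + (q + 1) ^ 2) (hc : c ≤ q + 1) (hk : k ≤ q + 1) :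
    20 * (10 * (3 * t + 1) * (s + 3) + c + h₁ + 6 * t * k + (k + 3 * t) ^ 2 + 3 * t) ≤ x ∧
    200 * (10 * (3 * t + 1) * (s + 3) + 3 * t * (c + 10 * (3 * t + 1) * (s + 3) * (k + 1) +
      k + 3 * t)) ≤ n ^ 4 ∧
    200 * (3 * t * ((c + 10 * (3 * t + 1) * (s + 3) * (k + 1)) + k + 3 * t) +
      (k * (c + 10 * (3 * t + 1) * (s + 3) * (k + 1)) + k ^ 2)) ≤ n ^ 20 ∧
    16 * x ≥ 15 * n ^ 2 := by
  have hn : 200 ≤ n := by omega
  have hkk : 200 * (10 * (3 * t + 1) * (s + 3)) ≤ n ^ 2 := by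
    have h1 : (3 * t + 1) * (s + 3) ≤ 9 * ((t + 1) * (s + 1)) := by
      nlinarith [Nat.zero_le (t * s), Nat.zero_le t, Nat.zero_le s]
    have h2 : 20000 * ((t + 1) * (s + 1)) < n ^ 2 := by
      calc 20000 * ((t + 1) * (s + 1)) = 20000 * (t + 1) * (s + 1) := by ring
        _ < n ^ 2 := hcon
    calc 200 * (10 * (3 * t + 1) * (s + 3)) = 2000 * ((3 * t + 1) * (s + 3)) := by ring
      _ ≤ 2000 * (9 * ((t + 1) * (s + 1))) := Nat.mul_le_mul_left _ h1
      _ ≤ n ^ 2 := by omega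
  set kk := 10 * (3 * t + 1) * (s + 3) with hkkdef
  have hn2 : 200 * n ≤ n ^ 2 := by nlinarith
  have hm : 200 * (q + 1 + 3 * t) ≤ n := hqt
  have hm2 : 40000 * (q + 1 + 3 * t) ^ 2 ≤ n ^ 2 := by
    calc 40000 * (q + 1 + 3 * t) ^ 2 = (200 * (q + 1 + 3 * t)) ^ 2 := by ring
      _ ≤ n ^ 2 := Nat.pow_le_pow_left hm 2
  have hq2 : (q + 1) ^ 2 ≤ (q + 1 + 3 * t) ^ 2 := Nat.pow_le_pow_left (by omega) 2
  have hk2 : (k + 3 * t) ^ 2 ≤ (q + 1 + 3 * t) ^ 2 := Nat.pow_le_pow_left (by omega) 2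
  have htk : 6 * t * k ≤ 2 * (q + 1 + 3 * t) ^ 2 := by
    have h1 : 3 * t ≤ q + 1 + 3 * t := by omega
    have h2 : k ≤ q + 1 + 3 * t := by omega
    calc 6 * t * k = 2 * (3 * t * k) := by ring
      _ ≤ 2 * ((q + 1 + 3 * t) * (q + 1 + 3 * t)) :=
          Nat.mul_le_mul_left _ (Nat.mul_le_mul h1 h2)
      _ = 2 * (q + 1 + 3 * t) ^ 2 := by ring
  refine ⟨by omega, ?_, ?_, by omega⟩
  · have h1 : c + k + 3 * t ≤ n := by omega
    have h2 : k + 1 ≤ n := by omega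
    have h3 : 3 * t ≤ n := by omega
    have h4 : kk * (k + 1) ≤ kk * n := Nat.mul_le_mul_left _ h2
    have h5 : 3 * t * (c + kk * (k + 1) + k + 3 * t) ≤ 3 * t * (n + kk * n) :=
      Nat.mul_le_mul_left _ (by omega)
    have h6 : 200 * (3 * t) ≤ n := by omega
    have h7 : 200 * (3 * t * (n + kk * n)) ≤ n * (n + kk * n) := by
      calc 200 * (3 * t * (n + kk * n)) = 200 * (3 * t) * (n + kk * n) := by ring
        _ ≤ n * (n + kk * n) := Nat.mul_le_mul_right _ h6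
    have h8 : 200 * (n * (n + kk * n)) ≤ 200 * n ^ 2 + n ^ 2 * n ^ 2 := by
      calc 200 * (n * (n + kk * n)) = 200 * n ^ 2 + n ^ 2 * (200 * kk) := by ring
        _ ≤ 200 * n ^ 2 + n ^ 2 * n ^ 2 := Nat.add_le_add_left (Nat.mul_le_mul_left _ hkk) _
    have h9 : n ^ 2 * n ^ 2 = n ^ 4 := by ring
    have h10 : 40000 * n ^ 2 ≤ n ^ 4 := by
      calc 40000 * n ^ 2 = (200 * 200) * n ^ 2 := by ring
        _ ≤ (n * n) * n ^ 2 := Nat.mul_le_mul_right _ (Nat.mul_le_mul hn hn)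
        _ = n ^ 4 := by ring
    omega
  · have h1 : c + k + 3 * t ≤ n := by omega
    have h2 : k + 1 ≤ n := by omega
    have h3 : 3 * t ≤ n := by omega
    have h4 : kk * (k + 1) ≤ kk * n := Nat.mul_le_mul_left _ h2
    have h5 : kk ≤ n ^ 2 := by omega
    have h6 : kk * n ≤ n ^ 2 * n := Nat.mul_le_mul_right _ h5
    have h7 : n ^ 2 * n = n ^ 3 := by ring
    have hn3 : n ≤ n ^ 3 := by
      calc n = n ^ 1 := (pow_one n).symm
        _ ≤ n ^ 3 := Nat.pow_le_pow_right (by omega) (by omega)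
    have h8 : 3 * t * ((c + kk * (k + 1)) + k + 3 * t) ≤ n * (2 * n ^ 3) :=
      Nat.mul_le_mul h3 (by omega)
    have h9 : k * (c + kk * (k + 1)) ≤ n * (2 * n ^ 3) := Nat.mul_le_mul (by omega) (by omega)
    have h10 : k ^ 2 ≤ n ^ 2 := Nat.pow_le_pow_left (by omega) 2
    have h11 : n * (2 * n ^ 3) = 2 * n ^ 4 := by ring
    have h12 : n ^ 2 ≤ n ^ 4 := Nat.pow_le_pow_right (by omega) (by omega)
    have h13 : 1000 * n ^ 4 ≤ n ^ 6 := by
      calc 1000 * n ^ 4 ≤ (200 * 200) * n ^ 4 := Nat.mul_le_mul_right _ (by norm_num)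
        _ ≤ (n * n) * n ^ 4 := Nat.mul_le_mul_right _ (Nat.mul_le_mul hn hn)
        _ = n ^ 6 := by ring
    have h14 : n ^ 6 ≤ n ^ 20 := Nat.pow_le_pow_right (by omega) (by omega)
    omega

open Classical in
/-- `S` is the set of the sums.  Proof: `exists_seed` fixes `ω`, `exists_memory` the memory content
`a`; `Q` := the non-constant forms among `(1,0)` and `first ω a j`, `C₀` := the constant positions;
`exists_const` fixes the labels of `C₀` (`πc := C₀.image fun y => (y, σ₀ y)`); `X ⊆ S` from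
`select` (GGX.Sel) for the forms `(1,0)`, `first ω a j` (`B := h₁`); `exists_family` with
`M := n ^ 4`; `exists_class` gives `Z`; if the conclusion fails, `main_lemma` with
`ι := {x // x ∈ Q}`, `r := Subtype.val`, `s := s + 3` gives `False`. -/
theorem fixed {K L : Type} [Field K] [Fintype K] [DecidableEq K]
    [Fintype L] [DecidableEq L] (hKL : Fintype.card K = Fintype.card L)
    (S : Finset K) (n q t s e h₁ : ℕ) (hS : #S = n ^ 2)
    (hconf : ∀ Q : Finset (K × K), #Q ≤ q + 1 + 3 * t →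
      #{x ∈ S | ∃ x' ∈ S, x' ≠ x ∧ Conf Q x x'} ≤ h₁)
    (hh₁ : 200 * h₁ ≤ n ^ 2) (hqt : 200 * (q + 1 + 3 * t) ≤ n)
    (Adv Ω : Type) [Fintype Adv] [Fintype Ω] [Nonempty Ω] (hs : Fintype.card Adv ≤ 2 ^ s)
    (D : DataStructure K L Adv Ω q) (hD : D.Time t)
    (G : Finset (K ≃ L)) (hG : Fintype.card (K ≃ L) ≤ 2 ^ e * #G)
    (h1 : ∀ σ ∈ G, 64 * ∑ ω : Ω, #{x ∈ S | D.answer ω σ x = false} ≤ Fintype.card Ω * #S)
    (h2 : ∀ σ ∈ G, 64 * ∑ ω : Ω, #{z ∈ Sᶜ | D.answer ω σ z = true} ≤ Fintype.card Ω * #Sᶜ)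
    (hp : n ^ 20 ≤ Fintype.card K) :
    n ^ 2 ≤ 20000 * (t + 1) * (s + e + 1) := by
  by_contra hcon
  push Not at hcon
  have hn : 200 ≤ n := by omega
  -- the seed
  obtain ⟨ω, hω⟩ := exists_seed G S Sᶜ (fun ω σ => {x ∈ S | D.answer ω σ x = false})
    (fun ω σ => {z ∈ Sᶜ | D.answer ω σ z = true}) h1 h2
  set G1 : Finset (K ≃ L) := {σ ∈ G | 16 * #{x ∈ S | D.answer ω σ x = false} ≤ #S ∧
    16 * #{z ∈ Sᶜ | D.answer ω σ z = true} ≤ #Sᶜ} with hG1def
  have hEq : 0 < Fintype.card (K ≃ L) := Fintype.card_pos_iff.mpr ⟨Fintype.equivOfCardEq hKL⟩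
  have hG1 : Fintype.card (K ≃ L) ≤ 4 * 2 ^ e * #G1 := by
    calc Fintype.card (K ≃ L) ≤ 2 ^ e * #G := hG
      _ ≤ 2 ^ e * (2 * #G1) := Nat.mul_le_mul_left _ hω
      _ = 2 * 2 ^ e * #G1 := by ring
      _ ≤ 4 * 2 ^ e * #G1 := by gcongr; norm_num
  -- the memory content
  have hA : 1 ≤ Fintype.card Adv :=
    Fintype.card_pos_iff.mpr ⟨D.prep (Fintype.equivOfCardEq hKL)⟩
  obtain ⟨a, ha⟩ := exists_memory G1 D.prep hA
  set G2 : Finset (K ≃ L) := {σ ∈ G1 | D.prep σ = a} with hG2def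
  have hG2 : 0 < #G2 := by
    rcases Nat.eq_zero_or_pos #G2 with h | h
    · rw [h, Nat.mul_zero] at ha
      have hz : #G1 = 0 := by omega
      rw [hz, Nat.mul_zero] at hG1
      omega
    · exact h
  -- the forms
  let fm : Fin q → K × K := D.first ω a
  let Qall : Finset (K × K) := insert ((1 : K), (0 : K)) (univ.image fm)
  let Q : Finset (K × K) := Qall.filter fun r => r.1 ≠ 0
  let C₀ : Finset K := (Qall.filter fun r => r.1 = 0).image Prod.snd
  have hQall : #Qall ≤ q + 1 := by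
    refine (card_insert_le _ _).trans ?_
    have : #(univ.image fm) ≤ q := card_image_le.trans (by simp)
    omega
  have hQc : #Q ≤ q + 1 := (card_filter_le _ _).trans hQall
  have hC₀ : #C₀ ≤ q + 1 := card_image_le.trans ((card_filter_le _ _).trans hQall)
  have h10 : ((1 : K), (0 : K)) ∈ Q :=
    mem_filter.mpr ⟨mem_insert_self _ _, one_ne_zero⟩
  have hfm : ∀ j, fm j ∈ Qall := fun j => mem_insert_of_mem (mem_image_of_mem _ (mem_univ j))
  have hfmQ : ∀ j, (fm j).1 ≠ 0 → fm j ∈ Q := fun j h => mem_filter.mpr ⟨hfm j, h⟩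
  have hfmC : ∀ j, (fm j).1 = 0 → (fm j).2 ∈ C₀ := fun j h =>
    mem_image_of_mem _ (mem_filter.mpr ⟨hfm j, h⟩)
  have hQne : ∀ r ∈ Q, r.1 ≠ 0 := fun r hr => (mem_filter.mp hr).2
  -- the labels of the constant positions
  obtain ⟨σ₀, hσ₀, hcst⟩ := exists_const G2 (card_pos.mp hG2) C₀
  set G3 : Finset (K ≃ L) := {σ ∈ G2 | ∀ y ∈ C₀, σ y = σ₀ y} with hG3def
  let πc : Finset (K × L) := C₀.image fun y => (y, σ₀ y)
  have hπc : #πc ≤ q + 1 := card_image_le.trans hC₀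
  have hext : ext πc = (univ : Finset (K ≃ L)).filter fun σ => ∀ y ∈ C₀, σ y = σ₀ y := by
    ext σ
    rw [mem_ext, mem_filter]
    constructor
    · intro h
      exact ⟨mem_univ _, fun y hy => h (y, σ₀ y) (mem_image_of_mem _ hy)⟩
    · rintro ⟨-, h⟩ p hp
      obtain ⟨y, hy, rfl⟩ := mem_image.mp hp
      exact h y hy
  have hextc : #(ext πc) ≤ 4 * 2 ^ (s + e) * #G3 := by
    rw [← hext] at hcst
    have h3 : #G2 * #(ext πc) ≤ #G2 * (4 * 2 ^ (s + e) * #G3) := by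
      calc #G2 * #(ext πc) ≤ Fintype.card (K ≃ L) * #G3 := hcst
        _ ≤ 4 * 2 ^ e * #G1 * #G3 := Nat.mul_le_mul_right _ hG1
        _ ≤ 4 * 2 ^ e * (Fintype.card Adv * #G2) * #G3 :=
            Nat.mul_le_mul_right _ (Nat.mul_le_mul_left _ ha)
        _ ≤ 4 * 2 ^ e * (2 ^ s * #G2) * #G3 :=
            Nat.mul_le_mul_right _ (Nat.mul_le_mul_left _ (Nat.mul_le_mul_right _ hs))
        _ = #G2 * (4 * 2 ^ (s + e) * #G3) := by rw [pow_add]; ring
    exact Nat.le_of_mul_le_mul_left h3 hG2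
  have hextpos : 0 < #(ext πc) := by
    rw [card_pos]
    refine ⟨σ₀, ?_⟩
    rw [hext, mem_filter]
    exact ⟨mem_univ _, fun y _ => rfl⟩
  have hG3 : 0 < #G3 := by
    rcases Nat.eq_zero_or_pos #G3 with h | h
    · rw [h, Nat.mul_zero] at hextc
      omega
    · exact h
  -- the sums
  obtain ⟨X, W, hXW, hWS, hXc, -, hself, hconfW⟩ := select S Qall h₁
    (hconf Qall (by omega))
  have hXS : X ⊆ S := fun x hx => (hWS x (hXW hx)).mpr hx
  have hXcard : n ^ 2 ≤ #X + h₁ + (q + 1) ^ 2 := by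
    have : #Qall ^ 2 ≤ (q + 1) ^ 2 := Nat.pow_le_pow_left hQall 2
    omega
  obtain ⟨H1, H2, H3, H4⟩ := fix_num n q t (s + e) h₁ #X #πc #Q hh₁ hqt hcon hXcard hπc hQc
  -- the non-sums
  have hScard : n ^ 2 ≤ n ^ 18 := Nat.pow_le_pow_right (by omega) (by omega)
  have hp18 : 40000 * n ^ 18 ≤ n ^ 20 := by
    calc 40000 * n ^ 18 = (200 * 200) * n ^ 18 := by ring
      _ ≤ (n * n) * n ^ 18 := Nat.mul_le_mul_right _ (Nat.mul_le_mul hn hn)
      _ = n ^ 20 := by ring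
  have hcompl : #Sᶜ = Fintype.card K - n ^ 2 := by rw [card_compl, hS]
  have hq1 : q + 1 ≤ n := by omega
  have hR : #S + n ^ 4 + #Q * #C₀ + #Q ^ 2 + #S * #Q ^ 2 + n ^ 4 * #Q ^ 2 +
      (n ^ 4) ^ 2 * #S ^ 3 * #Q ^ 3 < n ^ 18 := by
    have e1 : #Q ≤ n := hQc.trans hq1
    have e2 : #C₀ ≤ n := hC₀.trans hq1
    have e3 : #Q * #C₀ ≤ n * n := Nat.mul_le_mul e1 e2
    have e4 : #Q ^ 2 ≤ n ^ 2 := Nat.pow_le_pow_left e1 2
    have e5 : #Q ^ 3 ≤ n ^ 3 := Nat.pow_le_pow_left e1 3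
    have e6 : #S * #Q ^ 2 ≤ n ^ 2 * n ^ 2 := by
      rw [hS]
      exact Nat.mul_le_mul_left _ e4
    have e7 : n ^ 4 * #Q ^ 2 ≤ n ^ 4 * n ^ 2 := Nat.mul_le_mul_left _ e4
    have e8 : (n ^ 4) ^ 2 * #S ^ 3 * #Q ^ 3 ≤ (n ^ 4) ^ 2 * (n ^ 2) ^ 3 * n ^ 3 := by
      rw [hS]
      exact Nat.mul_le_mul_left _ e5
    have e9 : (n ^ 4) ^ 2 * (n ^ 2) ^ 3 * n ^ 3 = n ^ 17 := by ring
    have f1 : n * n ≤ n ^ 17 := by
      calc n * n = n ^ 2 := by ring
        _ ≤ n ^ 17 := Nat.pow_le_pow_right (by omega) (by omega)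
    have f2 : n ^ 2 ≤ n ^ 17 := Nat.pow_le_pow_right (by omega) (by omega)
    have f3 : n ^ 4 ≤ n ^ 17 := Nat.pow_le_pow_right (by omega) (by omega)
    have f4 : n ^ 2 * n ^ 2 ≤ n ^ 17 := by
      calc n ^ 2 * n ^ 2 = n ^ 4 := by ring
        _ ≤ n ^ 17 := f3
    have f5 : n ^ 4 * n ^ 2 ≤ n ^ 17 := by
      calc n ^ 4 * n ^ 2 = n ^ 6 := by ring
        _ ≤ n ^ 17 := Nat.pow_le_pow_right (by omega) (by omega)
    have f6 : 200 * n ^ 17 ≤ n ^ 18 := by
      calc 200 * n ^ 17 ≤ n * n ^ 17 := Nat.mul_le_mul_right _ hn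
        _ = n ^ 18 := by ring
    have f7 : 0 < n ^ 17 := by positivity
    omega
  obtain ⟨𝒵, hnice, hdisj, hcov⟩ := exists_family X S C₀ hXS Q hQne (n ^ 4) (n ^ 18)
    (Nat.one_le_pow _ _ (by omega)) hR
  have hclsN : #Sᶜ ≤ 2 * (n ^ 4 * #𝒵) := by omega
  obtain ⟨Z, hZ𝒵, hZG⟩ := exists_class G3
    (fun σ => (univ : Finset K).filter fun z => D.answer ω σ z = true) Sᶜ
    (by
      intro σ hσ
      have hσ1 : σ ∈ G1 := (mem_filter.mp (mem_filter.mp hσ).1).1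
      have h3 := (mem_filter.mp hσ1).2.2
      have h4 : ((univ : Finset K).filter fun z => D.answer ω σ z = true) ∩ Sᶜ =
          {z ∈ Sᶜ | D.answer ω σ z = true} := by
        ext z
        simp only [mem_inter, mem_filter, mem_univ, true_and]
        exact and_comm
      rw [h4]
      exact h3)
    𝒵 (n ^ 4) (Nat.one_le_pow _ _ (by omega))
    (fun Z hZ => ⟨(hnice Z hZ).card, by
      intro z hz
      rw [mem_compl]
      exact fun h => (disjoint_left.mp (hnice Z hZ).disj) hz h⟩)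
    hdisj hclsN (by omega)
  have hZn := hnice Z hZ𝒵
  set 𝓕 : Finset (K ≃ L) := {σ ∈ G3 |
    4 * #(((univ : Finset K).filter fun z => D.answer ω σ z = true) ∩ Z) ≤ #Z} with h𝓕def
  -- the program
  let P : ({x // x ∈ Q} → L) → Prog K L := fun β =>
    D.query ω a (β ⟨((1 : K), (0 : K)), h10⟩)
      (fun j => if h : (fm j).1 ≠ 0 then β ⟨fm j, hfmQ j h⟩ else σ₀ (fm j).2)
  have hPans : ∀ σ ∈ G3, ∀ z : K,
      (P fun j => σ (fv j.1 z)).run σ = D.answer ω σ z := by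
    intro σ hσ z
    have hσ2 : σ ∈ G2 := (mem_filter.mp hσ).1
    have hprep : D.prep σ = a := (mem_filter.mp hσ2).2
    have hC : ∀ y ∈ C₀, σ y = σ₀ y := (mem_filter.mp hσ).2
    unfold DataStructure.answer
    rw [hprep]
    have e1 : σ (fv ((1 : K), (0 : K)) z) = σ z := by simp [fv]
    have e2 : (fun j => if h : (fm j).1 ≠ 0 then σ (fv (fm j) z) else σ₀ (fm j).2) =
        fun j => σ (fv (D.first ω a j) z) := by
      funext j
      by_cases h : (fm j).1 ≠ 0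
      · rw [dif_pos h]
      · have h' : (fm j).1 = 0 := by simpa using h
        rw [dif_neg h, ← hC _ (hfmC j h')]
        have : fv (D.first ω a j) z = (fm j).2 := by
          show (fm j).1 * z + (fm j).2 = (fm j).2
          rw [h', zero_mul, zero_add]
        rw [this]
    show (D.query ω a (σ (fv ((1 : K), (0 : K)) z))
      (fun j => if h : (fm j).1 ≠ 0 then σ (fv (fm j) z) else σ₀ (fm j).2)).run σ = _
    rw [e1, e2]
  have h𝓕G : ∀ σ ∈ 𝓕, σ ∈ G3 := fun σ hσ => (mem_filter.mp hσ).1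
  have hXZ : Disjoint X Z := by
    rw [disjoint_left]
    intro x hx hz
    exact (disjoint_left.mp hZn.disj) hz (hXS hx)
  have hQsub : ∀ r ∈ Q, r ∈ Qall := fun r hr => (mem_filter.mp hr).1
  refine main_lemma (F := K) (L := L) hKL (ι := {x // x ∈ Q}) (fun j => j.1)
    (fun j => hQne j.1 j.2) Subtype.val_injective X Z hXZ πc ?_ ?_ ?_ t h₁ ?_ ?_ P ?_ 𝓕 ?_
    (s + e + 3) ?_ ?_ ?_ ?_ ?_ ?_ (10 * (3 * t + 1) * (s + e + 3)) rfl ?_ ?_ ?_
  · -- different elements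
    intro w hw w' hw' hne i j heq
    rcases mem_union.mp hw with hw | hw
    · rcases mem_union.mp hw' with hw' | hw'
      · exact hconfW w (hXW hw) w' (hXW hw') hne
          ⟨i.1, hQsub _ i.2, j.1, hQsub _ j.2, hQne _ i.2, hQne _ j.2, heq⟩
      · exact hZn.conf w' hw' w (mem_union_left _ hw) hne.symm j.1 j.2 i.1 i.2 heq.symm
    · exact hZn.conf w hw w' hw' hne i.1 i.2 j.1 j.2 heq
  · -- different forms
    intro w hw i j hne heq
    have hij : i.1 ≠ j.1 := fun h => hne (Subtype.ext h)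
    rcases mem_union.mp hw with hw | hw
    · by_cases hc : i.1.1 = j.1.1
      · apply hij
        refine Prod.ext hc ?_
        have h3 : i.1.1 * w + i.1.2 = j.1.1 * w + j.1.2 := heq
        rw [hc] at h3
        exact add_left_cancel h3
      · exact hself w (hXW hw) ⟨i.1, hQsub _ i.2, j.1, hQsub _ j.2, hc, heq⟩
    · exact hZn.self w hw i.1 i.2 j.1 j.2 hij heq
  · -- the constant positions
    intro w hw j hmem
    obtain ⟨p, hp, hpe⟩ := mem_image.mp hmem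
    obtain ⟨y, hy, rfl⟩ := mem_image.mp hp
    simp only at hpe
    rcases mem_union.mp hw with hw | hw
    · obtain ⟨r0, hr0, hr0e⟩ := mem_image.mp hy
      obtain ⟨hr1, hr2⟩ := mem_filter.mp hr0
      refine hself w (hXW hw) ⟨j.1, hQsub _ j.2, r0, hr1, ?_, ?_⟩
      · rw [hr2]
        exact hQne _ j.2
      · rw [hr2, zero_mul, zero_add, hr0e]
        exact hpe.symm
    · exact hZn.const w hw j.1 j.2 (hpe ▸ hy)
  · -- conflicts of sums
    intro Q' hQ' Y hY hYc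
    have hcard : #Q' ≤ q + 1 + 3 * t := by
      rw [Fintype.card_coe] at hQ'
      omega
    refine le_trans (card_le_card ?_) (hconf Q' hcard)
    intro x hx
    obtain ⟨x', hx', hne, hc⟩ := hYc x hx
    exact mem_filter.mpr ⟨hXS (hY hx), x', hXS hx', hne, hc⟩
  · -- meetings with non-sums
    intro c hc Y hY hYc
    refine le_trans (card_le_card ?_) (hZn.meet c hc)
    intro z hz
    obtain ⟨x, hx, j, hj⟩ := hYc z hz
    exact mem_filter.mpr ⟨hY hz, x, hx, j.1, j.2, hj⟩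
  · intro β
    exact hD ω a _ _
  · -- nonempty
    rw [← card_pos]
    omega
  · intro σ hσ
    rw [hext, mem_filter]
    exact ⟨mem_univ _, (mem_filter.mp (h𝓕G σ hσ)).2⟩
  · -- large
    calc #(ext πc) ≤ 4 * 2 ^ (s + e) * #G3 := hextc
      _ ≤ 4 * 2 ^ (s + e) * (2 * #𝓕) := Nat.mul_le_mul_left _ hZG
      _ = 2 ^ (s + e + 3) * #𝓕 := by
          rw [pow_add _ (s + e) 3]
          ring
  · -- few rejected sums
    intro σ hσ
    have hσ3 := h𝓕G σ hσ
    have hσ1 : σ ∈ G1 := (mem_filter.mp (mem_filter.mp hσ3).1).1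
    have h3 := (mem_filter.mp hσ1).2.1
    have h4 : #{x ∈ X | (P fun j => σ (fv j.1 x)).run σ = false} ≤
        #{x ∈ S | D.answer ω σ x = false} := by
      apply card_le_card
      intro x hx
      obtain ⟨hx1, hx2⟩ := mem_filter.mp hx
      rw [hPans σ hσ3] at hx2
      exact mem_filter.mpr ⟨hXS hx1, hx2⟩
    rw [hS] at h3
    omega
  · -- few accepted non-sums
    intro σ hσ
    have hσ3 := h𝓕G σ hσ
    have h3 := (mem_filter.mp hσ).2
    have h4 : #{z ∈ Z | (P fun j => σ (fv j.1 z)).run σ = true} ≤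
        #(((univ : Finset K).filter fun z => D.answer ω σ z = true) ∩ Z) := by
      apply card_le_card
      intro z hz
      obtain ⟨hz1, hz2⟩ := mem_filter.mp hz
      rw [hPans σ hσ3] at hz2
      exact mem_inter.mpr ⟨mem_filter.mpr ⟨mem_univ _, hz2⟩, hz1⟩
    omega
  · have : 0 < n ^ 2 := by positivity
    omega
  · rw [hZn.card]
    exact Nat.one_le_pow _ _ (by omega)
  · rw [Fintype.card_coe]
    exact H1
  · rw [Fintype.card_coe, hZn.card]
    exact H2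
  · rw [Fintype.card_coe, ← hKL]
    exact H3.trans hp

end Pool.Agent.GGA
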