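import Mathlib
import Pool.Agent.GGX.Sel
import Pool.Agent.GGA.Main

/-!
The main lemma with the mean error below 1/2: a fixed query algorithm (block of non-constant
forms, then an adaptive program).
-/

namespace Pool.Agent.GGA

open Finset Pool.Agent.GGX

theorem gamma_pow_ge2 (κ m : ℕ) (hκ : 1 ≤ κ) :
    1 - 1 / (κ : ℝ) ≤ (1 - 1 / ((κ * (m + 1) : ℕ) : ℝ)) ^ (m + 1) := by
  have hκ0 : (0 : ℝ) < κ := by exact_mod_cast hκ
  have h := one_add_mul_le_pow (a := -(1 / ((κ * (m + 1) : ℕ) : ℝ))) (by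
    have h0 : (1 : ℝ) ≤ ((κ * (m + 1) : ℕ) : ℝ) := by
      have : 1 ≤ κ * (m + 1) := Nat.mul_pos hκ (by omega)
      exact_mod_cast this
    have h1 : 1 / ((κ * (m + 1) : ℕ) : ℝ) ≤ 1 := by
      rw [div_le_one (by linarith)]; exact h0
    linarith) (m + 1)
  refine le_trans (le_of_eq ?_) h
  have : ((m : ℝ) + 1) ≠ 0 := by positivity
  push_cast
  field_simp
  ring

/-- the mean of the number of the `x ∈ Y` with the answer `!b` over the `σ ∈ 𝓕` extending `π₀` -/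
noncomputable def mErr {F L : Type} [Fintype F] [DecidableEq F] [Fintype L] [DecidableEq L]
    (𝓕 : Finset (F ≃ L)) (π₀ : Finset (F × L)) (ans : F → (F ≃ L) → Bool) (b : Bool)
    (Y : Finset F) : ℝ :=
  wt (fun σ => indS 𝓕 σ * (#{x ∈ Y | ans x σ = !b} : ℝ)) π₀ / wt (indS 𝓕) π₀

/-- one side of the comparison -/
theorem side2 {F L : Type} [Fintype F] [DecidableEq F] [Fintype L] [DecidableEq L]
    (𝓕 : Finset (F ≃ L)) (π₀ : Finset (F × L)) (hf0 : 0 < wt (indS 𝓕) π₀)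
    (he0 : 0 < wt (fun _ => (1 : ℝ)) π₀)
    (ans : F → (F ≃ L) → Bool) (b : Bool) (ρ : ℝ) (Y : Finset F)
    (A : ℝ)
    (htr : ∀ x ∈ Y, ρ * wt (fun σ => indS 𝓕 σ * indB (ans x) b σ) π₀ *
      wt (fun _ => (1 : ℝ)) π₀ ≤ wt (indS 𝓕) π₀ * wt (indB (ans x) b) π₀)
    (hA : A ≤ ∑ x ∈ Y, wt (indB (ans x) (!b)) π₀ / wt (fun _ => (1 : ℝ)) π₀) :
    A ≤ #Y - ρ * (#Y - mErr 𝓕 π₀ ans b Y) := by
  have hsum1 : ∀ x, wt (indB (ans x) b) π₀ / wt (fun _ => (1 : ℝ)) π₀ +
      wt (indB (ans x) (!b)) π₀ / wt (fun _ => (1 : ℝ)) π₀ = 1 := by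
    intro x
    rw [← add_div, div_eq_one_iff_eq he0.ne']
    unfold wt
    rw [← sum_add_distrib]
    refine sum_congr rfl fun σ _ => ?_
    simp only [indB]
    cases ans x σ <;> cases b <;> simp
  set E : ℝ := mErr 𝓕 π₀ ans b Y with hE
  have hEe : wt (indS 𝓕) π₀ * E = wt (fun σ => indS 𝓕 σ * (#{x ∈ Y | ans x σ = !b} : ℝ)) π₀ := by
    rw [hE, mErr, mul_div_cancel₀ _ hf0.ne']
  -- the sum of the transferred weights
  have h1 : wt (indS 𝓕) π₀ * (#Y - E) =
      ∑ x ∈ Y, wt (fun σ => indS 𝓕 σ * indB (ans x) b σ) π₀ := by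
    rw [mul_sub, hEe]
    unfold wt
    rw [sum_comm, sum_mul, ← sum_sub_distrib]
    refine sum_congr rfl fun σ _ => ?_
    rw [← mul_sum, ← mul_sub]
    congr 1
    have h3 := card_filter_add_card_filter_not (s := Y) (fun x => ans x σ = !b)
    have h4 : ∑ x ∈ Y, indB (ans x) b σ = (#{x ∈ Y | ¬ ans x σ = !b} : ℝ) := by
      rw [card_filter]
      push_cast
      refine sum_congr rfl fun x _ => ?_
      simp only [indB]
      cases ans x σ <;> cases b <;> simp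
    rw [h4, ← h3]
    push_cast
    ring
  have h2 : ρ * (∑ x ∈ Y, wt (fun σ => indS 𝓕 σ * indB (ans x) b σ) π₀) *
      wt (fun _ => (1 : ℝ)) π₀ ≤ wt (indS 𝓕) π₀ * ∑ x ∈ Y, wt (indB (ans x) b) π₀ := by
    rw [mul_sum, sum_mul, mul_sum]
    exact sum_le_sum htr
  have h3 : wt (indS 𝓕) π₀ * (ρ * (#Y - E) * wt (fun _ => (1 : ℝ)) π₀) ≤
      wt (indS 𝓕) π₀ * ∑ x ∈ Y, wt (indB (ans x) b) π₀ := by
    refine le_trans (le_of_eq ?_) h2
    rw [← h1]
    ring
  have h4 : ρ * (#Y - E) * wt (fun _ => (1 : ℝ)) π₀ ≤ ∑ x ∈ Y, wt (indB (ans x) b) π₀ :=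
    le_of_mul_le_mul_left h3 hf0
  have h5 : ρ * (#Y - E) ≤ ∑ x ∈ Y, wt (indB (ans x) b) π₀ / wt (fun _ => (1 : ℝ)) π₀ := by
    rw [← sum_div, le_div_iff₀ he0]
    exact h4
  have h6 : ∑ x ∈ Y, wt (indB (ans x) b) π₀ / wt (fun _ => (1 : ℝ)) π₀ =
      #Y - ∑ x ∈ Y, wt (indB (ans x) (!b)) π₀ / wt (fun _ => (1 : ℝ)) π₀ := by
    have : ∑ x ∈ Y, (wt (indB (ans x) b) π₀ / wt (fun _ => (1 : ℝ)) π₀ +
        wt (indB (ans x) (!b)) π₀ / wt (fun _ => (1 : ℝ)) π₀) = #Y := by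
      rw [sum_congr rfl fun x _ => hsum1 x]
      simp
    rw [sum_add_distrib] at this
    linarith
  rw [h6] at h5
  linarith

theorem main_lemma2 {F L : Type} [Field F] [Fintype F] [DecidableEq F] [Fintype L] [DecidableEq L]
    (hFL : Fintype.card F = Fintype.card L) {ι : Type} [Fintype ι] [DecidableEq ι]
    (r : ι → F × F) (hr : ∀ j, (r j).1 ≠ 0) (hinj : Function.Injective r)
    (X Z : Finset F) (hXZ : Disjoint X Z) (πc : Finset (F × L))
    (hW1 : ∀ w ∈ X ∪ Z, ∀ w' ∈ X ∪ Z, w ≠ w' → ∀ i j, fv (r i) w ≠ fv (r j) w')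
    (hW2 : ∀ w ∈ X ∪ Z, ∀ i j, i ≠ j → fv (r i) w ≠ fv (r j) w)
    (hW3 : ∀ w ∈ X ∪ Z, ∀ j, fv (r j) w ∉ πc.image Prod.fst)
    (t h₁ : ℕ)
    (hX : ∀ Q' : Finset (F × F), #Q' ≤ Fintype.card ι + 3 * t →
      ∀ Y ⊆ X, (∀ x ∈ Y, ∃ x' ∈ X, x' ≠ x ∧ Conf Q' x x') → #Y ≤ h₁)
    (hZ : ∀ c : F × F, c.1 ≠ 0 →
      ∀ Y ⊆ Z, (∀ z ∈ Y, ∃ x ∈ X, ∃ j, fv c x = fv (r j) z) → #Y ≤ 2)
    (Q : (ι → L) → Prog F L) (hQ : ∀ β, (Q β).Cost t)
    (𝓕 : Finset (F ≃ L)) (hne : 𝓕.Nonempty) (s : ℕ)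
    (h𝓕 : ∀ σ ∈ 𝓕, σ ∈ ext πc) (hbig : #(ext πc) ≤ 2 ^ s * #𝓕)
    (κ : ℕ) (hκ : 2 ≤ κ)
    (herr : ∀ σ ∈ 𝓕, (#{x ∈ X | (Q fun j => σ (fv (r j) x)).run σ = false} : ℝ) / #X +
      (#{z ∈ Z | (Q fun j => σ (fv (r j) z)).run σ = true} : ℝ) / #Z ≤ 1 - 6 / κ)
    (hX0 : 1 ≤ #X) (hZ0 : 1 ≤ #Z) (kk : ℕ) (hkk : kk = κ * (3 * t + 1) * s)
    (H1 : κ * (2 * kk + #πc + h₁ + 6 * t * Fintype.card ι + (Fintype.card ι + 3 * t) ^ 2 + 3 * t) ≤
      2 * #X)
    (H2 : κ * (kk + 3 * t * (#πc + kk * (Fintype.card ι + 1) + 2 * Fintype.card ι + 3 * t)) ≤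
      2 * #Z)
    (H3 : κ * (3 * t * ((#πc + kk * (Fintype.card ι + 1)) + Fintype.card ι + 3 * t) +
      (Fintype.card ι * (#πc + kk * (Fintype.card ι + 1)) + Fintype.card ι ^ 2)) ≤
        Fintype.card L) : False := by
  classical
  set q₁ : ℕ := Fintype.card ι with hq₁
  set K : ℕ := κ * (3 * t + 1) with hK
  have hK2 : 2 ≤ K := by
    have : κ * 1 ≤ κ * (3 * t + 1) := Nat.mul_le_mul_left _ (by omega)
    omega
  have hK1 : 1 ≤ K := by omega
  have hκ0 : (0 : ℝ) < κ := by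
    have : 0 < κ := by omega
    exact_mod_cast this
  have hK0 : (0 : ℝ) < K := by exact_mod_cast hK1
  set γ : ℝ := 1 - 1 / (K : ℝ) with hγ
  have hγ0 : 0 < γ := by
    rw [hγ, sub_pos, div_lt_one hK0]
    have : 1 < K := by omega
    exact_mod_cast this
  have hγ1 : γ < 1 := by
    have : (0 : ℝ) < 1 / K := by positivity
    rw [hγ]; linarith
  set W : Finset F := X ∪ Z with hW
  set ps : F → ι → F := fun x j => fv (r j) x with hps
  -- weights at πc
  have hwc : wt (indS 𝓕) πc = (#𝓕 : ℝ) := by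
    unfold wt indS
    rw [sum_ite_mem, sum_const, nsmul_eq_mul, mul_one,
      inter_eq_right.2 fun σ hσ => h𝓕 σ hσ]
  have hec : wt (fun _ => (1 : ℝ)) πc = (#(ext πc) : ℝ) := by
    unfold wt
    simp
  have hFpos : (0 : ℝ) < #𝓕 := by exact_mod_cast hne.card_pos
  obtain ⟨k, π₀, hR, hf0, hmax, hsize⟩ := exists_dense W ps πc 𝓕 (2 ^ s) (by positivity)
    (by rw [hwc, hec]; exact_mod_cast hbig) (by rw [hwc]; exact hFpos) γ hγ0 hγ1
  -- number of units
  have hkle : k ≤ kk := by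
    rw [hkk]
    by_contra hcon
    push Not at hcon
    have e1 : γ ^ k ≤ γ ^ (K * s + 1) := pow_le_pow_of_le_one hγ0.le hγ1.le hcon
    have e2 : γ ^ (K * s) ≤ (1 / 2) ^ s := by
      rw [pow_mul]
      exact pow_le_pow_left₀ (pow_nonneg hγ0.le _) (gamma_pow_le K hK1) s
    have e3 : γ ^ (K * s + 1) < (1 / 2) ^ s := by
      rw [pow_succ]
      have h3 : 0 < γ ^ (K * s) := pow_pos hγ0 _
      nlinarith
    have e4 : (2 : ℝ) ^ s * γ ^ k < 2 ^ s * (1 / 2) ^ s :=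
      mul_lt_mul_of_pos_left (lt_of_le_of_lt e1 e3) (by positivity)
    rw [← mul_pow] at e4
    norm_num at e4
    linarith
  set ρ : ℝ := γ ^ (3 * t + 1) with hρ
  have hρ9 : 1 - 1 / (κ : ℝ) ≤ ρ := gamma_pow_ge2 κ (3 * t) (by omega)
  have hρ1 : ρ ≤ 1 := pow_le_one₀ hγ0.le hγ1.le
  have hρ0 : 0 ≤ ρ := pow_nonneg hγ0.le _
  -- structure
  obtain ⟨⟨D, W₀, hW₀, hDW, hstr, hblk⟩, hcard, -⟩ := hR.str
  have hcard' : #π₀ ≤ #πc + kk * (q₁ + 1) :=
    hcard.trans (Nat.add_le_add_left (Nat.mul_le_mul_right _ hkle) _)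
  have hext : (ext π₀).Nonempty := by
    by_contra hcon
    rw [not_nonempty_iff_eq_empty] at hcon
    rw [wt, hcon, sum_empty] at hf0
    exact lt_irrefl _ hf0
  obtain ⟨σ₁, hσ₁⟩ := hext
  have hpb : IsPB π₀ := isPB_of_mem_ext hσ₁
  have he : wt (fun _ => (1 : ℝ)) π₀ = ((Fintype.card L - #π₀).factorial : ℝ) := by
    rw [← card_ext hpb hFL]
    simp [wt]
  have he0 : 0 < wt (fun _ => (1 : ℝ)) π₀ := by
    rw [he]; exact_mod_cast Nat.factorial_pos _
  -- fresh elements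
  set fresh : Finset F → Finset F := fun V => V.filter fun x => ∀ j, ps x j ∉ π₀.image Prod.fst
    with hfresh
  have hlost : ∀ V ⊆ W, #V ≤ #(fresh V) + k := by
    intro V hV
    have h1 := card_filter_add_card_filter_not (s := V)
      (fun x => ∀ j, ps x j ∉ π₀.image Prod.fst)
    have h2 : #(V.filter fun x => ¬ ∀ j, ps x j ∉ π₀.image Prod.fst) ≤ k := by
      -- elements of W₀, or with a position in D
      set V₁ : Finset F := (V \ W₀).filter fun x => ∃ j, ps x j ∈ D with hV₁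
      have hV₁c : #V₁ ≤ #D := by
        let g : F → F := fun x => if h : ∃ j, ps x j ∈ D then ps x (Classical.choose h) else x
        have hg : ∀ x, (∃ j, ps x j ∈ D) → ∃ j, g x = ps x j ∧ g x ∈ D := by
          intro x h
          have h1 := Classical.choose_spec h
          have h2 : g x = ps x (Classical.choose h) := dif_pos h
          exact ⟨_, h2, by rw [h2]; exact h1⟩
        refine card_le_card_of_injOn g ?_ ?_
        · intro x hx
          rw [mem_coe, hV₁, mem_filter] at hx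
          obtain ⟨j, -, h⟩ := hg x hx.2
          exact h
        · intro x hx x' hx' hxx
          rw [mem_coe, hV₁, mem_filter, mem_sdiff] at hx hx'
          by_contra hne'
          obtain ⟨i, h3, -⟩ := hg x hx.2
          obtain ⟨j, h4, -⟩ := hg x' hx'.2
          exact hW1 x (hV hx.1.1) x' (hV hx'.1.1) hne' i j (by
            have : ps x i = ps x' j := by rw [← h3, ← h4, hxx]
            exact this)
      have hsub : (V.filter fun x => ¬ ∀ j, ps x j ∉ π₀.image Prod.fst) ⊆ W₀ ∪ V₁ := by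
        intro x hx
        obtain ⟨hx1, hx2⟩ := mem_filter.1 hx
        push Not at hx2
        obtain ⟨j, hj⟩ := hx2
        by_cases hxW : x ∈ W₀
        · exact mem_union_left _ hxW
        rcases hstr _ hj with h | h | ⟨w, hw, i, h⟩
        · exact absurd h (hW3 x (hV hx1) j)
        · exact mem_union_right _ (mem_filter.2 ⟨mem_sdiff.2 ⟨hx1, hxW⟩, j, h⟩)
        · exfalso
          have hxw : x ≠ w := by
            rintro rfl
            exact hxW hw
          exact hW1 x (hV hx1) w (hW₀ hw) hxw j i h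
      have h3 := card_le_card hsub
      have h4 := card_union_le W₀ V₁
      omega
    have h3 : #(fresh V) = #(V.filter fun x => ∀ j, ps x j ∉ π₀.image Prod.fst) := rfl
    omega
  -- formal run
  obtain ⟨q, hq0, hq1, hqF⟩ := query_formal hFL π₀ hpb (fun j => fpol (r j))
    (fun j => fpol_deg _) (fun j y h => hr j (by
      have := congrArg cf h
      rw [cf_fpol, cf_C] at this
      rw [this])) (fun i j h => hinj (by
      have := congrArg cf h
      rwa [cf_fpol, cf_fpol] at this)) Q t hQ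
  set X' : Finset F := fresh X with hX'
  set Z' : Finset F := fresh Z with hZ'
  have hX'X : X' ⊆ X := filter_subset _ _
  have hZ'Z : Z' ⊆ Z := filter_subset _ _
  have hXle := hlost X subset_union_left
  have hZle := hlost Z subset_union_right
  set BX : ℕ := h₁ + ((#πc + k) + 3 * t) + 6 * t * q₁ + (q₁ + 3 * t) ^ 2 with hBX
  set BZ : ℕ := 3 * t * (#π₀ + 2 * q₁ + 3 * t) with hBZ
  have hLX : ∀ β, LossB X' BX (3 * t) (stB π₀ (fun j => fpol (r j)) β) := by
    intro β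
    refine loss_X hr hX'X hXZ hW1 (fun x hx => (mem_filter.1 hx).2) t h₁ (#πc + k)
      (πc.image Prod.fst) D W₀ hW₀ ?_ hstr hX hZ β
    have h1 : #(πc.image Prod.fst) ≤ #πc := card_image_le
    omega
  have hLZ : ∀ β, LossB Z' BZ (3 * t) (stB π₀ (fun j => fpol (r j)) β) := by
    intro β
    exact loss_Z hr (fun z hz => hW2 z (mem_union_right _ (hZ'Z hz)))
      (fun z hz => (mem_filter.1 hz).2) t β
  set ans : F → (F ≃ L) → Bool := fun x σ => (Q fun j => σ (fv (r j) x)).run σ with hans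
  have hanse : ∀ x σ, (Q (fun j => σ ((fpol (r j)).eval x))).run σ = ans x σ := by
    intro x σ
    simp only [hans, eval_fpol]
  have htr : ∀ b, ∀ x ∈ W, ρ * wt (fun σ => indS 𝓕 σ * indB (ans x) b σ) π₀ *
      wt (fun _ => (1 : ℝ)) π₀ ≤ wt (indS 𝓕) π₀ * wt (indB (ans x) b) π₀ := by
    intro b x hx
    exact TP.query hγ0 hγ1.le hR hmax Q hQ x hx b
  -- the two sides
  have hXside : ((#X' : ℝ) - BX) * q false ≤ #X' - ρ * (#X' - mErr 𝓕 π₀ ans true X') := by
    refine side2 𝓕 π₀ hf0 he0 ans true ρ X' _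
      (fun x hx => htr true x (mem_union_left _ (hX'X hx))) ?_
    have := hqF false X' BX hLX
    simp only [hanse] at this
    rw [he]
    exact this
  have hZside : ((#Z' : ℝ) - BZ) * q true ≤ #Z' - ρ * (#Z' - mErr 𝓕 π₀ ans false Z') := by
    refine side2 𝓕 π₀ hf0 he0 ans false ρ Z' _
      (fun x hx => htr false x (mem_union_right _ (hZ'Z hx))) ?_
    have := hqF true Z' BZ hLZ
    simp only [hanse] at this
    rw [he]
    exact this
  -- numbers
  have hXpos : (0 : ℝ) < #X := by exact_mod_cast hX0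
  have hZpos : (0 : ℝ) < #Z := by exact_mod_cast hZ0
  have n1 : (#X : ℝ) ≤ #X' + k := by exact_mod_cast hXle
  have n2 : (#Z : ℝ) ≤ #Z' + k := by exact_mod_cast hZle
  have n1' : (#X' : ℝ) ≤ #X := by exact_mod_cast card_le_card hX'X
  have n2' : (#Z' : ℝ) ≤ #Z := by exact_mod_cast card_le_card hZ'Z
  have hi0 : ∀ σ, 0 ≤ indS 𝓕 σ := by
    intro σ
    unfold indS
    split <;> norm_num
  -- the means
  have hmean : mErr 𝓕 π₀ ans true X' / #X + mErr 𝓕 π₀ ans false Z' / #Z ≤ 1 - 6 / κ := by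
    unfold mErr
    rw [div_right_comm, div_right_comm (wt (fun σ => indS 𝓕 σ *
      (#{x ∈ Z' | ans x σ = !false} : ℝ)) π₀), ← add_div, div_le_iff₀ hf0]
    unfold wt
    rw [sum_div, sum_div, ← sum_add_distrib, mul_sum]
    refine sum_le_sum fun σ _ => ?_
    by_cases hσ : σ ∈ 𝓕
    · simp only [indS, hσ, if_true, one_mul, mul_one]
      refine le_trans ?_ (herr σ hσ)
      have h1 : #{x ∈ X' | ans x σ = !true} ≤
          #{x ∈ X | (Q fun j => σ (fv (r j) x)).run σ = false} := by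
        refine card_le_card ?_
        intro x hx
        obtain ⟨hx1, hx2⟩ := mem_filter.1 hx
        exact mem_filter.2 ⟨hX'X hx1, hx2⟩
      have h2 : #{x ∈ Z' | ans x σ = !false} ≤
          #{z ∈ Z | (Q fun j => σ (fv (r j) z)).run σ = true} := by
        refine card_le_card ?_
        intro x hx
        obtain ⟨hx1, hx2⟩ := mem_filter.1 hx
        exact mem_filter.2 ⟨hZ'Z hx1, hx2⟩
      have h1' : (#{x ∈ X' | ans x σ = !true} : ℝ) ≤
          #{x ∈ X | (Q fun j => σ (fv (r j) x)).run σ = false} := by exact_mod_cast h1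
      have h2' : (#{x ∈ Z' | ans x σ = !false} : ℝ) ≤
          #{z ∈ Z | (Q fun j => σ (fv (r j) z)).run σ = true} := by exact_mod_cast h2
      exact add_le_add (div_le_div_of_nonneg_right h1' hXpos.le)
        (div_le_div_of_nonneg_right h2' hZpos.le)
    · simp [indS, hσ]
  have n3 : (κ : ℝ) * ((k : ℝ) + BX) ≤ 2 * #X := by
    have : κ * (k + BX) ≤ 2 * #X := by
      refine le_trans ?_ H1
      rw [hBX]
      gcongr κ * ?_
      omega
    exact_mod_cast this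
  have n5 : (κ : ℝ) * ((k : ℝ) + BZ) ≤ 2 * #Z := by
    have : κ * (k + BZ) ≤ 2 * #Z := by
      refine le_trans ?_ H2
      rw [hBZ]
      gcongr
    exact_mod_cast this
  have n7 : ((3 * t * (#π₀ + q₁ + 3 * t) + (q₁ * #π₀ + q₁ ^ 2)) / Fintype.card L : ℝ) ≤
      1 / κ := by
    have hLpos : (0 : ℝ) < Fintype.card L := by
      rw [← hFL]; exact_mod_cast Fintype.card_pos
    rw [div_le_div_iff₀ hLpos hκ0]
    have : (3 * t * (#π₀ + q₁ + 3 * t) + (q₁ * #π₀ + q₁ ^ 2)) * κ ≤ 1 * Fintype.card L := by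
      rw [one_mul]
      refine le_trans ?_ H3
      rw [mul_comm]
      gcongr
    exact_mod_cast this
  have m1 : (1 : ℝ) - 1 / κ ≤ q true + q false := by
    refine le_trans ?_ hq1
    have := n7
    push_cast
    linarith
  have hE0 : ∀ b (Y : Finset F), 0 ≤ mErr 𝓕 π₀ ans b Y := by
    intro b Y
    unfold mErr
    refine div_nonneg (wt_nonneg (fun σ => mul_nonneg (hi0 σ) (Nat.cast_nonneg _)) _) hf0.le
  have hu0 : (0 : ℝ) < 1 / κ := by positivity
  have hu2 : (0 : ℝ) ≤ 1 - 2 * (1 / κ) := by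
    have h1 : (2 : ℝ) ≤ κ := by exact_mod_cast hκ
    rw [mul_one_div, sub_nonneg, div_le_one hκ0]
    exact h1
  have key : ∀ (x x' B E qq : ℝ), 0 < x → x' ≤ x → x ≤ x' + k → (κ : ℝ) * (k + B) ≤ 2 * x →
      0 ≤ x' → 0 ≤ E → 0 ≤ qq → (x' - B) * qq ≤ x' - ρ * (x' - E) →
      (1 - 2 * (1 / κ)) * qq ≤ 1 / κ + E / x := by
    intro x x' B E qq hx h1 h2 h3 hx' h4 h5 h6
    have e1 : (k : ℝ) + B ≤ 2 * (1 / κ) * x := by
      have : (k : ℝ) + B ≤ 2 * x / κ := by
        rw [le_div_iff₀ hκ0]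
        linarith
      refine this.trans (le_of_eq ?_)
      ring
    have e2 : (1 - 2 * (1 / (κ : ℝ))) * x ≤ x' - B := by linarith
    have e3 : (1 - 2 * (1 / (κ : ℝ))) * x * qq ≤ (x' - B) * qq :=
      mul_le_mul_of_nonneg_right e2 h5
    have e4 : x' - ρ * (x' - E) ≤ (1 / κ) * x + E := by
      have f1 : (1 - ρ) * x' ≤ (1 / κ) * x := by
        refine mul_le_mul (by linarith) h1 hx' hu0.le
      have f2 : ρ * E ≤ 1 * E := mul_le_mul_of_nonneg_right hρ1 h4
      linarith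
    have e5 : (1 - 2 * (1 / (κ : ℝ))) * qq * x ≤ (1 / κ + E / x) * x := by
      have f3 : E / x * x = E := div_mul_cancel₀ _ hx.ne'
      rw [add_mul, f3]
      linarith
    exact le_of_mul_le_mul_right e5 hx
  have kX := key #X #X' BX (mErr 𝓕 π₀ ans true X') (q false) hXpos n1' n1 n3 (Nat.cast_nonneg _)
    (hE0 _ _) (hq0 false) hXside
  have kZ := key #Z #Z' BZ (mErr 𝓕 π₀ ans false Z') (q true) hZpos n2' n2 n5 (Nat.cast_nonneg _)
    (hE0 _ _) (hq0 true) hZside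
  have m2 := mul_le_mul_of_nonneg_left m1 hu2
  have m3 : (6 : ℝ) / κ = 6 * (1 / κ) := by ring
  rw [m3] at hmean
  set u : ℝ := 1 / κ with hu
  have m4 : 0 < u * u := mul_pos hu0 hu0
  nlinarith

end Pool.Agent.GGA
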