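import Pool.Agent.GGA.P4

/-!
Averaging with constants: seeds and classes of non-sums.
-/

namespace Pool.Agent.GGA

open Finset

open Classical in
/-- Markov's inequality for two averages -/
theorem exists_markov {I α : Type*} (T : Finset I) (hT : T.Nonempty) (G : Finset α)
    (φ : I → α → ℝ) (h0 : ∀ i ∈ T, ∀ σ ∈ G, 0 ≤ φ i σ) (a b : ℝ) (hb : 0 ≤ b) (hba : b ≤ a)
    (ha : a ≤ 1) (h : ∀ σ ∈ G, ∑ i ∈ T, φ i σ ≤ (1 - a) * #T) :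
    ∃ i ∈ T, (a - b) * #G ≤ (#{σ ∈ G | φ i σ ≤ 1 - b} : ℝ) := by
  by_contra hcon
  push Not at hcon
  have h1 : ∀ σ ∈ G, (a - b) * #T ≤ (#{i ∈ T | φ i σ ≤ 1 - b} : ℝ) := by
    intro σ hσ
    have hs := Finset.card_filter_add_card_filter_not (s := T) (fun i => φ i σ ≤ 1 - b)
    have hs' : (#{i ∈ T | φ i σ ≤ 1 - b} : ℝ) + (#{i ∈ T | ¬ φ i σ ≤ 1 - b} : ℝ) = #T := by
      exact_mod_cast hs
    have h2 : (1 - b) * (#{i ∈ T | ¬ φ i σ ≤ 1 - b} : ℝ) ≤ ∑ i ∈ T, φ i σ := by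
      calc (1 - b) * (#{i ∈ T | ¬ φ i σ ≤ 1 - b} : ℝ)
          = ∑ i ∈ T with ¬ φ i σ ≤ 1 - b, (1 - b) := by
            rw [Finset.sum_const, nsmul_eq_mul, mul_comm]
        _ ≤ ∑ i ∈ T with ¬ φ i σ ≤ 1 - b, φ i σ := by
            refine Finset.sum_le_sum fun i hi => ?_
            rw [Finset.mem_filter] at hi
            exact (not_le.1 hi.2).le
        _ ≤ ∑ i ∈ T, φ i σ := by
            refine Finset.sum_le_sum_of_subset_of_nonneg (Finset.filter_subset _ _)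
              fun i hi _ => h0 i hi σ hσ
    have h3 := h σ hσ
    have h4 : (0 : ℝ) ≤ #{i ∈ T | ¬ φ i σ ≤ 1 - b} := Nat.cast_nonneg _
    have h5 : (#{i ∈ T | ¬ φ i σ ≤ 1 - b} : ℝ) ≤ #T := by
      have : (0 : ℝ) ≤ (#{i ∈ T | φ i σ ≤ 1 - b} : ℝ) := Nat.cast_nonneg _
      linarith
    nlinarith
  have hTpos : (0 : ℝ) < #T := by exact_mod_cast Finset.card_pos.2 hT
  have h6 : ∑ i ∈ T, (#{σ ∈ G | φ i σ ≤ 1 - b} : ℝ) =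
      ∑ σ ∈ G, (#{i ∈ T | φ i σ ≤ 1 - b} : ℝ) := by
    have : ∑ i ∈ T, #{σ ∈ G | φ i σ ≤ 1 - b} = ∑ σ ∈ G, #{i ∈ T | φ i σ ≤ 1 - b} := by
      simp only [Finset.card_filter]
      rw [Finset.sum_comm]
    exact_mod_cast this
  have h7 : ∑ i ∈ T, (#{σ ∈ G | φ i σ ≤ 1 - b} : ℝ) < ∑ _i ∈ T, (a - b) * #G :=
    Finset.sum_lt_sum_of_nonempty hT hcon
  have h8 : ∑ _σ ∈ G, (a - b) * (#T : ℝ) ≤ ∑ σ ∈ G, (#{i ∈ T | φ i σ ≤ 1 - b} : ℝ) :=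
    Finset.sum_le_sum h1
  rw [Finset.sum_const, nsmul_eq_mul] at h7 h8
  rw [h6] at h7
  nlinarith

/-- disjoint classes which fill almost all of `N` -/
theorem sum_class_le {K : Type*} [DecidableEq K] (acc N : Finset K) (𝒵 : Finset (Finset K))
    (M κ : ℕ) (hM : 1 ≤ M) (hκ : 2 ≤ κ)
    (hZ : ∀ Z ∈ 𝒵, #Z = M ∧ Z ⊆ N) (hd : ∀ Z ∈ 𝒵, ∀ Z' ∈ 𝒵, Z ≠ Z' → Disjoint Z Z')
    (hN : κ ^ 2 * (#N - M * #𝒵) ≤ #N) :
    ∑ Z ∈ 𝒵, (#(acc ∩ Z) : ℝ) / #Z ≤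
      #𝒵 * ((#(acc ∩ N) : ℝ) / #N * (1 + 2 / (κ : ℝ) ^ 2)) := by
  have hMR : (0 : ℝ) < M := by exact_mod_cast hM
  have hκR : (2 : ℝ) ≤ κ := by exact_mod_cast hκ
  have hκ2 : (4 : ℝ) ≤ (κ : ℝ) ^ 2 := by nlinarith
  have hsum : ∑ Z ∈ 𝒵, #(acc ∩ Z) ≤ #(acc ∩ N) := by
    rw [← Finset.card_biUnion]
    · apply Finset.card_le_card
      intro x hx
      rw [Finset.mem_biUnion] at hx
      obtain ⟨Z, hZm, hx⟩ := hx
      rw [Finset.mem_inter] at hx ⊢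
      exact ⟨hx.1, (hZ Z hZm).2 hx.2⟩
    · intro Z hZm Z' hZm' hne'
      exact (hd Z hZm Z' hZm' hne').mono Finset.inter_subset_right Finset.inter_subset_right
  have hle : M * #𝒵 ≤ #N := by
    have h1 : #(𝒵.biUnion id) = ∑ Z ∈ 𝒵, #Z :=
      Finset.card_biUnion fun Z hZm Z' hZm' hne' => hd Z hZm Z' hZm' hne'
    have h2 : ∑ Z ∈ 𝒵, #Z = #𝒵 * M := by
      rw [Finset.sum_congr rfl fun Z hZm => (hZ Z hZm).1, Finset.sum_const, smul_eq_mul]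
    have h3 : #(𝒵.biUnion id) ≤ #N := by
      apply Finset.card_le_card
      intro x hx
      rw [Finset.mem_biUnion] at hx
      obtain ⟨Z, hZm, hx⟩ := hx
      exact (hZ Z hZm).2 hx
    rw [Nat.mul_comm]
    omega
  have hlhs : ∑ Z ∈ 𝒵, (#(acc ∩ Z) : ℝ) / #Z ≤ (#(acc ∩ N) : ℝ) / M := by
    rw [Finset.sum_congr rfl (g := fun Z => (#(acc ∩ Z) : ℝ) / M)
      fun Z hZm => by rw [(hZ Z hZm).1], ← Finset.sum_div]
    apply div_le_div_of_nonneg_right _ hMR.le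
    exact_mod_cast hsum
  refine hlhs.trans ?_
  rcases Nat.eq_zero_or_pos #N with h0 | hpos
  · have : #(acc ∩ N) = 0 := by
      have := Finset.card_le_card (Finset.inter_subset_right : acc ∩ N ⊆ N)
      omega
    rw [this, h0]
    simp
  have hNR : (0 : ℝ) < #N := by exact_mod_cast hpos
  have hN' : (κ : ℝ) ^ 2 * ((#N : ℝ) - M * #𝒵) ≤ #N := by
    have h1 : ((#N - M * #𝒵 : ℕ) : ℝ) = (#N : ℝ) - M * #𝒵 := by
      rw [Nat.cast_sub hle]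
      push_cast
      ring
    rw [← h1]
    exact_mod_cast hN
  have hkey : (#N : ℝ) ≤ M * #𝒵 * (1 + 2 / (κ : ℝ) ^ 2) := by
    have h2 : (κ : ℝ) ^ 2 * #N ≤ (M * #𝒵) * ((κ : ℝ) ^ 2 + 2) := by nlinarith
    have h3 : (M : ℝ) * #𝒵 * (1 + 2 / (κ : ℝ) ^ 2) =
        (M * #𝒵) * ((κ : ℝ) ^ 2 + 2) / (κ : ℝ) ^ 2 := by
      field_simp
    rw [h3, le_div_iff₀ (by positivity)]
    linarith
  have hacc : (0 : ℝ) ≤ #(acc ∩ N) := Nat.cast_nonneg _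
  rw [div_le_iff₀ hMR]
  have h4 : (#𝒵 : ℝ) * ((#(acc ∩ N) : ℝ) / #N * (1 + 2 / (κ : ℝ) ^ 2)) * M =
      (#(acc ∩ N) : ℝ) * (M * #𝒵 * (1 + 2 / (κ : ℝ) ^ 2)) / #N := by
    field_simp
  rw [h4, le_div_iff₀ hNR]
  exact mul_le_mul_of_nonneg_left hkey hacc

end Pool.Agent.GGA
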