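import Mathlib
import Pool.Agent.GGX.Sel
import Pool.Agent.GGA.Model
import Pool.Agent.GGA.Main2
import Pool.Agent.GGA.P3
import Pool.Agent.GGA.P4
import Pool.Agent.GGA.P4b

/-!
The bound for a fixed set of sums, mean error below 1/2.
-/

namespace Pool.Agent.GGA

open Finset Pool.Agent.GGX

/-- the numerical conditions -/
theorem fix_num2 (n q t s h₁ x c k κ : ℕ) (hκ : 12 ≤ κ) (hh₁ : 200 * κ ^ 2 * h₁ ≤ n ^ 2)
    (hqt : 200 * κ ^ 2 * (q + 1 + 3 * t) ≤ n)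
    (hcon : 100 * κ ^ 2 * (t + 1) * (s + 1) < n ^ 2)
    (hx : n ^ 2 ≤ x + h₁ + (q + 1) ^ 2) (hc : c ≤ q + 1) (hk : k ≤ q + 1) :
    κ * (2 * (κ * (3 * t + 1) * s) + c + h₁ + 6 * t * k + (k + 3 * t) ^ 2 + 3 * t) ≤ 2 * x ∧
    κ * (κ * (3 * t + 1) * s + 3 * t * (c + κ * (3 * t + 1) * s * (k + 1) +
      2 * k + 3 * t)) ≤ 2 * n ^ 4 ∧
    κ * (3 * t * ((c + κ * (3 * t + 1) * s * (k + 1)) + k + 3 * t) +
      (k * (c + κ * (3 * t + 1) * s * (k + 1)) + k ^ 2)) ≤ n ^ 20 ∧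
    κ * (h₁ + (q + 1) ^ 2) ≤ x ∧ 28800 ≤ n ∧ 200 * κ ^ 2 ≤ n ∧ 1 ≤ x := by
  set m := q + 1 + 3 * t with hm
  have hκ1 : 1 ≤ κ := by omega
  have hκ2 : κ ≤ κ ^ 2 := by nlinarith
  have hκ144 : 144 ≤ κ ^ 2 := by nlinarith
  have hm1 : 1 ≤ m := by omega
  have hkn : 200 * κ ^ 2 ≤ n := by
    calc 200 * κ ^ 2 = 200 * κ ^ 2 * 1 := by ring
      _ ≤ 200 * κ ^ 2 * m := Nat.mul_le_mul_left _ hm1
      _ ≤ n := hqt
  have hn : 28800 ≤ n := by omega
  have hn2 : 28800 * n ≤ n ^ 2 := by nlinarith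
  set kk := κ * (3 * t + 1) * s with hkkdef
  have f1 : 100 * (κ * kk) ≤ 3 * n ^ 2 := by
    have h1 : (3 * t + 1) * s ≤ 3 * ((t + 1) * (s + 1)) := by
      nlinarith [Nat.zero_le (t * s), Nat.zero_le t, Nat.zero_le s]
    calc 100 * (κ * kk) = 100 * (κ ^ 2 * ((3 * t + 1) * s)) := by rw [hkkdef]; ring
      _ ≤ 100 * (κ ^ 2 * (3 * ((t + 1) * (s + 1)))) :=
          Nat.mul_le_mul_left _ (Nat.mul_le_mul_left _ h1)
      _ = 3 * (100 * κ ^ 2 * (t + 1) * (s + 1)) := by ring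
      _ ≤ 3 * n ^ 2 := Nat.mul_le_mul_left _ hcon.le
  have fm : 200 * (κ * m) ≤ n := by
    calc 200 * (κ * m) ≤ 200 * (κ ^ 2 * m) :=
          Nat.mul_le_mul_left _ (Nat.mul_le_mul_right _ hκ2)
      _ = 200 * κ ^ 2 * m := by ring
      _ ≤ n := hqt
  have fm1 : m ≤ κ * m := Nat.le_mul_of_pos_left _ hκ1
  have fm2 : 40000 * (κ * m ^ 2) ≤ n ^ 2 := by
    have h1 : κ * m ^ 2 ≤ (κ * m) ^ 2 := by
      calc κ * m ^ 2 ≤ κ ^ 2 * m ^ 2 := Nat.mul_le_mul_right _ hκ2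
        _ = (κ * m) ^ 2 := by ring
    calc 40000 * (κ * m ^ 2) ≤ 40000 * (κ * m) ^ 2 := Nat.mul_le_mul_left _ h1
      _ = (200 * (κ * m)) ^ 2 := by ring
      _ ≤ n ^ 2 := Nat.pow_le_pow_left fm 2
  have fh : 200 * (κ * h₁) ≤ n ^ 2 := by
    calc 200 * (κ * h₁) ≤ 200 * (κ ^ 2 * h₁) :=
          Nat.mul_le_mul_left _ (Nat.mul_le_mul_right _ hκ2)
      _ = 200 * κ ^ 2 * h₁ := by ring
      _ ≤ n ^ 2 := hh₁
  have fh1 : h₁ ≤ κ * h₁ := Nat.le_mul_of_pos_left _ hκ1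
  have fq : κ * (q + 1) ^ 2 ≤ κ * m ^ 2 :=
    Nat.mul_le_mul_left _ (Nat.pow_le_pow_left (by omega) 2)
  have fq1 : (q + 1) ^ 2 ≤ κ * (q + 1) ^ 2 := Nat.le_mul_of_pos_left _ hκ1
  have g1 : κ * c ≤ κ * m := Nat.mul_le_mul_left _ (by omega)
  have g2 : κ * (3 * t) ≤ κ * m := Nat.mul_le_mul_left _ (by omega)
  have g3 : κ * (6 * t * k) ≤ 2 * (κ * m ^ 2) := by
    have h1 : 3 * t * k ≤ m * m := Nat.mul_le_mul (by omega) (by omega)
    calc κ * (6 * t * k) = 2 * (κ * (3 * t * k)) := by ring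
      _ ≤ 2 * (κ * (m * m)) := Nat.mul_le_mul_left _ (Nat.mul_le_mul_left _ h1)
      _ = 2 * (κ * m ^ 2) := by ring
  have g4 : κ * (k + 3 * t) ^ 2 ≤ κ * m ^ 2 :=
    Nat.mul_le_mul_left _ (Nat.pow_le_pow_left (by omega) 2)
  have hkapn : κ ≤ n := by omega
  have hmn : 200 * m ≤ n := by omega
  refine ⟨?_, ?_, ?_, ?_, hn, hkn, by omega⟩
  · have e1 : κ * (2 * kk + c + h₁ + 6 * t * k + (k + 3 * t) ^ 2 + 3 * t) =
        2 * (κ * kk) + κ * c + κ * h₁ + κ * (6 * t * k) + κ * (k + 3 * t) ^ 2 + κ * (3 * t) := by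
      ring
    omega
  · have e1 : κ * (kk + 3 * t * (c + kk * (k + 1) + 2 * k + 3 * t)) =
        κ * kk + κ * kk * (3 * t * (k + 1)) + κ * (3 * t * (c + 2 * k + 3 * t)) := by ring
    have h1 : 3 * t * (k + 1) ≤ n * n := Nat.mul_le_mul (by omega) (by omega)
    have h2 : κ * kk * (3 * t * (k + 1)) ≤ n ^ 2 * (n * n) :=
      Nat.mul_le_mul (by omega) h1
    have h3 : κ * (3 * t * (c + 2 * k + 3 * t)) ≤ 3 * (κ * m ^ 2) := by
      have h4 : 3 * t * (c + 2 * k + 3 * t) ≤ m * (3 * m) := Nat.mul_le_mul (by omega) (by omega)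
      calc κ * (3 * t * (c + 2 * k + 3 * t)) ≤ κ * (m * (3 * m)) := Nat.mul_le_mul_left _ h4
        _ = 3 * (κ * m ^ 2) := by ring
    have h5 : n ^ 2 * (n * n) = n ^ 4 := by ring
    have h6 : 2 * n ^ 2 ≤ n ^ 4 := by
      calc 2 * n ^ 2 ≤ (n * n) * n ^ 2 := Nat.mul_le_mul_right _ (by nlinarith)
        _ = n ^ 4 := by ring
    omega
  · have e1 : κ * (3 * t * ((c + kk * (k + 1)) + k + 3 * t) +
        (k * (c + kk * (k + 1)) + k ^ 2)) =
        κ * kk * (3 * t * (k + 1)) + κ * kk * (k * (k + 1)) +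
          κ * (3 * t * (c + k + 3 * t)) + κ * (k * c) + κ * k ^ 2 := by ring
    have h1 : 3 * t * (k + 1) ≤ n * n := Nat.mul_le_mul (by omega) (by omega)
    have h1' : k * (k + 1) ≤ n * n := Nat.mul_le_mul (by omega) (by omega)
    have h2 : κ * kk * (3 * t * (k + 1)) ≤ n ^ 2 * (n * n) := Nat.mul_le_mul (by omega) h1
    have h2' : κ * kk * (k * (k + 1)) ≤ n ^ 2 * (n * n) := Nat.mul_le_mul (by omega) h1'
    have h3 : κ * (3 * t * (c + k + 3 * t)) ≤ n * (n * n) :=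
      Nat.mul_le_mul hkapn (Nat.mul_le_mul (by omega) (by omega))
    have h3' : κ * (k * c) ≤ n * (n * n) :=
      Nat.mul_le_mul hkapn (Nat.mul_le_mul (by omega) (by omega))
    have h3'' : κ * k ^ 2 ≤ n * (n * n) := by
      rw [pow_two]
      exact Nat.mul_le_mul hkapn (Nat.mul_le_mul (by omega) (by omega))
    have h5 : n ^ 2 * (n * n) = n ^ 4 := by ring
    have h6 : n * (n * n) = n ^ 3 := by ring
    have h7 : n ^ 3 ≤ n ^ 4 := Nat.pow_le_pow_right (by omega) (by omega)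
    have h8 : 5 * n ^ 4 ≤ n ^ 5 := by
      calc 5 * n ^ 4 ≤ n * n ^ 4 := Nat.mul_le_mul_right _ (by omega)
        _ = n ^ 5 := by ring
    have h9 : n ^ 5 ≤ n ^ 20 := Nat.pow_le_pow_right (by omega) (by omega)
    omega
  · have e1 : κ * (h₁ + (q + 1) ^ 2) = κ * h₁ + κ * (q + 1) ^ 2 := by ring
    omega

/-- the real inequality for the classes -/
theorem err_class (κ S X N rS rX aN : ℝ) (hκ : 12 ≤ κ) (hS : 0 < S) (hX : 0 < X) (hN : 0 < N)
    (hSX : κ * (S - X) ≤ X) (hrX : rX ≤ rS) (hrS : rS ≤ S) (hr0 : 0 ≤ rS) (haN : aN ≤ N)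
    (h : rS / S + aN / N ≤ 1 - 11 / κ) :
    rX / X + aN / N * (1 + 2 / κ ^ 2) ≤ 1 - 9 / κ := by
  have hκ0 : 0 < κ := by linarith
  have h1 : rX / X ≤ rS / S + 1 / κ := by
    have h2 : rX / X ≤ rS / X := div_le_div_of_nonneg_right hrX hX.le
    have h3 : rS / X ≤ rS / S + 1 / κ := by
      rw [div_add_div _ _ hS.ne' hκ0.ne', div_le_div_iff₀ hX (mul_pos hS hκ0)]
      have h4 : rS * (κ * (S - X)) ≤ S * X := by
        calc rS * (κ * (S - X)) ≤ rS * X := mul_le_mul_of_nonneg_left hSX hr0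
          _ ≤ S * X := mul_le_mul_of_nonneg_right hrS hX.le
      nlinarith
    linarith
  have h5 : aN / N ≤ 1 := by
    rw [div_le_one hN]
    exact haN
  have h6 : aN / N * (2 / κ ^ 2) ≤ 1 / κ := by
    have h7 : 2 / κ ^ 2 ≤ 1 / κ := by
      rw [div_le_div_iff₀ (by positivity) hκ0]
      nlinarith
    have h8 : 0 ≤ 2 / κ ^ 2 := by positivity
    calc aN / N * (2 / κ ^ 2) ≤ 1 * (2 / κ ^ 2) := mul_le_mul_of_nonneg_right h5 h8
      _ ≤ 1 / κ := by rw [one_mul]; exact h7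
  have h9 : 11 / κ = 9 / κ + 1 / κ + 1 / κ := by ring
  have h10 : aN / N * (1 + 2 / κ ^ 2) = aN / N + aN / N * (2 / κ ^ 2) := by ring
  rw [h10]
  linarith

open Classical in
theorem fixed2 {K L : Type} [Field K] [Fintype K] [DecidableEq K]
    [Fintype L] [DecidableEq L] (hKL : Fintype.card K = Fintype.card L)
    (S : Finset K) (n q t s e h₁ κ : ℕ) (hκ : 12 ≤ κ) (hS : #S = n ^ 2)
    (hconf : ∀ Q : Finset (K × K), #Q ≤ q + 1 + 3 * t →
      #{x ∈ S | ∃ x' ∈ S, x' ≠ x ∧ Conf Q x x'} ≤ h₁)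
    (hh₁ : 200 * κ ^ 2 * h₁ ≤ n ^ 2) (hqt : 200 * κ ^ 2 * (q + 1 + 3 * t) ≤ n)
    (Adv Ω : Type) [Fintype Adv] [Fintype Ω] [Nonempty Ω] (hs : Fintype.card Adv ≤ 2 ^ s)
    (D : DataStructure K L Adv Ω q) (hD : D.Time t)
    (G : Finset (K ≃ L)) (hG : Fintype.card (K ≃ L) ≤ 2 ^ e * #G)
    (herr : ∀ σ ∈ G, ∑ ω : Ω, ((#{x ∈ S | D.answer ω σ x = false} : ℝ) / #S +
      (#{z ∈ Sᶜ | D.answer ω σ z = true} : ℝ) / #Sᶜ) ≤ (1 - 12 / κ) * Fintype.card Ω)
    (hp : n ^ 20 ≤ Fintype.card K) :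
    n ^ 2 ≤ 100 * κ ^ 2 * (t + 1) * (s + e + 2 * κ + 1) := by
  by_contra hcon
  push Not at hcon
  have hκR : (12 : ℝ) ≤ κ := by exact_mod_cast hκ
  have hκ0 : (0 : ℝ) < κ := by linarith
  -- the seed
  obtain ⟨ω, -, hω⟩ := exists_markov (univ : Finset Ω) univ_nonempty G
    (fun ω σ => (#{x ∈ S | D.answer ω σ x = false} : ℝ) / #S +
      (#{z ∈ Sᶜ | D.answer ω σ z = true} : ℝ) / #Sᶜ)
    (fun _ _ _ _ => by positivity) (12 / κ) (11 / κ) (by positivity)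
    (div_le_div_of_nonneg_right (by norm_num) hκ0.le)
    (by rw [div_le_one hκ0]; exact hκR)
    (fun σ hσ => by rw [card_univ]; exact herr σ hσ)
  set G1 : Finset (K ≃ L) := {σ ∈ G | (#{x ∈ S | D.answer ω σ x = false} : ℝ) / #S +
      (#{z ∈ Sᶜ | D.answer ω σ z = true} : ℝ) / #Sᶜ ≤ 1 - 11 / κ} with hG1def
  have hGG1 : #G ≤ κ * #G1 := by
    have h1 : (12 / (κ : ℝ) - 11 / κ) * #G ≤ #G1 := hω
    have h2 : (#G : ℝ) ≤ κ * #G1 := by
      have h3 : (12 / (κ : ℝ) - 11 / κ) * #G = #G / κ := by ring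
      rw [h3, div_le_iff₀ hκ0] at h1
      linarith
    exact_mod_cast h2
  have hEq : 0 < Fintype.card (K ≃ L) := Fintype.card_pos_iff.mpr ⟨Fintype.equivOfCardEq hKL⟩
  have hG1 : Fintype.card (K ≃ L) ≤ 2 ^ e * κ * #G1 := by
    calc Fintype.card (K ≃ L) ≤ 2 ^ e * #G := hG
      _ ≤ 2 ^ e * (κ * #G1) := Nat.mul_le_mul_left _ hGG1
      _ = 2 ^ e * κ * #G1 := by ring
  -- the memory content
  have hA : 1 ≤ Fintype.card Adv :=
    Fintype.card_pos_iff.mpr ⟨D.prep (Fintype.equivOfCardEq hKL)⟩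
  obtain ⟨a, ha⟩ := exists_memory G1 D.prep hA
  set G2 : Finset (K ≃ L) := {σ ∈ G1 | D.prep σ = a} with hG2def
  have hG2 : 0 < #G2 := by
    rcases Nat.eq_zero_or_pos #G2 with h | h
    · rw [h, Nat.mul_zero] at ha
      have hz : #G1 = 0 := by omega
      rw [hz, Nat.mul_zero] at hG1
      omega
    · exact h
  -- the forms
  let fm : Fin q → K × K := D.first ω a
  let Qall : Finset (K × K) := insert ((1 : K), (0 : K)) (univ.image fm)
  let Q : Finset (K × K) := Qall.filter fun r => r.1 ≠ 0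
  let C₀ : Finset K := (Qall.filter fun r => r.1 = 0).image Prod.snd
  have hQall : #Qall ≤ q + 1 := by
    refine (card_insert_le _ _).trans ?_
    have : #(univ.image fm) ≤ q := card_image_le.trans (by simp)
    omega
  have hQc : #Q ≤ q + 1 := (card_filter_le _ _).trans hQall
  have hC₀ : #C₀ ≤ q + 1 := card_image_le.trans ((card_filter_le _ _).trans hQall)
  have h10 : ((1 : K), (0 : K)) ∈ Q :=
    mem_filter.mpr ⟨mem_insert_self _ _, one_ne_zero⟩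
  have hfm : ∀ j, fm j ∈ Qall := fun j => mem_insert_of_mem (mem_image_of_mem _ (mem_univ j))
  have hfmQ : ∀ j, (fm j).1 ≠ 0 → fm j ∈ Q := fun j h => mem_filter.mpr ⟨hfm j, h⟩
  have hfmC : ∀ j, (fm j).1 = 0 → (fm j).2 ∈ C₀ := fun j h =>
    mem_image_of_mem _ (mem_filter.mpr ⟨hfm j, h⟩)
  have hQne : ∀ r ∈ Q, r.1 ≠ 0 := fun r hr => (mem_filter.mp hr).2
  -- the labels of the constant positions
  obtain ⟨σ₀, hσ₀, hcst⟩ := exists_const G2 (card_pos.mp hG2) C₀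
  set G3 : Finset (K ≃ L) := {σ ∈ G2 | ∀ y ∈ C₀, σ y = σ₀ y} with hG3def
  let πc : Finset (K × L) := C₀.image fun y => (y, σ₀ y)
  have hπc : #πc ≤ q + 1 := card_image_le.trans hC₀
  have hext : ext πc = (univ : Finset (K ≃ L)).filter fun σ => ∀ y ∈ C₀, σ y = σ₀ y := by
    ext σ
    rw [mem_ext, mem_filter]
    constructor
    · intro h
      exact ⟨mem_univ _, fun y hy => h (y, σ₀ y) (mem_image_of_mem _ hy)⟩
    · rintro ⟨-, h⟩ p hp
      obtain ⟨y, hy, rfl⟩ := mem_image.mp hp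
      exact h y hy
  have hextc : #(ext πc) ≤ 2 ^ (s + e) * κ * #G3 := by
    rw [← hext] at hcst
    have h3 : #G2 * #(ext πc) ≤ #G2 * (2 ^ (s + e) * κ * #G3) := by
      calc #G2 * #(ext πc) ≤ Fintype.card (K ≃ L) * #G3 := hcst
        _ ≤ 2 ^ e * κ * #G1 * #G3 := Nat.mul_le_mul_right _ hG1
        _ ≤ 2 ^ e * κ * (Fintype.card Adv * #G2) * #G3 :=
            Nat.mul_le_mul_right _ (Nat.mul_le_mul_left _ ha)
        _ ≤ 2 ^ e * κ * (2 ^ s * #G2) * #G3 :=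
            Nat.mul_le_mul_right _ (Nat.mul_le_mul_left _ (Nat.mul_le_mul_right _ hs))
        _ = #G2 * (2 ^ (s + e) * κ * #G3) := by rw [pow_add]; ring
    exact Nat.le_of_mul_le_mul_left h3 hG2
  have hextpos : 0 < #(ext πc) := by
    rw [card_pos]
    refine ⟨σ₀, ?_⟩
    rw [hext, mem_filter]
    exact ⟨mem_univ _, fun y _ => rfl⟩
  have hG3 : 0 < #G3 := by
    rcases Nat.eq_zero_or_pos #G3 with h | h
    · rw [h, Nat.mul_zero] at hextc
      omega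
    · exact h
  -- the sums
  obtain ⟨X, W, hXW, hWS, hXc, -, hself, hconfW⟩ := select S Qall h₁
    (hconf Qall (by omega))
  have hXS : X ⊆ S := fun x hx => (hWS x (hXW hx)).mpr hx
  have hXcard : n ^ 2 ≤ #X + h₁ + (q + 1) ^ 2 := by
    have : #Qall ^ 2 ≤ (q + 1) ^ 2 := Nat.pow_le_pow_left hQall 2
    omega
  have hcon' : 100 * κ ^ 2 * (t + 1) * (s + e + 2 * κ + 1) < n ^ 2 := hcon
  obtain ⟨H1, H2, H3, H4, hn, hkn, hX1⟩ := fix_num2 n q t (s + e + 2 * κ) h₁ #X #πc #Q κ hκ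
    hh₁ hqt hcon' hXcard hπc hQc
  -- the non-sums
  have hp18 : 28800 * n ^ 19 ≤ n ^ 20 := by
    calc 28800 * n ^ 19 ≤ n * n ^ 19 := Nat.mul_le_mul_right _ hn
      _ = n ^ 20 := by ring
  have hn219 : n ^ 2 ≤ n ^ 19 := Nat.pow_le_pow_right (by omega) (by omega)
  have hcompl : #Sᶜ = Fintype.card K - n ^ 2 := by rw [card_compl, hS]
  have hκm : 200 * (q + 1 + 3 * t) ≤ n := by
    calc 200 * (q + 1 + 3 * t) = 200 * 1 * (q + 1 + 3 * t) := by ring
      _ ≤ 200 * κ ^ 2 * (q + 1 + 3 * t) :=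
          Nat.mul_le_mul_right _ (Nat.mul_le_mul_left _ (Nat.one_le_pow _ _ (by omega)))
      _ ≤ n := hqt
  have hq1 : q + 1 ≤ n := by omega
  have hR : #S + n ^ 4 + #Q * #C₀ + #Q ^ 2 + #S * #Q ^ 2 + n ^ 4 * #Q ^ 2 +
      (n ^ 4) ^ 2 * #S ^ 3 * #Q ^ 3 < n ^ 18 := by
    have e1 : #Q ≤ n := hQc.trans hq1
    have e2 : #C₀ ≤ n := hC₀.trans hq1
    have e3 : #Q * #C₀ ≤ n * n := Nat.mul_le_mul e1 e2
    have e4 : #Q ^ 2 ≤ n ^ 2 := Nat.pow_le_pow_left e1 2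
    have e5 : #Q ^ 3 ≤ n ^ 3 := Nat.pow_le_pow_left e1 3
    have e6 : #S * #Q ^ 2 ≤ n ^ 2 * n ^ 2 := by
      rw [hS]
      exact Nat.mul_le_mul_left _ e4
    have e7 : n ^ 4 * #Q ^ 2 ≤ n ^ 4 * n ^ 2 := Nat.mul_le_mul_left _ e4
    have e8 : (n ^ 4) ^ 2 * #S ^ 3 * #Q ^ 3 ≤ (n ^ 4) ^ 2 * (n ^ 2) ^ 3 * n ^ 3 := by
      rw [hS]
      exact Nat.mul_le_mul_left _ e5
    have e9 : (n ^ 4) ^ 2 * (n ^ 2) ^ 3 * n ^ 3 = n ^ 17 := by ring
    have f1 : n * n ≤ n ^ 17 := by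
      calc n * n = n ^ 2 := by ring
        _ ≤ n ^ 17 := Nat.pow_le_pow_right (by omega) (by omega)
    have f2 : n ^ 2 ≤ n ^ 17 := Nat.pow_le_pow_right (by omega) (by omega)
    have f3 : n ^ 4 ≤ n ^ 17 := Nat.pow_le_pow_right (by omega) (by omega)
    have f4 : n ^ 2 * n ^ 2 ≤ n ^ 17 := by
      calc n ^ 2 * n ^ 2 = n ^ 4 := by ring
        _ ≤ n ^ 17 := f3
    have f5 : n ^ 4 * n ^ 2 ≤ n ^ 17 := by
      calc n ^ 4 * n ^ 2 = n ^ 6 := by ring
        _ ≤ n ^ 17 := Nat.pow_le_pow_right (by omega) (by omega)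
    have f6 : 200 * n ^ 17 ≤ n ^ 18 := by
      calc 200 * n ^ 17 ≤ n * n ^ 17 := Nat.mul_le_mul_right _ (by omega)
        _ = n ^ 18 := by ring
    have f7 : 0 < n ^ 17 := by positivity
    omega
  obtain ⟨𝒵, hnice, hdisj, hcov⟩ := exists_family X S C₀ hXS Q hQne (n ^ 4) (n ^ 18)
    (Nat.one_le_pow _ _ (by omega)) hR
  have hNpos : 0 < #Sᶜ := by
    have : 0 < n ^ 19 := by positivity
    omega
  have hcls : κ ^ 2 * (#Sᶜ - n ^ 4 * #𝒵) ≤ #Sᶜ := by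
    calc κ ^ 2 * (#Sᶜ - n ^ 4 * #𝒵) ≤ n * n ^ 18 :=
          Nat.mul_le_mul (by omega) (by omega)
      _ = n ^ 19 := by ring
      _ ≤ #Sᶜ := by omega
  have hZM : ∀ Z ∈ 𝒵, #Z = n ^ 4 ∧ Z ⊆ Sᶜ := fun Z hZ => ⟨(hnice Z hZ).card, by
    intro z hz
    rw [mem_compl]
    exact fun h => (disjoint_left.mp (hnice Z hZ).disj) hz h⟩
  have h𝒵ne : 𝒵.Nonempty := by
    rw [← card_pos]
    by_contra hz
    have hz' : #𝒵 = 0 := by omega
    rw [hz', Nat.mul_zero, Nat.sub_zero] at hcls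
    have : 2 * #Sᶜ ≤ κ ^ 2 * #Sᶜ :=
      Nat.mul_le_mul_right _ (le_trans (by norm_num) (Nat.pow_le_pow_left hκ 2))
    omega
  obtain ⟨Z, hZ𝒵, hZG⟩ := exists_markov 𝒵 h𝒵ne G3
    (fun Z σ => (#{x ∈ X | D.answer ω σ x = false} : ℝ) / #X +
      (#(((univ : Finset K).filter fun z => D.answer ω σ z = true) ∩ Z) : ℝ) / #Z)
    (fun _ _ _ _ => by positivity) (9 / κ) (8 / κ) (by positivity)
    (div_le_div_of_nonneg_right (by norm_num) hκ0.le)
    (by rw [div_le_one hκ0]; linarith)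
    (by
      intro σ hσ
      have hσ1 : σ ∈ G1 := (mem_filter.mp (mem_filter.mp hσ).1).1
      have h3 := (mem_filter.mp hσ1).2
      have h4 : ((univ : Finset K).filter fun z => D.answer ω σ z = true) ∩ Sᶜ =
          {z ∈ Sᶜ | D.answer ω σ z = true} := by
        ext z
        simp only [mem_inter, mem_filter, mem_univ, true_and]
        exact and_comm
      have h5 := sum_class_le ((univ : Finset K).filter fun z => D.answer ω σ z = true) Sᶜ 𝒵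
        (n ^ 4) κ (Nat.one_le_pow _ _ (by omega)) (by omega) hZM hdisj hcls
      rw [h4] at h5
      rw [sum_add_distrib, sum_const, nsmul_eq_mul]
      have hSR : (0 : ℝ) < #S := by
        rw [hS]
        have : 0 < n ^ 2 := by positivity
        exact_mod_cast this
      have hXR : (0 : ℝ) < #X := by exact_mod_cast hX1
      have hNR : (0 : ℝ) < #Sᶜ := by exact_mod_cast hNpos
      have hSX : (κ : ℝ) * ((#S : ℝ) - #X) ≤ #X := by
        have h6 : (#S : ℝ) - #X ≤ ((h₁ + (q + 1) ^ 2 : ℕ) : ℝ) := by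
          have h7 : (#S : ℝ) ≤ ((#X + h₁ + (q + 1) ^ 2 : ℕ) : ℝ) := by
            rw [hS]
            exact_mod_cast hXcard
          push_cast at h7 ⊢
          linarith
        calc (κ : ℝ) * ((#S : ℝ) - #X) ≤ κ * ((h₁ + (q + 1) ^ 2 : ℕ) : ℝ) :=
              mul_le_mul_of_nonneg_left h6 hκ0.le
          _ = ((κ * (h₁ + (q + 1) ^ 2) : ℕ) : ℝ) := by push_cast; ring
          _ ≤ #X := by exact_mod_cast H4
      have hrX : (#{x ∈ X | D.answer ω σ x = false} : ℝ) ≤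
          (#{x ∈ S | D.answer ω σ x = false} : ℝ) := by
        exact_mod_cast card_le_card (filter_subset_filter _ hXS)
      have hrS : (#{x ∈ S | D.answer ω σ x = false} : ℝ) ≤ #S := by
        exact_mod_cast card_filter_le _ _
      have haN : (#{z ∈ Sᶜ | D.answer ω σ z = true} : ℝ) ≤ #Sᶜ := by
        exact_mod_cast card_filter_le _ _
      have h8 := err_class κ #S #X #Sᶜ _ _ _ hκR hSR hXR hNR hSX hrX hrS (by positivity) haN h3
      calc (#𝒵 : ℝ) * ((#{x ∈ X | D.answer ω σ x = false} : ℝ) / #X) +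
            ∑ Z ∈ 𝒵, (#(((univ : Finset K).filter fun z => D.answer ω σ z = true) ∩ Z) : ℝ) / #Z
          ≤ (#𝒵 : ℝ) * ((#{x ∈ X | D.answer ω σ x = false} : ℝ) / #X) +
            #𝒵 * ((#{z ∈ Sᶜ | D.answer ω σ z = true} : ℝ) / #Sᶜ * (1 + 2 / (κ : ℝ) ^ 2)) := by
            linarith
        _ = #𝒵 * ((#{x ∈ X | D.answer ω σ x = false} : ℝ) / #X +
            (#{z ∈ Sᶜ | D.answer ω σ z = true} : ℝ) / #Sᶜ * (1 + 2 / (κ : ℝ) ^ 2)) := by ring
        _ ≤ #𝒵 * (1 - 9 / κ) := mul_le_mul_of_nonneg_left h8 (by positivity)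
        _ = (1 - 9 / κ) * #𝒵 := by ring)
  have hZn := hnice Z hZ𝒵
  set 𝓕 : Finset (K ≃ L) := {σ ∈ G3 | (#{x ∈ X | D.answer ω σ x = false} : ℝ) / #X +
      (#(((univ : Finset K).filter fun z => D.answer ω σ z = true) ∩ Z) : ℝ) / #Z ≤
        1 - 8 / κ} with h𝓕def
  have hG3F : #G3 ≤ κ * #𝓕 := by
    have h1 : (9 / (κ : ℝ) - 8 / κ) * #G3 ≤ #𝓕 := hZG
    have h2 : (#G3 : ℝ) ≤ κ * #𝓕 := by
      have h3 : (9 / (κ : ℝ) - 8 / κ) * #G3 = #G3 / κ := by ring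
      rw [h3, div_le_iff₀ hκ0] at h1
      linarith
    exact_mod_cast h2
  -- the program
  let P : ({x // x ∈ Q} → L) → Prog K L := fun β =>
    D.query ω a (β ⟨((1 : K), (0 : K)), h10⟩)
      (fun j => if h : (fm j).1 ≠ 0 then β ⟨fm j, hfmQ j h⟩ else σ₀ (fm j).2)
  have hPans : ∀ σ ∈ G3, ∀ z : K,
      (P fun j => σ (fv j.1 z)).run σ = D.answer ω σ z := by
    intro σ hσ z
    have hσ2 : σ ∈ G2 := (mem_filter.mp hσ).1
    have hprep : D.prep σ = a := (mem_filter.mp hσ2).2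
    have hC : ∀ y ∈ C₀, σ y = σ₀ y := (mem_filter.mp hσ).2
    unfold DataStructure.answer
    rw [hprep]
    have e1 : σ (fv ((1 : K), (0 : K)) z) = σ z := by simp [fv]
    have e2 : (fun j => if h : (fm j).1 ≠ 0 then σ (fv (fm j) z) else σ₀ (fm j).2) =
        fun j => σ (fv (D.first ω a j) z) := by
      funext j
      by_cases h : (fm j).1 ≠ 0
      · rw [dif_pos h]
      · have h' : (fm j).1 = 0 := by simpa using h
        rw [dif_neg h, ← hC _ (hfmC j h')]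
        have : fv (D.first ω a j) z = (fm j).2 := by
          show (fm j).1 * z + (fm j).2 = (fm j).2
          rw [h', zero_mul, zero_add]
        rw [this]
    show (D.query ω a (σ (fv ((1 : K), (0 : K)) z))
      (fun j => if h : (fm j).1 ≠ 0 then σ (fv (fm j) z) else σ₀ (fm j).2)).run σ = _
    rw [e1, e2]
  have h𝓕G : ∀ σ ∈ 𝓕, σ ∈ G3 := fun σ hσ => (mem_filter.mp hσ).1
  have hXZ : Disjoint X Z := by
    rw [disjoint_left]
    intro x hx hz
    exact (disjoint_left.mp hZn.disj) hz (hXS hx)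
  have hQsub : ∀ r ∈ Q, r ∈ Qall := fun r hr => (mem_filter.mp hr).1
  refine main_lemma2 (F := K) (L := L) hKL (ι := {x // x ∈ Q}) (fun j => j.1)
    (fun j => hQne j.1 j.2) Subtype.val_injective X Z hXZ πc ?_ ?_ ?_ t h₁ ?_ ?_ P ?_ 𝓕 ?_
    (s + e + 2 * κ) ?_ ?_ κ (by omega) ?_ hX1 ?_ (κ * (3 * t + 1) * (s + e + 2 * κ)) rfl
    ?_ ?_ ?_
  · -- different elements
    intro w hw w' hw' hne i j heq
    rcases mem_union.mp hw with hw | hw
    · rcases mem_union.mp hw' with hw' | hw'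
      · exact hconfW w (hXW hw) w' (hXW hw') hne
          ⟨i.1, hQsub _ i.2, j.1, hQsub _ j.2, hQne _ i.2, hQne _ j.2, heq⟩
      · exact hZn.conf w' hw' w (mem_union_left _ hw) hne.symm j.1 j.2 i.1 i.2 heq.symm
    · exact hZn.conf w hw w' hw' hne i.1 i.2 j.1 j.2 heq
  · -- different forms
    intro w hw i j hne heq
    have hij : i.1 ≠ j.1 := fun h => hne (Subtype.ext h)
    rcases mem_union.mp hw with hw | hw
    · by_cases hc : i.1.1 = j.1.1
      · apply hij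
        refine Prod.ext hc ?_
        have h3 : i.1.1 * w + i.1.2 = j.1.1 * w + j.1.2 := heq
        rw [hc] at h3
        exact add_left_cancel h3
      · exact hself w (hXW hw) ⟨i.1, hQsub _ i.2, j.1, hQsub _ j.2, hc, heq⟩
    · exact hZn.self w hw i.1 i.2 j.1 j.2 hij heq
  · -- the constant positions
    intro w hw j hmem
    obtain ⟨p, hp, hpe⟩ := mem_image.mp hmem
    obtain ⟨y, hy, rfl⟩ := mem_image.mp hp
    simp only at hpe
    rcases mem_union.mp hw with hw | hw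
    · obtain ⟨r0, hr0, hr0e⟩ := mem_image.mp hy
      obtain ⟨hr1, hr2⟩ := mem_filter.mp hr0
      refine hself w (hXW hw) ⟨j.1, hQsub _ j.2, r0, hr1, ?_, ?_⟩
      · rw [hr2]
        exact hQne _ j.2
      · rw [hr2, zero_mul, zero_add, hr0e]
        exact hpe.symm
    · exact hZn.const w hw j.1 j.2 (hpe ▸ hy)
  · -- conflicts of sums
    intro Q' hQ' Y hY hYc
    have hcard : #Q' ≤ q + 1 + 3 * t := by
      rw [Fintype.card_coe] at hQ'
      omega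
    refine le_trans (card_le_card ?_) (hconf Q' hcard)
    intro x hx
    obtain ⟨x', hx', hne, hc⟩ := hYc x hx
    exact mem_filter.mpr ⟨hXS (hY hx), x', hXS hx', hne, hc⟩
  · -- meetings with non-sums
    intro c hc Y hY hYc
    refine le_trans (card_le_card ?_) (hZn.meet c hc)
    intro z hz
    obtain ⟨x, hx, j, hj⟩ := hYc z hz
    exact mem_filter.mpr ⟨hY hz, x, hx, j.1, j.2, hj⟩
  · intro β
    exact hD ω a _ _
  · -- nonempty
    rw [← card_pos]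
    rcases Nat.eq_zero_or_pos #𝓕 with h | h
    · rw [h, Nat.mul_zero] at hG3F
      omega
    · exact h
  · intro σ hσ
    rw [hext, mem_filter]
    exact ⟨mem_univ _, (mem_filter.mp (h𝓕G σ hσ)).2⟩
  · -- large
    calc #(ext πc) ≤ 2 ^ (s + e) * κ * #G3 := hextc
      _ ≤ 2 ^ (s + e) * κ * (κ * #𝓕) := Nat.mul_le_mul_left _ hG3F
      _ = 2 ^ (s + e) * (κ * κ) * #𝓕 := by ring
      _ ≤ 2 ^ (s + e) * (2 ^ κ * 2 ^ κ) * #𝓕 := by
          apply Nat.mul_le_mul_right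
          apply Nat.mul_le_mul_left
          exact Nat.mul_le_mul Nat.lt_two_pow_self.le Nat.lt_two_pow_self.le
      _ = 2 ^ (s + e + 2 * κ) * #𝓕 := by
          rw [pow_add _ (s + e), two_mul, pow_add _ κ κ]
  · -- the errors
    intro σ hσ
    have hσ3 := h𝓕G σ hσ
    have h3 := (mem_filter.mp hσ).2
    have h4 : {x ∈ X | (P fun j => σ (fv j.1 x)).run σ = false} =
        {x ∈ X | D.answer ω σ x = false} := by
      apply filter_congr
      intro x _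
      rw [hPans σ hσ3]
    have h5 : {z ∈ Z | (P fun j => σ (fv j.1 z)).run σ = true} =
        ((univ : Finset K).filter fun z => D.answer ω σ z = true) ∩ Z := by
      ext z
      rw [mem_filter, mem_inter, mem_filter, hPans σ hσ3]
      constructor
      · exact fun h => ⟨⟨mem_univ _, h.2⟩, h.1⟩
      · exact fun h => ⟨h.2, h.1.2⟩
    have h6 : (8 : ℝ) / κ ≥ 6 / κ := div_le_div_of_nonneg_right (by norm_num) hκ0.le
    rw [h4, h5]
    linarith
  · rw [hZn.card]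
    exact Nat.one_le_pow _ _ (by omega)
  · rw [Fintype.card_coe]
    exact H1
  · rw [Fintype.card_coe, hZn.card]
    exact H2
  · rw [Fintype.card_coe, ← hKL]
    exact H3.trans hp

end Pool.Agent.GGA
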