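import Mathlib
import Pool.Agent.GGX.Tri
import Pool.Agent.GGX.Arith3
import Pool.Agent.GGA.Err
import Pool.Agent.GGA.Fix

/-!
The bound for almost all arrays.
-/

namespace Pool.Agent.GGA

open Finset Pool.Agent.GGX Pool.Agent.GGX.Tri

/-- With the labelling `σ` a random sum is rejected with probability at most `1/64` and a random
element that is not a sum is accepted with probability at most `1/64` (the seed is random, too). -/
def DataStructure.Right {K L Adv Ω : Type} {q : ℕ} [Field K] [Fintype K] [DecidableEq K]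
    [Fintype Ω] (D : DataStructure K L Adv Ω q) {n : ℕ} (a b : Fin n → K) (σ : K ≃ L) : Prop :=
  64 * ∑ ω : Ω, #{x ∈ Sums a b | D.answer ω σ x = false} ≤ Fintype.card Ω * #(Sums a b) ∧
    64 * ∑ ω : Ω, #{z ∈ (Sums a b)ᶜ | D.answer ω σ z = true} ≤ Fintype.card Ω * #(Sums a b)ᶜ

theorem sums_eq' {K : Type} [Field K] [DecidableEq K] {n : ℕ} (a b : Fin n → K) :
    Sums a b = univ.image (sm (Sum.elim a b)) := by
  unfold Sums
  congr 1

/-- the parameters -/
theorem res_params : ∃ C n₀ : ℕ, ∀ n ≥ n₀, 2 ≤ n ∧ ∀ p : ℕ, n ^ C ≤ p → n ^ 20 ≤ p ∧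
    ∃ r : ℕ, 2000 * r ≤ n ∧
      4 * n * ((n + 2) ^ 2 * ((n + 1) ^ (n + 1) * (4 ^ n * (n + 1) ^ (12 * n)))) ≤ p ^ r := by
  refine ⟨280000, 10000, fun n hn => ⟨by omega, fun p hp => ⟨?_, ?_⟩⟩⟩
  · exact (Nat.pow_le_pow_right (by omega) (by norm_num)).trans hp
  · refine ⟨n / 10000 + 1, by omega, ?_⟩
    refine bad_bound4 n p (n / 10000 + 1) 280000 (16 / 10000) (by norm_num) (by omega)
      (by norm_num) hp ?_
    have h1 : n < 10000 * (n / 10000 + 1) := by
      have := Nat.lt_mul_div_succ n (show 0 < 10000 by norm_num)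
      exact this
    have h2 : (n : ℝ) ≤ 10000 * ((n / 10000 + 1 : ℕ) : ℝ) := by exact_mod_cast h1.le
    linarith

open Classical in
/-- **3SUM-Indexing in the generic group model.** -/
theorem unified : ∃ C n₀ : ℕ, ∀ n ≥ n₀, ∀ (p : ℕ) [Fact p.Prime], n ^ C ≤ p →
    ∃ Bad : Finset ((Fin n → ZMod p) × (Fin n → ZMod p)), n * Bad.card ≤ p ^ (2 * n) ∧
      ∀ a b, (a, b) ∉ Bad → ∀ (L Adv Ω : Type) [Fintype L] [Fintype Adv] [Fintype Ω]
        [Nonempty Ω], Fintype.card L = p → ∀ q t s e : ℕ, 1000 * (q + 1 + 3 * t) ≤ n →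
        Fintype.card Adv ≤ 2 ^ s → ∀ D : DataStructure (ZMod p) L Adv Ω q, D.Time t →
        Nat.card (ZMod p ≃ L) ≤ 2 ^ e * Nat.card {σ : ZMod p ≃ L // D.Right a b σ} →
        n ^ 2 ≤ 20000 * (t + 1) * (s + e + 1) := by
  obtain ⟨C, n₀, hpar⟩ := res_params
  refine ⟨C, n₀, fun n hn p _ hp => ?_⟩
  obtain ⟨hn1, hpar⟩ := hpar n hn
  obtain ⟨hp20, r, hr, hbad⟩ := hpar p hp
  have hcK : Fintype.card (ZMod p) = p := ZMod.card p
  have hp0 : 0 < p := (Fact.out : p.Prime).pos
  -- the exceptional arrays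
  set B1 : Finset (Ix n → ZMod p) := bad (ZMod p) n r with hB1
  set B2 : Finset (Ix n → ZMod p) := B1.image (fun f => f ∘ rv) with hB2
  set B3 : Finset (Ix n → ZMod p) := coll (ZMod p) n with hB3
  have hrv : ∀ f : Ix n → ZMod p, (f ∘ rv) ∘ rv = f := by
    intro f
    funext x
    rcases x with x | x <;> simp [rv]
  refine ⟨(B1 ∪ B2 ∪ B3).image (fun f => (f ∘ Sum.inl, f ∘ Sum.inr)), ?_, ?_⟩
  · have h1 : 4 * n * B1.card ≤ p ^ (2 * n) := by
      have h := card_bad (K := ZMod p) (n := n) r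
      rw [hcK] at h
      have h3 : 4 * n * B1.card * p ^ r ≤ p ^ (2 * n) * p ^ r := by
        calc 4 * n * B1.card * p ^ r = 4 * n * (B1.card * p ^ r) := by ring
          _ ≤ 4 * n * ((n + 2) ^ 2 * ((n + 1) ^ (n + 1) * (4 ^ n * (n + 1) ^ (12 * n))) *
              p ^ (2 * n)) := Nat.mul_le_mul_left _ h
          _ = 4 * n * ((n + 2) ^ 2 * ((n + 1) ^ (n + 1) * (4 ^ n * (n + 1) ^ (12 * n)))) *
              p ^ (2 * n) := by ring
          _ ≤ p ^ r * p ^ (2 * n) := Nat.mul_le_mul_right _ hbad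
          _ = p ^ (2 * n) * p ^ r := by ring
      exact Nat.le_of_mul_le_mul_right h3 (Nat.pow_pos hp0)
    have h2 : B2.card ≤ B1.card := card_image_le
    have h3 : 2 * n * B3.card ≤ p ^ (2 * n) := by
      have h := card_coll (K := ZMod p) (n := n)
      rw [hcK] at h
      have hn6 : 2 * n * n ^ 4 ≤ p := by
        refine le_trans ?_ hp20
        calc 2 * n * n ^ 4 ≤ n * n * n ^ 4 := by
              apply Nat.mul_le_mul_right
              apply Nat.mul_le_mul_right
              exact hn1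
          _ = n ^ 6 := by ring
          _ ≤ n ^ 20 := Nat.pow_le_pow_right (by omega) (by norm_num)
      have h3 : 2 * n * B3.card * p ≤ p ^ (2 * n) * p := by
        calc 2 * n * B3.card * p = 2 * n * (B3.card * p) := by ring
          _ ≤ 2 * n * (n ^ 4 * p ^ (2 * n)) := Nat.mul_le_mul_left _ h
          _ = 2 * n * n ^ 4 * p ^ (2 * n) := by ring
          _ ≤ p * p ^ (2 * n) := Nat.mul_le_mul_right _ hn6
          _ = p ^ (2 * n) * p := by ring
      exact Nat.le_of_mul_le_mul_right h3 hp0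
    have h4 : ((B1 ∪ B2 ∪ B3).image (fun f => (f ∘ Sum.inl, f ∘ Sum.inr))).card ≤
        B1.card + B1.card + B3.card := by
      refine card_image_le.trans ((card_union_le _ _).trans ?_)
      refine Nat.add_le_add_right ((card_union_le _ _).trans ?_) _
      omega
    have h5 : n * ((B1 ∪ B2 ∪ B3).image (fun f => (f ∘ Sum.inl, f ∘ Sum.inr))).card ≤
        n * (B1.card + B1.card + B3.card) := Nat.mul_le_mul_left _ h4
    have h6 : 2 * (n * (B1.card + B1.card + B3.card)) = 4 * n * B1.card + 2 * n * B3.card := by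
      ring
    omega
  · intro a b hab L Adv Ω _ _ _ _ hL q t s e hqt hs D hD hG
    have hf : (Sum.elim a b : Ix n → ZMod p) ∉ B1 ∪ B2 ∪ B3 := by
      intro h
      apply hab
      rw [mem_image]
      exact ⟨Sum.elim a b, h, by simp⟩
    simp only [mem_union, not_or] at hf
    obtain ⟨⟨hf1, hf2⟩, hf3⟩ := hf
    have hf2' : (Sum.elim a b : Ix n → ZMod p) ∘ rv ∉ bad (ZMod p) n r := by
      intro h
      apply hf2
      rw [hB2, mem_image]
      exact ⟨_, h, hrv _⟩
    have hS : #(Sums a b) = n ^ 2 := by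
      rw [sums_eq', card_image_of_injective _ (sm_injective _ hf3)]
      simp [pow_two]
    have hGc : Nat.card {σ : ZMod p ≃ L // D.Right a b σ} =
        #{σ : ZMod p ≃ L | D.Right a b σ} := by
      rw [Nat.card_eq_fintype_card, Fintype.card_subtype]
    rw [hGc, Nat.card_eq_fintype_card] at hG
    refine fixed (K := ZMod p) (L := L) (by rw [hcK, hL]) (Sums a b) n q t s e
      (2 * (n * (2 * (q + 1 + 3 * t) + r))) hS ?_ ?_ (by omega) Adv Ω hs D hD _ hG ?_ ?_
      (by rw [hcK]; exact hp20)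
    · intro Q hQ
      have h := conf_all r (q + 1 + 3 * t) (by omega) (Sum.elim a b) hf1 hf2' (Sums a b)
        (sums_eq' a b) Q hQ
      convert h
    · have h1 : 400 * (2 * (q + 1 + 3 * t) + r) ≤ n := by omega
      calc 200 * (2 * (n * (2 * (q + 1 + 3 * t) + r)))
          = n * (400 * (2 * (q + 1 + 3 * t) + r)) := by ring
        _ ≤ n * n := Nat.mul_le_mul_left _ h1
        _ = n ^ 2 := by ring
    · intro σ hσ
      have h := (mem_filter.mp hσ).2.1
      convert h
    · intro σ hσ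
      have h := (mem_filter.mp hσ).2.2
      convert h

end Pool.Agent.GGA
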