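import Mathlib
import Pool.Agent.GGX.Tri
import Pool.Agent.GGX.Arith3
import Pool.Agent.GGA.Err
import Pool.Agent.GGA.Fix2
import Pool.Agent.GGA.Res

/-!
The bound for almost all arrays, mean error up to `1/2 - δ`.
-/

namespace Pool.Agent.GGA

open Finset Pool.Agent.GGX Pool.Agent.GGX.Tri

/-- the number of bits -/
theorem exists_bits (X N : ℕ) (hX : 1 ≤ X) (hXN : X ≤ N) : ∃ e : ℕ, N ≤ 2 ^ e * X ∧
    2 ^ e * X ≤ 2 * N := by
  have hex : ∃ e : ℕ, N ≤ 2 ^ e * X := by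
    refine ⟨N, ?_⟩
    have h1 : N < 2 ^ N := Nat.lt_two_pow_self
    calc N ≤ 2 ^ N * 1 := by omega
      _ ≤ 2 ^ N * X := Nat.mul_le_mul_left _ hX
  classical
  refine ⟨Nat.find hex, Nat.find_spec hex, ?_⟩
  rcases Nat.eq_zero_or_pos (Nat.find hex) with h | h
  · rw [h]
    omega
  · obtain ⟨d, hd⟩ : ∃ d, Nat.find hex = d + 1 := ⟨Nat.find hex - 1, by omega⟩
    have h1 := Nat.find_min hex (m := d) (by omega)
    rw [hd, pow_succ]
    have : 2 ^ d * 2 * X = 2 * (2 ^ d * X) := by ring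
    omega

/-- the arithmetic at the end -/
theorem res2_num (n t s e κ : ℕ) (X H N : ℝ) (hX : 0 ≤ X) (hκ : 12 ≤ κ) (hn : 1000 * κ ^ 3 ≤ n)
    (ht : t + 1 ≤ n) (hs : (2 : ℝ) ^ s ≤ 2 * H) (he : (2 : ℝ) ^ e * X ≤ 2 * N)
    (h : n ^ 2 ≤ 100 * κ ^ 2 * (t + 1) * (s + e + 2 * κ + 1)) :
    X * (2 : ℝ) ^ (1 / (200 * (κ : ℝ) ^ 2) * (n : ℝ) ^ 2 / (t + 1)) ≤ H * N := by
  have hκR : (12 : ℝ) ≤ κ := by exact_mod_cast hκ
  have hκ0 : (0 : ℝ) < κ := by linarith
  have ht0 : (0 : ℝ) < (t : ℝ) + 1 := by positivity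
  set y : ℝ := (n : ℝ) ^ 2 / (200 * (κ : ℝ) ^ 2 * (t + 1)) with hy
  have e1 : 1 / (200 * (κ : ℝ) ^ 2) * (n : ℝ) ^ 2 / (t + 1) = y := by
    rw [hy]
    field_simp
  rw [e1]
  have hR : (n : ℝ) ^ 2 ≤ 100 * (κ : ℝ) ^ 2 * (t + 1) * (s + e + 2 * κ + 1) := by exact_mod_cast h
  have e2 : 2 * y ≤ s + e + 2 * κ + 1 := by
    rw [hy, ← mul_div_assoc, div_le_iff₀ (by positivity)]
    linarith
  have hnR : 1000 * (κ : ℝ) ^ 3 ≤ n := by exact_mod_cast hn
  have htR : (t : ℝ) + 1 ≤ n := by exact_mod_cast ht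
  have hn0 : (0 : ℝ) < n := by linarith
  have e3 : 2 * (κ : ℝ) + 3 ≤ y := by
    rw [hy, le_div_iff₀ (by positivity)]
    have h1 : (2 * (κ : ℝ) + 3) * (200 * (κ : ℝ) ^ 2 * (t + 1)) ≤
        (3 * κ) * (200 * (κ : ℝ) ^ 2 * n) := by
      apply mul_le_mul (by linarith) _ (by positivity) (by positivity)
      exact mul_le_mul_of_nonneg_left htR (by positivity)
    have h2 : (3 * (κ : ℝ)) * (200 * (κ : ℝ) ^ 2 * n) = 600 * (κ : ℝ) ^ 3 * n := by ring
    have h3 : 600 * (κ : ℝ) ^ 3 * n ≤ n * n := by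
      apply mul_le_mul_of_nonneg_right _ hn0.le
      have : (0 : ℝ) < (κ : ℝ) ^ 3 := by positivity
      linarith
    calc _ ≤ _ := h1
      _ = _ := h2
      _ ≤ _ := h3
      _ = (n : ℝ) ^ 2 := by ring
  have e4 : (2 : ℝ) ^ (y + (2 * (κ : ℝ) + 3)) ≤ (2 : ℝ) ^ ((s + e + 2 * κ + 1 : ℕ) : ℝ) := by
    apply Real.rpow_le_rpow_of_exponent_le (by norm_num)
    push_cast
    linarith
  rw [Real.rpow_natCast] at e4
  have e5 : (2 : ℝ) ^ (y + (2 * (κ : ℝ) + 3)) = 2 ^ y * 2 ^ (2 * κ + 3) := by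
    rw [Real.rpow_add (by norm_num)]
    congr 1
    rw [← Real.rpow_natCast]
    push_cast
    rfl
  rw [e5] at e4
  have e6 : X * 2 ^ y * 2 ^ (2 * κ + 3) ≤ H * N * 2 ^ (2 * κ + 3) := by
    calc X * 2 ^ y * 2 ^ (2 * κ + 3) = X * (2 ^ y * 2 ^ (2 * κ + 3)) := by ring
      _ ≤ X * 2 ^ (s + e + 2 * κ + 1) := mul_le_mul_of_nonneg_left e4 hX
      _ = (2 ^ s) * (2 ^ e * X) * 2 ^ (2 * κ + 1) := by ring
      _ ≤ (2 * H) * (2 * N) * 2 ^ (2 * κ + 1) := by
          apply mul_le_mul_of_nonneg_right _ (by positivity)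
          have hH : 0 ≤ 2 * H := le_trans (by positivity) hs
          exact mul_le_mul hs he (by positivity) hH
      _ = H * N * 2 ^ (2 * κ + 3) := by ring
  exact le_of_mul_le_mul_right e6 (by positivity)

open Classical in
/-- **3SUM-Indexing in the generic group model.** -/
theorem lower2 (δ : ℝ) (hδ : 0 < δ) :
    ∃ c : ℝ, 0 < c ∧ ∃ C n₀ : ℕ, ∀ n ≥ n₀, ∀ (p : ℕ) [Fact p.Prime], n ^ C ≤ p →
    ∃ Bad : Finset ((Fin n → ZMod p) × (Fin n → ZMod p)), n * Bad.card ≤ p ^ (2 * n) ∧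
      ∀ a b, (a, b) ∉ Bad → ∀ (L Adv Ω : Type) [Fintype L] [Fintype Adv] [Fintype Ω]
        [Nonempty Ω] (q t : ℕ), (q + t + 1 : ℝ) ≤ c * n →
        ∀ D : DataStructure (ZMod p) L Adv Ω q, D.Time t →
        (Nat.card {σ : ZMod p ≃ L // D.error a b σ ≤ 1 / 2 - δ} : ℝ) *
          (2 : ℝ) ^ (c * (n : ℝ) ^ 2 / (t + 1)) ≤ Fintype.card Adv * (p.factorial : ℝ) := by
  set κ : ℕ := max 12 ⌈6 / δ⌉₊ with hκdef
  have hκ12 : 12 ≤ κ := le_max_left _ _
  have hκR : (12 : ℝ) ≤ κ := by exact_mod_cast hκ12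
  have hκ0 : (0 : ℝ) < κ := by linarith
  have hκδ : 12 / (κ : ℝ) ≤ 2 * δ := by
    have h1 : 6 / δ ≤ κ := (Nat.le_ceil _).trans (by exact_mod_cast le_max_right _ _)
    rw [div_le_iff₀ hδ] at h1
    rw [div_le_iff₀ hκ0]
    linarith
  have hκsq : 0 < κ ^ 2 := by positivity
  refine ⟨1 / (4800 * (κ : ℝ) ^ 2), by positivity, 28 * 16 * (200 * κ ^ 2) + 20, 4800 * κ ^ 3,
    fun n hn p _ hp => ?_⟩
  have hκ3 : κ ^ 2 ≤ κ ^ 3 := Nat.pow_le_pow_right (by omega) (by norm_num)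
  have hκ144 : 144 ≤ κ ^ 2 := by nlinarith
  have hn1 : 2 ≤ n := by omega
  have hp20 : n ^ 20 ≤ p := (Nat.pow_le_pow_right (by omega) (by omega)).trans hp
  have hcK : Fintype.card (ZMod p) = p := ZMod.card p
  have hp0 : 0 < p := (Fact.out : p.Prime).pos
  -- the parameter of the exceptional arrays
  set r : ℕ := n / (1600 * κ ^ 2) + 1 with hrdef
  have hr2 : 800 * κ ^ 2 * r ≤ n := by
    have h1 : 1600 * κ ^ 2 * (n / (1600 * κ ^ 2)) ≤ n := Nat.mul_div_le _ _
    have h2 : 800 * κ ^ 2 * r = (1600 * κ ^ 2 * (n / (1600 * κ ^ 2))) / 2 + 800 * κ ^ 2 := by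
      have : 1600 * κ ^ 2 * (n / (1600 * κ ^ 2)) = 2 * (800 * κ ^ 2 * (n / (1600 * κ ^ 2))) := by
        ring
      rw [this, Nat.mul_div_cancel_left _ (by norm_num), hrdef]
      ring
    omega
  have hr1 : 1 / (200 * (κ : ℝ) ^ 2) * n / 16 ≤ r := by
    have h1 : n < 1600 * κ ^ 2 * (n / (1600 * κ ^ 2) + 1) :=
      Nat.lt_mul_div_succ n (by positivity)
    have h2 : (n : ℝ) ≤ 1600 * (κ : ℝ) ^ 2 * r := by
      have : ((n : ℕ) : ℝ) ≤ ((1600 * κ ^ 2 * r : ℕ) : ℝ) := by exact_mod_cast h1.le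
      push_cast at this
      exact this
    have h3 : 1 / (200 * (κ : ℝ) ^ 2) * n / 16 = n / (3200 * (κ : ℝ) ^ 2) := by
      field_simp
      norm_num
    rw [h3, div_le_iff₀ (by positivity)]
    have : (0 : ℝ) ≤ 1600 * (κ : ℝ) ^ 2 * r := by positivity
    linarith
  have hbad : 4 * n * ((n + 2) ^ 2 * ((n + 1) ^ (n + 1) * (4 ^ n * (n + 1) ^ (12 * n)))) ≤
      p ^ r := by
    refine bad_bound4 n p r (28 * 16 * (200 * κ ^ 2)) (1 / (200 * (κ : ℝ) ^ 2)) (by positivity)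
      (by omega) ?_ ?_ hr1
    · refine le_of_eq ?_
      push_cast
      field_simp
      norm_num
    · exact (Nat.pow_le_pow_right (by omega) (by omega)).trans hp
  -- the exceptional arrays
  set B1 : Finset (Ix n → ZMod p) := bad (ZMod p) n r with hB1
  set B2 : Finset (Ix n → ZMod p) := B1.image (fun f => f ∘ rv) with hB2
  set B3 : Finset (Ix n → ZMod p) := coll (ZMod p) n with hB3
  have hrv : ∀ f : Ix n → ZMod p, (f ∘ rv) ∘ rv = f := by
    intro f
    funext x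
    rcases x with x | x <;> simp [rv]
  refine ⟨(B1 ∪ B2 ∪ B3).image (fun f => (f ∘ Sum.inl, f ∘ Sum.inr)), ?_, ?_⟩
  · have h1 : 4 * n * B1.card ≤ p ^ (2 * n) := by
      have h := card_bad (K := ZMod p) (n := n) r
      rw [hcK] at h
      have h3 : 4 * n * B1.card * p ^ r ≤ p ^ (2 * n) * p ^ r := by
        calc 4 * n * B1.card * p ^ r = 4 * n * (B1.card * p ^ r) := by ring
          _ ≤ 4 * n * ((n + 2) ^ 2 * ((n + 1) ^ (n + 1) * (4 ^ n * (n + 1) ^ (12 * n))) *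
              p ^ (2 * n)) := Nat.mul_le_mul_left _ h
          _ = 4 * n * ((n + 2) ^ 2 * ((n + 1) ^ (n + 1) * (4 ^ n * (n + 1) ^ (12 * n)))) *
              p ^ (2 * n) := by ring
          _ ≤ p ^ r * p ^ (2 * n) := Nat.mul_le_mul_right _ hbad
          _ = p ^ (2 * n) * p ^ r := by ring
      exact Nat.le_of_mul_le_mul_right h3 (Nat.pow_pos hp0)
    have h2 : B2.card ≤ B1.card := card_image_le
    have h3 : 2 * n * B3.card ≤ p ^ (2 * n) := by
      have h := card_coll (K := ZMod p) (n := n)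
      rw [hcK] at h
      have hn6 : 2 * n * n ^ 4 ≤ p := by
        refine le_trans ?_ hp20
        calc 2 * n * n ^ 4 ≤ n * n * n ^ 4 := by
              apply Nat.mul_le_mul_right
              apply Nat.mul_le_mul_right
              exact hn1
          _ = n ^ 6 := by ring
          _ ≤ n ^ 20 := Nat.pow_le_pow_right (by omega) (by norm_num)
      have h3 : 2 * n * B3.card * p ≤ p ^ (2 * n) * p := by
        calc 2 * n * B3.card * p = 2 * n * (B3.card * p) := by ring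
          _ ≤ 2 * n * (n ^ 4 * p ^ (2 * n)) := Nat.mul_le_mul_left _ h
          _ = 2 * n * n ^ 4 * p ^ (2 * n) := by ring
          _ ≤ p * p ^ (2 * n) := Nat.mul_le_mul_right _ hn6
          _ = p ^ (2 * n) * p := by ring
      exact Nat.le_of_mul_le_mul_right h3 hp0
    have h4 : ((B1 ∪ B2 ∪ B3).image (fun f => (f ∘ Sum.inl, f ∘ Sum.inr))).card ≤
        B1.card + B1.card + B3.card := by
      refine card_image_le.trans ((card_union_le _ _).trans ?_)
      refine Nat.add_le_add_right ((card_union_le _ _).trans ?_) _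
      omega
    have h5 : n * ((B1 ∪ B2 ∪ B3).image (fun f => (f ∘ Sum.inl, f ∘ Sum.inr))).card ≤
        n * (B1.card + B1.card + B3.card) := Nat.mul_le_mul_left _ h4
    have h6 : 2 * (n * (B1.card + B1.card + B3.card)) = 4 * n * B1.card + 2 * n * B3.card := by
      ring
    omega
  · intro a b hab L Adv Ω _ _ _ _ q t hqt D hD
    set G : Finset (ZMod p ≃ L) := {σ : ZMod p ≃ L | D.error a b σ ≤ 1 / 2 - δ} with hGdef
    have hGc : Nat.card {σ : ZMod p ≃ L // D.error a b σ ≤ 1 / 2 - δ} = #G := by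
      rw [Nat.card_eq_fintype_card, Fintype.card_subtype]
    rw [hGc]
    rcases Nat.eq_zero_or_pos #G with hG0 | hG0
    · rw [hG0]
      simp only [Nat.cast_zero, zero_mul]
      positivity
    obtain ⟨σ₁, -⟩ := card_pos.mp hG0
    have hL : Fintype.card (ZMod p) = Fintype.card L := Fintype.card_congr σ₁
    have hfac : Fintype.card (ZMod p ≃ L) = p.factorial := by
      rw [Fintype.card_equiv σ₁, hcK]
    have hA : 1 ≤ Fintype.card Adv := Fintype.card_pos_iff.mpr ⟨D.prep σ₁⟩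
    obtain ⟨s, hs1, hs2⟩ := exists_bits 1 (Fintype.card Adv) le_rfl hA
    obtain ⟨e, he1, he2⟩ := exists_bits #G (Fintype.card (ZMod p ≃ L)) hG0 (card_le_univ _)
    rw [Nat.mul_one] at hs1 hs2
    -- sizes
    have hqt' : 4800 * κ ^ 2 * (q + t + 1) ≤ n := by
      have h1 : 1 / (4800 * (κ : ℝ) ^ 2) * n = n / (4800 * (κ : ℝ) ^ 2) := by ring
      rw [h1, le_div_iff₀ (by positivity)] at hqt
      have h2 : (((4800 * κ ^ 2 * (q + t + 1) : ℕ)) : ℝ) ≤ n := by
        push_cast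
        linarith
      exact_mod_cast h2
    have hqt3 : 1600 * κ ^ 2 * (q + 1 + 3 * t) ≤ n := by
      calc 1600 * κ ^ 2 * (q + 1 + 3 * t) ≤ 1600 * κ ^ 2 * (3 * (q + t + 1)) :=
            Nat.mul_le_mul_left _ (by omega)
        _ = 4800 * κ ^ 2 * (q + t + 1) := by ring
        _ ≤ n := hqt'
    have hT0 : q + 1 + 3 * t ≤ n := by
      calc q + 1 + 3 * t = 1 * (q + 1 + 3 * t) := (Nat.one_mul _).symm
        _ ≤ 1600 * κ ^ 2 * (q + 1 + 3 * t) := Nat.mul_le_mul_right _ (by omega)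
        _ ≤ n := hqt3
    have hf : (Sum.elim a b : Ix n → ZMod p) ∉ B1 ∪ B2 ∪ B3 := by
      intro h
      apply hab
      rw [mem_image]
      exact ⟨Sum.elim a b, h, by simp⟩
    simp only [mem_union, not_or] at hf
    obtain ⟨⟨hf1, hf2⟩, hf3⟩ := hf
    have hf2' : (Sum.elim a b : Ix n → ZMod p) ∘ rv ∉ bad (ZMod p) n r := by
      intro h
      apply hf2
      rw [hB2, mem_image]
      exact ⟨_, h, hrv _⟩
    have hS : #(Sums a b) = n ^ 2 := by
      rw [sums_eq', card_image_of_injective _ (sm_injective _ hf3)]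
      simp [pow_two]
    have hmain : n ^ 2 ≤ 100 * κ ^ 2 * (t + 1) * (s + e + 2 * κ + 1) := by
      refine fixed2 (K := ZMod p) (L := L) hL (Sums a b) n q t s e
        (2 * (n * (2 * (q + 1 + 3 * t) + r))) κ hκ12 hS ?_ ?_ ?_ Adv Ω hs1 D hD G he1 ?_
        (by rw [hcK]; exact hp20)
      · intro Q hQ
        have h := conf_all r (q + 1 + 3 * t) (by omega) (Sum.elim a b) hf1 hf2' (Sums a b)
          (sums_eq' a b) Q hQ
        convert h
      · have h1 : 400 * κ ^ 2 * (2 * (q + 1 + 3 * t) + r) ≤ n := by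
          have h2 : 2 * (400 * κ ^ 2 * (2 * (q + 1 + 3 * t) + r)) =
              1600 * κ ^ 2 * (q + 1 + 3 * t) + 800 * κ ^ 2 * r := by ring
          omega
        calc 200 * κ ^ 2 * (2 * (n * (2 * (q + 1 + 3 * t) + r)))
            = n * (400 * κ ^ 2 * (2 * (q + 1 + 3 * t) + r)) := by ring
          _ ≤ n * n := Nat.mul_le_mul_left _ h1
          _ = n ^ 2 := by ring
      · refine le_trans ?_ hqt3
        apply Nat.mul_le_mul_right
        omega
      · intro σ hσ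
        have h1 : D.error a b σ ≤ 1 / 2 - δ := (mem_filter.mp hσ).2
        have hΩ : (0 : ℝ) < Fintype.card Ω := by exact_mod_cast Fintype.card_pos
        unfold DataStructure.error at h1
        rw [div_le_iff₀ (by positivity)] at h1
        have h2 : (1 / 2 - δ) * (2 * (Fintype.card Ω : ℝ)) ≤
            (1 - 12 / κ) * Fintype.card Ω := by
          have : (1 / 2 - δ) * (2 * (Fintype.card Ω : ℝ)) = (1 - 2 * δ) * Fintype.card Ω := by
            ring
          rw [this]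
          exact mul_le_mul_of_nonneg_right (by linarith) hΩ.le
        convert h1.trans h2
    have hfin := res2_num n t s e κ #G (Fintype.card Adv) (Fintype.card (ZMod p ≃ L))
      (Nat.cast_nonneg _) hκ12 (by omega) (by omega) (by exact_mod_cast hs2)
      (by exact_mod_cast he2) hmain
    rw [hfac] at hfin
    refine le_trans ?_ hfin
    apply mul_le_mul_of_nonneg_left _ (Nat.cast_nonneg _)
    apply Real.rpow_le_rpow_of_exponent_le (by norm_num)
    apply div_le_div_of_nonneg_right _ (by positivity)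
    apply mul_le_mul_of_nonneg_right _ (by positivity)
    apply div_le_div_of_nonneg_left (by norm_num) (by positivity)
    have : (0 : ℝ) < (κ : ℝ) ^ 2 := by positivity
    linarith

end Pool.Agent.GGA
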